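import Pool.Agent.Helper21.MT.Gour2

/-!
Goursat for symplectic Lie algebras: any number of factors.
-/

open Module

namespace MTP

variable {K : Type*} [Field K] {ι : Type*} [Fintype ι] [DecidableEq ι] {W : ι → Type*}
  [∀ j, AddCommGroup (W j)] [∀ j, Module K (W j)] [∀ j, FiniteDimensional K (W j)]

/-- **Goursat.** A Lie algebra of families of infinitesimal symplectic operators which projects
onto every factor, the factors being pairwise non isomorphic, is everything. -/
theorem goursat [CharZero K] (hnt : ∀ j, Nontrivial (W j))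
    (ω : ∀ j, LinearMap.BilinForm K (W j)) (hω : ∀ j, (ω j).Nondegenerate)
    (halt : ∀ j, (ω j).IsAlt) (L : Submodule K (∀ j, Module.End K (W j)))
    (hbr : ∀ x ∈ L, ∀ y ∈ L, x * y - y * x ∈ L) (hsk : ∀ x ∈ L, ∀ j, IsSk (ω j) (x j))
    (hproj : ∀ j, ∀ z, IsSk (ω j) z → ∃ x ∈ L, x j = z)
    (hiso : ∀ i j, i ≠ j → ¬ ∃ e : W i ≃ₗ[K] W j, ∀ x ∈ L, ∀ v, e (x i v) = x j (e v)) :
    ∀ x : (∀ j, Module.End K (W j)), (∀ j, IsSk (ω j) (x j)) → x ∈ L := by
  -- ideals of the projections
  have hideal : ∀ (s : Finset ι) (j : ι), (∃ x ∈ L, (∀ i ∈ s, x i = 0) ∧ x j ≠ 0) →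
      ∀ z, IsSk (ω j) z → ∃ x ∈ L, (∀ i ∈ s, x i = 0) ∧ x j = z := by
    rintro s j ⟨x, hx, hxs, hxj⟩ z hz
    let J : Submodule K (Module.End K (W j)) :=
      { carrier := {z | ∃ x ∈ L, (∀ i ∈ s, x i = 0) ∧ x j = z}
        add_mem' := by
          rintro a b ⟨x, hx, hx2, rfl⟩ ⟨y, hy, hy2, rfl⟩
          exact ⟨x + y, L.add_mem hx hy, fun i hi => by
            rw [Pi.add_apply, hx2 i hi, hy2 i hi, add_zero], rfl⟩
        zero_mem' := ⟨0, L.zero_mem, fun i _ => rfl, rfl⟩
        smul_mem' := by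
          rintro c a ⟨x, hx, hx2, rfl⟩
          exact ⟨c • x, L.smul_mem c hx, fun i hi => by
            rw [Pi.smul_apply, hx2 i hi, smul_zero], rfl⟩ }
    have hJ : ∀ y, IsSk (ω j) y → ∀ x ∈ J, y * x - x * y ∈ J := by
      rintro y hy z ⟨x, hx, hx2, rfl⟩
      obtain ⟨y', hy', rfl⟩ := hproj j y hy
      refine ⟨y' * x - x * y', hbr _ hy' _ hx, fun i hi => ?_, rfl⟩
      rw [Pi.sub_apply, Pi.mul_apply, Pi.mul_apply, hx2 i hi]; simp
    exact sp_simple (hω j) (halt j) hJ ⟨x, hx, hxs, rfl⟩ (hsk x hx j) hxj hz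
  -- two factors
  have hpair : ∀ i j, i ≠ j → ∃ x ∈ L, x i = 0 ∧ x j ≠ 0 := by
    intro i j hij
    by_contra hcon
    push Not at hcon
    apply hiso i j hij
    let Φ : (∀ j, Module.End K (W j)) →ₗ[K] (Module.End K (W i) × Module.End K (W j)) :=
      { toFun := fun x => (x i, x j)
        map_add' := by intro x y; rfl
        map_smul' := by intro c x; rfl }
    have hi := hnt i
    have hj := hnt j
    obtain ⟨e, he⟩ := goursat_two (hω i) (halt i) (hω j) (halt j) (L.map Φ)
      (by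
        rintro _ ⟨x, hx, rfl⟩ _ ⟨y, hy, rfl⟩
        exact ⟨x * y - y * x, hbr x hx y hy, rfl⟩)
      (by rintro _ ⟨x, hx, rfl⟩; exact hsk x hx i)
      (by rintro _ ⟨x, hx, rfl⟩; exact hsk x hx j)
      (by
        intro z hz
        obtain ⟨x, hx, rfl⟩ := hproj i z hz
        exact ⟨Φ x, ⟨x, hx, rfl⟩, rfl⟩)
      (by
        intro z hz
        obtain ⟨x, hx, rfl⟩ := hproj j z hz
        exact ⟨Φ x, ⟨x, hx, rfl⟩, rfl⟩)
      (by
        rintro _ ⟨x, hx, rfl⟩ h
        exact hcon x hx h)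
    exact ⟨e, fun x hx v => he (Φ x) ⟨x, hx, rfl⟩ v⟩
  -- many factors
  have hmany : ∀ (j : ι) (s : Finset ι), j ∉ s → ∃ x ∈ L, (∀ i ∈ s, x i = 0) ∧ x j ≠ 0 := by
    intro j s
    induction s using Finset.induction_on with
    | empty =>
      intro _
      have := hnt j
      obtain ⟨u, hu⟩ := exists_ne (0 : W j)
      obtain ⟨w, hw⟩ : ∃ w, ω j u w ≠ 0 := by
        by_contra hcon
        push Not at hcon
        exact hu ((hω j).1 u hcon)
      obtain ⟨x, hx, hxj⟩ := hproj j _ (TT_sk (halt j) u)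
      refine ⟨x, hx, by simp, ?_⟩
      rw [hxj]
      intro h
      have h2 := LinearMap.congr_fun h w
      rw [TT_apply, LinearMap.zero_apply, smul_eq_zero] at h2
      rcases h2 with h2 | h2
      · exact hw h2
      · exact hu h2
    | insert a s ha ih =>
      intro hj
      rw [Finset.mem_insert, not_or] at hj
      obtain ⟨hja, hjs⟩ := hj
      have := hnt j
      obtain ⟨u, hu⟩ := exists_ne (0 : W j)
      obtain ⟨v, hv⟩ : ∃ v, ω j u v ≠ 0 := by
        by_contra hcon
        push Not at hcon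
        exact hu ((hω j).1 u hcon)
      obtain ⟨x1, hx1, hx1s, hx1j⟩ := hideal s j (ih hjs) _ (TT_sk (halt j) u)
      obtain ⟨x2, hx2, hx2s, hx2j⟩ := hideal {a} j (by
        obtain ⟨x, hx, hxa, hxj⟩ := hpair a j (Ne.symm hja)
        exact ⟨x, hx, by simpa using hxa, hxj⟩) _ (TT_sk (halt j) v)
      refine ⟨x1 * x2 - x2 * x1, hbr _ hx1 _ hx2, ?_, ?_⟩
      · intro i hi
        rw [Finset.mem_insert] at hi
        rw [Pi.sub_apply, Pi.mul_apply, Pi.mul_apply]
        rcases hi with rfl | hi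
        · rw [hx2s i (Finset.mem_singleton_self i)]; simp
        · rw [hx1s i hi]; simp
      · rw [Pi.sub_apply, Pi.mul_apply, Pi.mul_apply, hx1j, hx2j, TT_comm (halt j)]
        intro h
        have h2 := LinearMap.congr_fun h u
        have h3 : ω j v u = - ω j u v := ((halt j).neg_eq u v).symm
        rw [LinearMap.smul_apply, BB_apply, (halt j).self_eq_zero, zero_smul, add_zero, h3,
          LinearMap.zero_apply, smul_eq_zero, smul_eq_zero] at h2
        rcases h2 with h2 | h2 | h2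
        · exact hv h2
        · exact hv (neg_eq_zero.mp h2)
        · exact hu h2
  -- conclusion
  intro x hx
  have hsum : x = ∑ j, Pi.single j (x j) := by
    funext i
    rw [Finset.sum_apply]
    simp [Finset.sum_pi_single]
  rw [hsum]
  apply L.sum_mem
  intro j _
  obtain ⟨y, hy, hys, hyj⟩ := hideal (Finset.univ.erase j) j
    (hmany j _ (Finset.notMem_erase j _)) (x j) (hx j)
  have : Pi.single j (x j) = y := by
    funext i
    by_cases h : i = j
    · subst h; rw [Pi.single_eq_same, hyj]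
    · rw [Pi.single_eq_of_ne h, hys i (Finset.mem_erase.mpr ⟨h, Finset.mem_univ i⟩)]
  rw [this]; exact hy

end MTP
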