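import Pool.Agent.Helper21.MT.Trans

/-!
The matrix form of the group theorem.
-/

open Module MTPairs

namespace MTP

variable {K : Type*} [Field K] {m : Type*} [Fintype m] [DecidableEq m]
  {ι : Type*} [Fintype ι] [DecidableEq ι] {W : ι → Submodule K (m → K)}

/-- The decomposition as a linear equivalence. -/
noncomputable def eqv (h : DirectSum.IsInternal W) : (∀ j, W j) ≃ₗ[K] (m → K) :=
  (DirectSum.linearEquivFunOnFintype K ι (fun j => W j)).symm.trans
    (LinearEquiv.ofBijective (DirectSum.coeLinearMap W) h)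

lemma eqv_single (h : DirectSum.IsInternal W) (j : ι) (v : W j) :
    eqv h (Pi.single j v) = (v : m → K) := by
  rw [eqv, LinearEquiv.trans_apply, DirectSum.linearEquivFunOnFintype_symm_single]
  exact DirectSum.coeLinearMap_lof W j v

lemma eqv_symm (h : DirectSum.IsInternal W) (j : ι) (v : W j) :
    (eqv h).symm (v : m → K) = Pi.single j v := by
  rw [← eqv_single h j v, LinearEquiv.symm_apply_apply]

lemma ext_internal (h : DirectSum.IsInternal W) {X : Type*} [AddCommGroup X] [Module K X]
    {f f' : (m → K) →ₗ[K] X} (hf : ∀ j, ∀ v : W j, f v = f' v) : f = f' := by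
  have : f ∘ₗ (eqv h).toLinearMap = f' ∘ₗ (eqv h).toLinearMap := by
    apply LinearMap.pi_ext
    intro i x
    simp only [LinearMap.comp_apply, LinearEquiv.coe_coe, eqv_single, hf]
  refine LinearMap.ext fun x => ?_
  have h2 := LinearMap.congr_fun this ((eqv h).symm x)
  simpa using h2

/-- Block diagonal operators. -/
noncomputable def big (h : DirectSum.IsInternal W) (a : ∀ j, Module.End K (W j)) :
    (m → K) →ₗ[K] (m → K) :=
  (eqv h).toLinearMap ∘ₗ (LinearMap.pi fun j => a j ∘ₗ LinearMap.proj j) ∘ₗ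
    (eqv h).symm.toLinearMap

lemma big_apply (h : DirectSum.IsInternal W) (a : ∀ j, Module.End K (W j)) (j : ι) (v : W j) :
    big h a v = (a j v : W j) := by
  rw [big, LinearMap.comp_apply, LinearMap.comp_apply, LinearEquiv.coe_coe, LinearEquiv.coe_coe,
    eqv_symm]
  have : (LinearMap.pi fun j => a j ∘ₗ LinearMap.proj j) (Pi.single j v) =
      (Pi.single j (a j v) : ∀ j, W j) := by
    funext i
    by_cases hi : i = j
    · subst hi; simp
    · simp [hi]
  rw [this, eqv_single]

/-- Block diagonal matrices. -/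
noncomputable def mat (h : DirectSum.IsInternal W) (a : ∀ j, Module.End K (W j)) :
    Matrix m m K := LinearMap.toMatrix' (big h a)

lemma mat_mulVec (h : DirectSum.IsInternal W) (a : ∀ j, Module.End K (W j)) (j : ι) (v : W j) :
    (mat h a).mulVec v = (a j v : W j) := by
  rw [← big_apply h, mat, ← Matrix.toLin'_apply, Matrix.toLin'_toMatrix']

lemma eq_mat (h : DirectSum.IsInternal W) {g : Matrix m m K} {a : ∀ j, Module.End K (W j)}
    (hg : ∀ j, ∀ v : W j, g.mulVec v = (a j v : W j)) : g = mat h a := by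
  have : Matrix.toLin' g = big h a := by
    apply ext_internal h
    intro j v
    rw [Matrix.toLin'_apply, hg, big_apply]
  rw [mat, ← this, LinearMap.toMatrix'_toLin']

lemma mat_inj (h : DirectSum.IsInternal W) {a a' : ∀ j, Module.End K (W j)}
    (ha : mat h a = mat h a') : a = a' := by
  funext j
  ext1 v
  apply Subtype.ext
  rw [← mat_mulVec h, ← mat_mulVec h, ha]

lemma mat_mul (h : DirectSum.IsInternal W) (a a' : ∀ j, Module.End K (W j)) :
    mat h (a * a') = mat h a * mat h a' := by
  symm
  apply eq_mat h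
  intro j v
  rw [← Matrix.mulVec_mulVec, mat_mulVec, mat_mulVec]
  rfl

lemma mat_one (h : DirectSum.IsInternal W) : mat h 1 = 1 := by
  symm
  apply eq_mat h
  intro j v
  rw [Matrix.one_mulVec]
  rfl

lemma mat_add (h : DirectSum.IsInternal W) (a a' : ∀ j, Module.End K (W j)) :
    mat h (a + a') = mat h a + mat h a' := by
  symm
  apply eq_mat h
  intro j v
  rw [Matrix.add_mulVec, mat_mulVec, mat_mulVec]
  rfl

lemma mat_smul (h : DirectSum.IsInternal W) (c : K) (a : ∀ j, Module.End K (W j)) :
    mat h (c • a) = c • mat h a := by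
  symm
  apply eq_mat h
  intro j v
  rw [Matrix.smul_mulVec, mat_mulVec]
  rfl

lemma mat_sub (h : DirectSum.IsInternal W) (a a' : ∀ j, Module.End K (W j)) :
    mat h (a - a') = mat h a - mat h a' := by
  symm
  apply eq_mat h
  intro j v
  rw [Matrix.sub_mulVec, mat_mulVec, mat_mulVec]
  rfl

/-- The linear map `mat`. -/
noncomputable def matL (h : DirectSum.IsInternal W) :
    (∀ j, Module.End K (W j)) →ₗ[K] Matrix m m K where
  toFun := mat h
  map_add' := mat_add h
  map_smul' := mat_smul h

/-- Restriction of a block diagonal matrix. -/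
lemma exists_mat (h : DirectSum.IsInternal W) {g : Matrix m m K}
    (hg : ∀ j, ∀ v ∈ W j, g.mulVec v ∈ W j) : ∃ a, g = mat h a := by
  refine ⟨fun j => (Matrix.mulVecLin g).restrict (p := W j) (q := W j) (fun v hv => hg j v hv),
    ?_⟩
  apply eq_mat h
  intro j v
  rfl

/-- The restricted forms. -/
noncomputable def form (J : Matrix m m K) (W : ι → Submodule K (m → K)) (j : ι) :
    LinearMap.BilinForm K (W j) := (Matrix.toBilin' J).restrict (W j)

omit [Fintype ι] in
lemma form_apply (J : Matrix m m K) (j : ι) (v w : W j) :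
    form J W j v w = (v : m → K) ⬝ᵥ J.mulVec (w : m → K) := by
  change Matrix.toBilin' J (v : m → K) (w : m → K) = _
  rw [Matrix.toBilin'_apply']

/-- The set of restrictions of the elements of `G`. -/
def GS (G : Subgroup (Matrix.GeneralLinearGroup m K)) (h : DirectSum.IsInternal W) :
    Set (∀ j, Module.End K (W j)) :=
  {a | ∃ g ∈ G, (g : Matrix m m K) = mat h a}

section main
variable {J : Matrix m m K} {G : Subgroup (Matrix.GeneralLinearGroup m K)}

lemma form_skew (hJ : J.transpose = -J) (v w : m → K) :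
    v ⬝ᵥ J.mulVec w = - (w ⬝ᵥ J.mulVec v) := by
  rw [Matrix.dotProduct_mulVec, ← Matrix.mulVec_transpose, hJ, Matrix.neg_mulVec,
    neg_dotProduct, dotProduct_comm]

omit [Fintype ι] in
lemma form_alt [CharZero K] (hJ : J.transpose = -J) (j : ι) : (form J W j).IsAlt := by
  intro v
  rw [form_apply]
  have := form_skew hJ (v : m → K) v
  have h2 : (2 : K) * ((v : m → K) ⬝ᵥ J.mulVec (v : m → K)) = 0 := by linear_combination this
  exact (mul_eq_zero.mp h2).resolve_left two_ne_zero

lemma form_nd (hJ : J.transpose = -J) (hdet : J.det ≠ 0) (h : DirectSum.IsInternal W)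
    (horth : ∀ i j, i ≠ j → ∀ v ∈ W i, ∀ w ∈ W j, v ⬝ᵥ J.mulVec w = 0) (j : ι) :
    (form J W j).Nondegenerate := by
  have hleft : ∀ v : W j, (∀ w : W j, form J W j v w = 0) → v = 0 := by
    intro v hv
    have hall : ∀ w : m → K, (v : m → K) ⬝ᵥ J.mulVec w = 0 := by
      have : (Matrix.toBilin' J (v : m → K)) = 0 := by
        apply ext_internal h
        intro i w
        rw [Matrix.toBilin'_apply', LinearMap.zero_apply]
        by_cases hij : i = j
        · subst hij
          have := hv w
          rwa [form_apply] at this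
        · exact horth j i (Ne.symm hij) v v.2 w w.2
      intro w
      have h2 := LinearMap.congr_fun this w
      rwa [Matrix.toBilin'_apply'] at h2
    have hnd := (Matrix.nondegenerate_of_det_ne_zero hdet)
    apply Subtype.ext
    exact hnd.eq_zero_of_ortho (fun w => hall w)
  constructor
  · intro v hv
    exact hleft v hv
  · intro v hv
    apply hleft v
    intro w
    have := hv w
    rw [form_apply] at this ⊢
    rw [form_skew hJ, this, neg_zero]

lemma finrank_range_restrict (h : DirectSum.IsInternal W) (a : ∀ j, Module.End K (W j)) (j : ι) :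
    rk (a j) = finrank K ((W j).map (mat h a).mulVecLin) := by
  have e : (W j).map (mat h a).mulVecLin = (LinearMap.range (a j)).map (W j).subtype := by
    apply le_antisymm
    · rintro _ ⟨v, hv, rfl⟩
      refine ⟨a j ⟨v, hv⟩, ⟨_, rfl⟩, ?_⟩
      have := mat_mulVec h a j ⟨v, hv⟩
      rw [Matrix.mulVecLin_apply]
      exact this.symm
    · rintro _ ⟨_, ⟨v, rfl⟩, rfl⟩
      refine ⟨v, v.2, ?_⟩
      rw [Matrix.mulVecLin_apply]
      exact mat_mulVec h a j v
  rw [e, Submodule.finrank_map_subtype_eq]
  rfl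

lemma sim_form (h : DirectSum.IsInternal W) {g : Matrix m m K} {a : ∀ j, Module.End K (W j)}
    (hg : g = mat h a) {c : K} (hc : g.transpose * J * g = c • J) (j : ι) (v w : W j) :
    form J W j (a j v) (a j w) = c * form J W j v w := by
  rw [form_apply, form_apply, ← mat_mulVec h, ← mat_mulVec h, ← hg]
  have e : (g.mulVec (v : m → K)) ⬝ᵥ J.mulVec (g.mulVec (w : m → K)) =
      (v : m → K) ⬝ᵥ (g.transpose * J * g).mulVec (w : m → K) := by
    rw [← Matrix.mulVec_mulVec, ← Matrix.mulVec_mulVec, Matrix.dotProduct_mulVec (v : m → K),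
      Matrix.vecMul_transpose]
  rw [e, hc, Matrix.smul_mulVec, dotProduct_smul, smul_eq_mul]

/-- The abstract data attached to a pair. -/
theorem grpData [IsAlgClosed K] [CharZero K] {σ : Type*} [Fintype σ]
    (b : Basis σ K (∀ j, Module.End K (W j))) (hG : IsMTPair J G) (hW : IsSplit J G W)
    (hq : ∀ j, ∃ u ∈ G, ∃ r, IsQuadraticOn u (W j) r ∧ (Odd r ∨ r = 2)) :
    GrpData (form J W) b (GS G hW.internal) := by
  have h := hW.internal
  have hfd : Module.Finite K (∀ j, Module.End K (W j)) := Module.Finite.of_basis b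
  have hnt : ∀ j, W j ≠ ⊥ := by
    intro j hj
    obtain ⟨u, hu, r, ⟨-, h2⟩, h3⟩ := hq j
    rw [hj, Submodule.map_bot, finrank_bot] at h2
    rw [← h2] at h3
    rcases h3 with h3 | h3
    · exact Nat.not_odd_zero h3
    · omega
  have hres : ∀ g ∈ G, ∃ a ∈ GS G h, (g : Matrix m m K) = mat h a := by
    intro g hg
    obtain ⟨a, ha⟩ := exists_mat h (hW.stable g hg)
    exact ⟨a, ⟨g, hg, ha⟩, ha⟩
  refine
    { nd := form_nd hG.skew hG.det h hW.orth
      alt := form_alt hG.skew
      one := ⟨1, G.one_mem, (mat_one h).symm⟩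
      mul := ?_
      inv := ?_
      closed := ?_
      sim := ?_
      gen := ?_
      irr := ?_
      ne := ?_
      quad := ?_ }
  · rintro a ⟨g, hg, hga⟩ a' ⟨g', hg', hga'⟩
    refine ⟨g * g', G.mul_mem hg hg', ?_⟩
    rw [mat_mul, ← hga, ← hga']
    rfl
  · rintro a ⟨g, hg, hga⟩
    obtain ⟨a', ha', hga'⟩ := hres _ (G.inv_mem hg)
    refine ⟨a', ha', ?_, ?_⟩
    · apply mat_inj h
      rw [mat_mul, mat_one, ← hga, ← hga']
      exact Units.mul_inv g
    · apply mat_inj h
      rw [mat_mul, mat_one, ← hga, ← hga']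
      exact Units.inv_mul g
  · intro a a' haa hp
    have haa' : mat h a * mat h a' = 1 := by rw [← mat_mul, haa, mat_one]
    obtain ⟨P, hP⟩ := hG.closed
    let g : Matrix.GeneralLinearGroup m K :=
      ⟨mat h a, mat h a', haa', mul_eq_one_comm.mp haa'⟩
    refine ⟨g, ?_, rfl⟩
    rw [hP]
    intro p hpP
    let f : (∀ j, Module.End K (W j)) →ₗ[K] (m × m → K) :=
      { toFun := fun a ij => mat h a ij.1 ij.2
        map_add' := by intro x y; ext ij; simp [mat_add]
        map_smul' := by intro c x; ext ij; simp [mat_smul] }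
    obtain ⟨p', hp'⟩ := exists_pullback (A := ∀ j, Module.End K (W j)) b f p
    have h1 := hp p' (by
      rintro x ⟨g', hg', hgx⟩
      rw [hp']
      have := (hP g').mp hg' p hpP
      rw [hgx] at this
      exact this)
    rw [hp'] at h1
    exact h1
  · rintro a ⟨g, hg, hga⟩
    obtain ⟨c, hc⟩ := hG.sim g hg
    exact ⟨c, fun j v w => sim_form h hga hc j v w⟩
  · intro M hM a ha
    obtain ⟨g, hg, hga⟩ := ha
    let H : Subgroup (Matrix.GeneralLinearGroup m K) :=
      { carrier := {g | g ∈ G ∧ ∃ a ∈ M, (g : Matrix m m K) = mat h a}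
        one_mem' := ⟨G.one_mem, 1, M.one_mem, (mat_one h).symm⟩
        mul_mem' := by
          rintro g g' ⟨hg, a, ha, hga⟩ ⟨hg', a', ha', hga'⟩
          refine ⟨G.mul_mem hg hg', a * a', M.mul_mem ha ha', ?_⟩
          rw [mat_mul, ← hga, ← hga']
          rfl
        inv_mem' := by
          rintro g ⟨hg, a, ha, hga⟩
          obtain ⟨a', ha', hga'⟩ := hres _ (G.inv_mem hg)
          refine ⟨G.inv_mem hg, a', ?_, hga'⟩
          apply inv_mem_subalgebra M ha
          apply mat_inj h
          rw [mat_mul, mat_one, ← hga, ← hga']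
          exact Units.inv_mul g }
    have hHclosed : ZariskiClosed H := by
      apply closed_of_linear G H hG.closed ((Subalgebra.toSubmodule M).map (matL h))
      intro g
      constructor
      · rintro ⟨hg, a, ha, hga⟩
        exact ⟨hg, a, ha, hga.symm⟩
      · rintro ⟨hg, a, ha, hga⟩
        exact ⟨hg, a, ha, hga.symm⟩
    have hGH := hG.gen H hHclosed (by
      rintro π ⟨hπ, ht⟩
      -- `π` preserves the summands
      have hpres : ∀ j, ∀ v ∈ W j, π.mulVec v ∈ W j := by
        intro j v hv
        obtain ⟨g, hg, hgt⟩ := ht 2 two_ne_zero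
        have h1 := hW.stable g hg j v hv
        have h2 : (g : Matrix m m K).mulVec v = π.mulVec v + v := by
          rw [hgt]
          have : (2 : K) • π + (1 - π) = π + 1 := by rw [two_smul]; abel
          rw [this, Matrix.add_mulVec, Matrix.one_mulVec]
        rw [h2] at h1
        have := (W j).sub_mem h1 hv
        rwa [add_sub_cancel_right] at this
      obtain ⟨a, ha⟩ := exists_mat h hpres
      have haM : a ∈ M := by
        apply hM
        · apply mat_inj h
          rw [mat_mul, ← ha, hπ]
        · intro t ht0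
          obtain ⟨g, hg, hgt⟩ := ht t ht0
          refine ⟨g, hg, ?_⟩
          rw [mat_add, mat_smul, mat_one, ← ha, hgt]
          module
      refine ⟨hπ, fun t ht0 => ?_⟩
      obtain ⟨g, hg, hgt⟩ := ht t ht0
      refine ⟨g, ⟨hg, 1 + (t - 1) • a, M.add_mem M.one_mem (M.smul_mem haM _), ?_⟩, hgt⟩
      rw [mat_add, mat_smul, mat_one, ← ha, hgt]
      module)
    obtain ⟨-, a', ha', hga'⟩ := hGH hg
    have : a = a' := mat_inj h (by rw [← hga, hga'])
    rw [this]; exact ha'
  · intro j W' hW'
    have := hW.irr j (W'.map (W j).subtype) (by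
      rintro _ ⟨v, -, rfl⟩
      exact v.2) (by
      rintro g hg _ ⟨v, hv, rfl⟩
      obtain ⟨a, ha, hga⟩ := hres g hg
      refine ⟨a j v, hW' a ha v hv, ?_⟩
      rw [hga]
      exact (mat_mulVec h a j v).symm)
    rcases this with h1 | h1
    · left
      rw [eq_bot_iff]
      intro w hw
      have h2 : (w : m → K) ∈ W'.map (W j).subtype := ⟨w, hw, rfl⟩
      rw [h1, Submodule.mem_bot] at h2
      exact Subtype.ext h2
    · right
      rw [eq_top_iff]
      rintro ⟨v, hv⟩ -
      rw [← h1] at hv
      obtain ⟨w, hw, hwv⟩ := hv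
      have : w = ⟨v, by rw [← hwv]; exact w.2⟩ := Subtype.ext hwv
      rw [← this]; exact hw
  · rintro i j hij ⟨e, he⟩
    obtain ⟨pr, hpr⟩ := (W i).exists_isCompl
    let T : (m → K) →ₗ[K] (m → K) :=
      (W j).subtype ∘ₗ e.toLinearMap ∘ₗ (Submodule.projectionOnto (W i) pr hpr)
    have hT : ∀ v : W i, T v = e v := by
      intro v
      simp only [T, LinearMap.comp_apply]
      rw [Submodule.projectionOnto_apply_left]
      rfl
    have := hW.ne i j hij T (by
      intro v hv
      rw [hT ⟨v, hv⟩]
      exact (e ⟨v, hv⟩).2) (by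
      intro g hg v hv
      obtain ⟨a, ha, hga⟩ := hres g hg
      have h1 : (g : Matrix m m K).mulVec v = (a i ⟨v, hv⟩ : W i) := by
        rw [hga]; exact mat_mulVec h a i ⟨v, hv⟩
      rw [h1, hT, he a ha, hT ⟨v, hv⟩, hga]
      exact (mat_mulVec h a j _).symm)
    apply hnt i
    rw [eq_bot_iff]
    intro v hv
    have h1 := this v hv
    rw [hT ⟨v, hv⟩] at h1
    have h2 : e ⟨v, hv⟩ = 0 := Subtype.ext h1
    have h3 : (⟨v, hv⟩ : W i) = 0 := by
      apply e.injective; rw [h2, map_zero]
    exact congrArg Subtype.val h3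
  · intro j
    obtain ⟨u, hu, r, ⟨h1, h2⟩, h3⟩ := hq j
    obtain ⟨a, ha, hga⟩ := hres u hu
    have hsub : (u : Matrix m m K) - 1 = mat h (a - 1) := by
      rw [mat_sub, mat_one, hga]
    refine ⟨a, ha, ?_, ?_⟩
    · ext1 v
      apply Subtype.ext
      have := h1 v v.2
      rw [hsub, mat_mulVec, mat_mulVec] at this
      exact this
    · have h4 : rk (a j - 1) = r := by
        have := finrank_range_restrict h (a - 1) j
        rw [← hsub, h2] at this
        exact this
      rw [h4]; exact h3

omit [DecidableEq m] [DecidableEq ι] in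
lemma exists_basis : ∃ n, Nonempty (Basis (Fin n) K (∀ j, Module.End K (W j))) :=
  ⟨_, ⟨Module.finBasis K (∀ j, Module.End K (W j))⟩⟩

/-- The group theorem, given that the Lie algebra is the full product of the symplectic Lie
algebras of the summands. -/
theorem isFull_of_lie [IsAlgClosed K] [CharZero K] (hG : IsMTPair J G) (hW : IsSplit J G W)
    (hq : ∀ j, ∃ u ∈ G, ∃ r, IsQuadraticOn u (W j) r ∧ (Odd r ∨ r = 2))
    (hgour : ∀ (L : Submodule K (∀ j, Module.End K (W j))),
      (∀ x ∈ L, ∀ y ∈ L, x * y - y * x ∈ L) →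
      (∀ x ∈ L, ∀ j, IsSk (form J W j) (x j)) →
      (∀ j, ∀ z, IsSk (form J W j) z → ∃ x ∈ L, x j = z) →
      (∀ i j, i ≠ j → ¬ ∃ e : W i ≃ₗ[K] W j, ∀ x ∈ L, ∀ v, e (x i v) = x j (e v)) →
      ∀ x : (∀ j, Module.End K (W j)), (∀ j, IsSk (form J W j) (x j)) → x ∈ L) :
    IsFull J G W := by
  rintro g ⟨c, hc⟩ hpres
  rcases isEmpty_or_nonempty ι with hι | hι
  · have hm : IsEmpty m := by
      by_contra hm
      rw [not_isEmpty_iff] at hm
      obtain ⟨i⟩ := hm
      have h1 : (Pi.single i (1 : K) : m → K) ∈ iSup W := by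
        rw [hW.internal.submodule_iSup_eq_top]; trivial
      rw [iSup_of_empty, Submodule.mem_bot] at h1
      have h2 := congrFun h1 i
      rw [Pi.single_eq_same] at h2
      exact one_ne_zero h2
    have : g = 1 := by
      apply Units.ext
      ext i
      exact hm.elim i
    rw [this]; exact G.one_mem
  obtain ⟨n, ⟨b⟩⟩ := exists_basis (W := W)
  have D := grpData b hG hW hq
  obtain ⟨a, ha⟩ := exists_mat hW.internal hpres
  have hm : Nonempty m := by
    obtain ⟨j⟩ := hι
    by_contra hm
    rw [not_nonempty_iff] at hm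
    obtain ⟨v, w, hvw⟩ := D.exists_ne_form j
    apply hvw
    have : v = 0 := by
      apply Subtype.ext
      exact Subsingleton.elim _ _
    rw [this]; simp
  have hc0 : c ≠ 0 := by
    rintro rfl
    rw [zero_smul] at hc
    have h1 := congrArg Matrix.det hc
    rw [Matrix.det_mul, Matrix.det_mul, Matrix.det_transpose, Matrix.det_zero] at h1
    have hg : (g : Matrix m m K).det ≠ 0 :=
      ((Matrix.isUnit_iff_isUnit_det _).mp g.isUnit).ne_zero
    exact (mul_ne_zero (mul_ne_zero hg hG.det) hg) h1
  have full := hgour (lieGen K (GrpData.Inv (form J W) (GS G hW.internal)))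
    (fun x hx y hy => lieGen_comm hx hy) (fun x hx j => D.lie_sk hx j)
    (fun j z hz => D.proj_full j hz) (fun i j hij => D.lie_ne hij)
  obtain ⟨g', hg', hga⟩ := D.gsp_mem full hc0 (g := a)
    (fun j v w => sim_form hW.internal ha hc j v w)
  have : g = g' := Units.ext (by rw [ha, hga])
  rw [this]; exact hg'

end main

end MTP
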