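import Pool.Agent.Helper21.MT.Core

/-!
The square zero elements of least odd rank span the whole Lie algebra.
-/

open Module

namespace MTP

variable {K : Type*} [Field K] {V : Type*} [AddCommGroup V] [Module K V] [FiniteDimensional K V]
variable {ω : LinearMap.BilinForm K V} {L : Submodule K (Module.End K V)}
  {S : Set (Module.End K V)} {r : ℕ}

/-- An irreducible Lie algebra of infinitesimal symplectic operators, generated by a set `S` of
involutions. -/
structure Ctx (ω : LinearMap.BilinForm K V) (L : Submodule K (Module.End K V))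
    (S : Set (Module.End K V)) : Prop where
  irr : IrrSymp ω L
  nd : ω.Nondegenerate
  inv : ∀ s ∈ S, s ∈ L ∧ s * s = 1
  gen : ∀ M : Submodule K (Module.End K V), (∀ x ∈ M, ∀ y ∈ M, x * y - y * x ∈ M) →
    (∀ s ∈ S, s ∈ M) → L ≤ M

/-- The square zero elements of rank `r`. -/
def EE (L : Submodule K (Module.End K V)) (r : ℕ) : Set (Module.End K V) :=
  {x | x ∈ L ∧ x * x = 0 ∧ rk x = r}

/-- `r` is an odd number which bounds from below the odd ranks of square zero elements. -/
def MinOdd (L : Submodule K (Module.End K V)) (r : ℕ) : Prop :=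
  Odd r ∧ ∀ z ∈ L, z * z = 0 → Odd (rk z) → r ≤ rk z

lemma EE_conj {g g' x : Module.End K V} (h1 : g' * g = 1) (h2 : g * g' = 1)
    (hg : ∀ z ∈ L, g * z * g' ∈ L) (hx : x ∈ EE L r) : g * x * g' ∈ EE L r := by
  obtain ⟨hx, hxx, hr⟩ := hx
  refine ⟨hg x hx, ?_, ?_⟩
  · calc g * x * g' * (g * x * g') = g * x * (g' * g) * x * g' := by noncomm_ring
      _ = g * (x * x) * g' := by rw [h1]; noncomm_ring
      _ = 0 := by rw [hxx]; simp
  · rw [rk_conj h1 h2, hr]

lemma EE_smul {x : Module.End K V} {c : K} (hc : c ≠ 0) (hx : x ∈ EE L r) : c • x ∈ EE L r := by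
  obtain ⟨hx, hxx, hr⟩ := hx
  refine ⟨L.smul_mem _ hx, ?_, by rw [rk_smul hc, hr]⟩
  rw [smul_mul_assoc, mul_smul_comm, hxx, smul_zero, smul_zero]

section torus
variable [CharZero K] {s : Module.End K V}

lemma torus_inv (hs : s * s = 1) {t : K} (ht : t ≠ 0) :
    (t⁻¹ • pp s + qq s) * (t • pp s + qq s) = 1 := by
  simp only [add_mul, mul_add, smul_mul_assoc, mul_smul_comm, pp_mul_pp hs, pp_mul_qq hs,
    qq_mul_pp hs, qq_mul_qq hs, smul_zero, add_zero, zero_add, smul_smul]
  rw [mul_inv_cancel₀ ht, one_smul, pp_add_qq]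

lemma torus_inv' (hs : s * s = 1) {t : K} (ht : t ≠ 0) :
    (t • pp s + qq s) * (t⁻¹ • pp s + qq s) = 1 := by
  simp only [add_mul, mul_add, smul_mul_assoc, mul_smul_comm, pp_mul_pp hs, pp_mul_qq hs,
    qq_mul_pp hs, qq_mul_qq hs, smul_zero, add_zero, zero_add, smul_smul]
  rw [inv_mul_cancel₀ ht, one_smul, pp_add_qq]

lemma torus_conj_eq {t : K} (ht : t ≠ 0) (z : Module.End K V) :
    (t • pp s + qq s) * z * (t⁻¹ • pp s + qq s) =
      (pp s * z * pp s + qq s * z * qq s) + t • (pp s * z * qq s) + t⁻¹ • (qq s * z * pp s) := by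
  simp only [add_mul, mul_add, smul_mul_assoc, mul_smul_comm, smul_add, smul_smul]
  rw [inv_mul_cancel₀ ht, one_smul]
  abel

lemma Ctx.torus_mem (hC : Ctx ω L S) (hs : s ∈ S) {t : K} (ht : t ≠ 0) {z : Module.End K V}
    (hz : z ∈ L) : (t • pp s + qq s) * z * (t⁻¹ • pp s + qq s) ∈ L := by
  obtain ⟨hsL, hss⟩ := hC.inv s hs
  obtain ⟨h1, h2, h3⟩ := comps_mem hss (M := L) (fun x hx => hC.irr.br s hsL x hx) hz
  rw [torus_conj_eq ht]
  exact L.add_mem (L.add_mem h3 (L.smul_mem _ h1)) (L.smul_mem _ h2)

/-- The span of the square zero elements of rank `r` is stable under commutators with the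
generating involutions. -/
lemma Ctx.comm_mem_span (hC : Ctx ω L S) (hs : s ∈ S) {x : Module.End K V}
    (hx : x ∈ Submodule.span K (EE L r)) : s * x - x * s ∈ Submodule.span K (EE L r) := by
  obtain ⟨hsL, hss⟩ := hC.inv s hs
  induction hx using Submodule.span_induction with
  | zero => simp
  | add a b _ _ ha hb =>
    have : s * (a + b) - (a + b) * s = (s * a - a * s) + (s * b - b * s) := by noncomm_ring
    rw [this]; exact Submodule.add_mem _ ha hb
  | smul c a _ ha =>
    have : s * (c • a) - (c • a) * s = c • (s * a - a * s) := by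
      rw [mul_smul_comm, smul_mul_assoc, smul_sub]
    rw [this]; exact Submodule.smul_mem _ _ ha
  | mem x hx =>
    have h1 : ∀ t : K, t ≠ 0 → (pp s * x * pp s + qq s * x * qq s) + t • (pp s * x * qq s)
        + t⁻¹ • (qq s * x * pp s) ∈ Submodule.span K (EE L r) := by
      intro t ht
      rw [← torus_conj_eq ht]
      apply Submodule.subset_span
      exact EE_conj (torus_inv hss ht) (torus_inv' hss ht)
        (fun z hz => hC.torus_mem hs ht hz) hx
    have a1 := h1 1 one_ne_zero
    have a2 := h1 (-1) (by norm_num)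
    have a3 := h1 2 two_ne_zero
    set x0 := pp s * x * pp s + qq s * x * qq s with hx0
    set xp := pp s * x * qq s with hxp
    set xq := qq s * x * pp s with hxq
    have hxe : x = x0 + xp + xq := by
      have : x = (pp s + qq s) * x * (pp s + qq s) := by rw [pp_add_qq]; simp
      rw [hx0, hxp, hxq]
      nth_rewrite 1 [this]
      noncomm_ring
    have hsx : s * x - x * s = (2 : K) • xp - (2 : K) • xq := by
      have e1 : s * x - x * s = (pp s - qq s) * x * (pp s + qq s)
        - (pp s + qq s) * x * (pp s - qq s) := by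
        rw [pp_sub_qq, pp_add_qq]; simp
      rw [e1, hxp, hxq]
      have : (pp s - qq s) * x * (pp s + qq s) - (pp s + qq s) * x * (pp s - qq s)
        = 2 • (pp s * x * qq s) - 2 • (qq s * x * pp s) := by noncomm_ring
      rw [this]
      module
    rw [hsx]
    have e2 : (2 : K) • xp - (2 : K) • xq =
        (-3 : K) • (x0 + (1 : K) • xp + (1 : K)⁻¹ • xq)
         + (1 / 3 : K) • (x0 + (-1 : K) • xp + (-1 : K)⁻¹ • xq)
         + (8 / 3 : K) • (x0 + (2 : K) • xp + (2 : K)⁻¹ • xq) := by
      match_scalars <;> norm_num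
    rw [e2]
    exact Submodule.add_mem _ (Submodule.add_mem _ (Submodule.smul_mem _ _ a1)
      (Submodule.smul_mem _ _ a2)) (Submodule.smul_mem _ _ a3)

/-- The span of the square zero elements of rank `r` is an ideal. -/
lemma Ctx.ideal (hC : Ctx ω L S) {z x : Module.End K V} (hz : z ∈ L)
    (hx : x ∈ Submodule.span K (EE L r)) : z * x - x * z ∈ Submodule.span K (EE L r) := by
  let M : Submodule K (Module.End K V) :=
    { carrier := {z | ∀ x ∈ Submodule.span K (EE L r), z * x - x * z ∈ Submodule.span K (EE L r)}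
      add_mem' := by
        intro a b ha hb x hx
        have : (a + b) * x - x * (a + b) = (a * x - x * a) + (b * x - x * b) := by noncomm_ring
        rw [this]; exact Submodule.add_mem _ (ha x hx) (hb x hx)
      zero_mem' := by intro x _; simp
      smul_mem' := by
        intro c a ha x hx
        have : (c • a) * x - x * (c • a) = c • (a * x - x * a) := by
          rw [mul_smul_comm, smul_mul_assoc, smul_sub]
        rw [this]; exact Submodule.smul_mem _ _ (ha x hx) }
  have h : L ≤ M := by
    apply hC.gen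
    · intro a ha b hb x hx
      have h1 := ha _ (hb x hx)
      have h2 := hb _ (ha x hx)
      have e : (a * b - b * a) * x - x * (a * b - b * a) =
        (a * (b * x - x * b) - (b * x - x * b) * a) - (b * (a * x - x * a) - (a * x - x * a) * b) := by
        noncomm_ring
      rw [e]
      exact Submodule.sub_mem _ h1 h2
    · intro s hs x hx
      exact hC.comm_mem_span hs hx
  exact h hz x hx

end torus

lemma span_le (L : Submodule K (Module.End K V)) (r : ℕ) : Submodule.span K (EE L r) ≤ L := by
  rw [Submodule.span_le]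
  intro x hx
  exact hx.1

section main
variable [IsAlgClosed K] [CharZero K] {s : Module.End K V}

/-- The trace form is nondegenerate on the span. -/
lemma Ctx.exists_pair (hC : Ctx ω L S) {z : Module.End K V}
    (hz : z ∈ Submodule.span K (EE L r)) (hz0 : z ≠ 0) :
    ∃ y ∈ EE L r, LinearMap.trace K V (z * y) ≠ 0 := by
  by_contra hcon
  push Not at hcon
  apply hz0
  let R : Submodule K (Module.End K V) :=
    { carrier := {z | z ∈ Submodule.span K (EE L r) ∧
        ∀ y ∈ Submodule.span K (EE L r), LinearMap.trace K V (z * y) = 0}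
      add_mem' := by
        rintro a b ⟨ha, ha'⟩ ⟨hb, hb'⟩
        refine ⟨Submodule.add_mem _ ha hb, fun y hy => ?_⟩
        rw [add_mul, map_add, ha' y hy, hb' y hy, add_zero]
      zero_mem' := ⟨Submodule.zero_mem _, fun y _ => by simp⟩
      smul_mem' := by
        rintro c a ⟨ha, ha'⟩
        refine ⟨Submodule.smul_mem _ c ha, fun y hy => ?_⟩
        rw [smul_mul_assoc, map_smul, ha' y hy, smul_zero] }
  refine hC.irr.ideal_zero hC.nd R (fun z hz => span_le L r hz.1) ?_
    (fun y hy y' hy' => hy.2 y' hy'.1) z ⟨hz, ?_⟩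
  · rintro z hz y ⟨hy, hy'⟩
    refine ⟨hC.ideal hz hy, fun w hw => ?_⟩
    have h0 := hC.ideal hz hw
    have h0' : w * z - z * w ∈ Submodule.span K (EE L r) := by
      have : w * z - z * w = -(z * w - w * z) := by noncomm_ring
      rw [this]; exact Submodule.neg_mem _ h0
    have h1 := hy' _ h0'
    rw [mul_sub, map_sub] at h1
    rw [sub_mul, map_sub]
    have e1 : LinearMap.trace K V (z * y * w) = LinearMap.trace K V (y * (w * z)) := by
      rw [mul_assoc, LinearMap.trace_mul_comm, mul_assoc]
    have e2 : LinearMap.trace K V (y * z * w) = LinearMap.trace K V (y * (z * w)) := by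
      rw [mul_assoc]
    rw [e1, e2]
    exact h1
  · intro y hy
    induction hy using Submodule.span_induction with
    | zero => simp
    | add a b _ _ ha hb => rw [mul_add, map_add, ha, hb, add_zero]
    | smul c a _ ha => rw [mul_smul_comm, map_smul, ha, smul_zero]
    | mem y hy => exact hcon y hy

/-- Every nonzero element of the span has rank at least `r`. -/
lemma Ctx.le_rk (hC : Ctx ω L S) (hr : MinOdd L r) {z : Module.End K V}
    (hz : z ∈ Submodule.span K (EE L r)) (hz0 : z ≠ 0) : r ≤ rk z := by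
  obtain ⟨y, hy, hzy⟩ := hC.exists_pair hz hz0
  obtain ⟨hyL, hyy, hyr⟩ := hy
  have h := hC.irr.extremal hC.nd hr.1 hr.2 hyL hyy hyr (span_le L r hz)
  have hr0 : (r : K) ≠ 0 := by rw [Nat.cast_ne_zero]; exact hr.1.pos.ne'
  have hc : LinearMap.trace K V (y * z) / (r : K) ≠ 0 := by
    rw [LinearMap.trace_mul_comm]
    exact div_ne_zero hzy hr0
  calc r = rk y := hyr.symm
    _ = rk (y * z * y) := by rw [h, rk_smul hc]
    _ ≤ rk z := (rk_mul_le_left _ _).trans (rk_mul_le_right _ _)

/-- The `+` component of an element of `EE L r` is zero or again in `EE L r`. -/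
lemma Ctx.comp_mem (hC : Ctx ω L S) (hr : MinOdd L r) (hs : s ∈ S) {x : Module.End K V}
    (hx : x ∈ EE L r) (h : pp s * x * qq s ≠ 0) : pp s * x * qq s ∈ EE L r := by
  obtain ⟨hsL, hss⟩ := hC.inv s hs
  have h1 := (comps_mem hss (M := Submodule.span K (EE L r))
    (fun x hx => hC.comm_mem_span hs hx) (Submodule.subset_span hx)).1
  refine ⟨span_le L r h1, ?_, ?_⟩
  · calc pp s * x * qq s * (pp s * x * qq s) = pp s * x * (qq s * pp s) * x * qq s := by
          noncomm_ring
      _ = 0 := by rw [qq_mul_pp hss]; simp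
  · apply le_antisymm
    · rw [← hx.2.2]
      exact (rk_mul_le_left _ _).trans (rk_mul_le_right _ _)
    · exact hC.le_rk hr h1 h

lemma Ctx.comp_mem' (hC : Ctx ω L S) (hr : MinOdd L r) (hs : s ∈ S) {x : Module.End K V}
    (hx : x ∈ EE L r) (h : qq s * x * pp s ≠ 0) : qq s * x * pp s ∈ EE L r := by
  obtain ⟨hsL, hss⟩ := hC.inv s hs
  have h1 := (comps_mem hss (M := Submodule.span K (EE L r))
    (fun x hx => hC.comm_mem_span hs hx) (Submodule.subset_span hx)).2.1
  refine ⟨span_le L r h1, ?_, ?_⟩
  · calc qq s * x * pp s * (qq s * x * pp s) = qq s * x * (pp s * qq s) * x * pp s := by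
          noncomm_ring
      _ = 0 := by rw [pp_mul_qq hss]; simp
  · apply le_antisymm
    · rw [← hx.2.2]
      exact (rk_mul_le_left _ _).trans (rk_mul_le_right _ _)
    · exact hC.le_rk hr h1 h

/-- No element of odd rank of `L` commutes with one of the involutions. -/
lemma Ctx.not_comm (hC : Ctx ω L S) (hs : s ∈ S) {x : Module.End K V}
    (hx : x ∈ L) (hodd : Odd (rk x)) (h1 : pp s * x * qq s = 0) (h2 : qq s * x * pp s = 0) :
    False := by
  obtain ⟨hsL, hss⟩ := hC.inv s hs
  have e : s * x - x * s = 2 • (pp s * x * qq s) - 2 • (qq s * x * pp s) := by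
    have e1 : s * x - x * s = (pp s - qq s) * x * (pp s + qq s)
        - (pp s + qq s) * x * (pp s - qq s) := by
      rw [pp_sub_qq, pp_add_qq]; simp
    rw [e1]; noncomm_ring
  rw [h1, h2, smul_zero, sub_zero, sub_eq_zero] at e
  have := even_rk_of_comm hC.nd hss (hC.irr.sk s hsL) (hC.irr.sk x hx) e
  exact (Nat.not_even_iff_odd.mpr hodd) this

end main

end MTP
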