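import Pool.Agent.Helper21.MT.Odd

/-!
An irreducible Lie algebra with an element of rank one is the symplectic Lie algebra.
-/

open Module

namespace MTP

variable {K : Type*} [Field K] {V : Type*} [AddCommGroup V] [Module K V] [FiniteDimensional K V]
variable {ω : LinearMap.BilinForm K V} {L : Submodule K (Module.End K V)}
  {S : Set (Module.End K V)} {r : ℕ}

/-- The operator `z ↦ ω(v,z) u + ω(u,z) v`. -/
noncomputable def BB (ω : LinearMap.BilinForm K V) (u v : V) : Module.End K V :=
  (ω v).smulRight u + (ω u).smulRight v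

/-- The operator `z ↦ ω(u,z) u`. -/
noncomputable def TT (ω : LinearMap.BilinForm K V) (u : V) : Module.End K V :=
  (ω u).smulRight u

omit [FiniteDimensional K V] in
lemma BB_apply (u v z : V) : BB ω u v z = ω v z • u + ω u z • v := rfl

omit [FiniteDimensional K V] in
lemma TT_apply (u z : V) : TT ω u z = ω u z • u := rfl

omit [FiniteDimensional K V] in
lemma BB_add_left (u u' v : V) : BB ω (u + u') v = BB ω u v + BB ω u' v := by
  ext z
  simp only [BB_apply, LinearMap.add_apply, map_add]
  module

omit [FiniteDimensional K V] in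
lemma BB_smul_left (c : K) (u v : V) : BB ω (c • u) v = c • BB ω u v := by
  ext z
  simp only [BB_apply, LinearMap.smul_apply, map_smul, smul_eq_mul]
  module

omit [FiniteDimensional K V] in
lemma BB_comm (u v : V) : BB ω u v = BB ω v u := by
  ext z
  simp only [BB_apply]
  module

omit [FiniteDimensional K V] in
lemma TT_add_smul (u v : V) (l : K) :
    TT ω (u + l • v) = TT ω u + l • BB ω u v + (l * l) • TT ω v := by
  ext z
  simp only [TT_apply, BB_apply, LinearMap.add_apply, LinearMap.smul_apply, map_add, map_smul,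
    smul_eq_mul]
  module

omit [FiniteDimensional K V] in
lemma TT_comm (halt : ω.IsAlt) (u v : V) :
    TT ω u * TT ω v - TT ω v * TT ω u = ω u v • BB ω u v := by
  ext z
  have h : ω v u = - ω u v := (halt.neg_eq u v).symm
  simp only [TT_apply, BB_apply, LinearMap.sub_apply, LinearMap.smul_apply, map_smul,
    Module.End.mul_apply, h]
  module

/-- An element of rank one is a multiple of some `TT u`. -/
lemma rank_one_form (hω : ω.Nondegenerate) (halt : ω.IsAlt) {z : Module.End K V}
    (hz : IsSk ω z) (h1 : rk z = 1) : ∃ u : V, u ≠ 0 ∧ ∃ c : K, c ≠ 0 ∧ TT ω u = c • z := by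
  obtain ⟨⟨u, w0, hw0⟩, hu0, hu⟩ := finrank_eq_one_iff'.mp h1
  have hu0' : u ≠ 0 := by
    intro h; apply hu0; exact Subtype.ext h
  obtain ⟨w, hw⟩ : ∃ w, ω u w ≠ 0 := by
    by_contra hcon
    push Not at hcon
    exact hu0' (hω.1 u hcon)
  have hform : ∀ x, ∃ c : K, z x = c • u := by
    intro x
    obtain ⟨c, hc⟩ := hu ⟨z x, ⟨x, rfl⟩⟩
    exact ⟨c, (congrArg Subtype.val hc).symm⟩
  obtain ⟨cw, hcw⟩ := hform w
  have key : ∀ x, (ω u w) • z x = (cw * ω u x) • u := by
    intro x
    obtain ⟨c, hc⟩ := hform x
    have h := hz x w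
    rw [hc, hcw, map_smul, LinearMap.smul_apply, map_smul, smul_eq_mul, smul_eq_mul,
      ← halt.neg_eq u x] at h
    rw [hc, smul_smul]
    congr 1
    linear_combination h
  have hcw0 : cw ≠ 0 := by
    intro h
    apply hu0'
    have := key w0
    rw [h, zero_mul, zero_smul, smul_eq_zero, hw0] at this
    exact this.resolve_left hw
  refine ⟨u, hu0', cw⁻¹ * ω u w, mul_ne_zero (inv_ne_zero hcw0) hw, ?_⟩
  ext x
  rw [LinearMap.smul_apply, mul_smul, key, TT_apply, smul_smul, ← mul_assoc,
    inv_mul_cancel₀ hcw0, one_mul]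

/-- Expansion of an infinitesimal symplectic operator. -/
lemma skew_expand (hω : ω.Nondegenerate) (halt : ω.IsAlt) {z : Module.End K V}
    (hz : IsSk ω z) :
    ∑ i, BB ω (z (Module.finBasis K V i)) (ω.dualBasis hω (Module.finBasis K V) i)
      = (2 : K) • z := by
  set b := Module.finBasis K V with hb
  ext w
  rw [LinearMap.sum_apply]
  simp only [BB_apply]
  rw [Finset.sum_add_distrib]
  have e1 : ∑ i, ω (ω.dualBasis hω b i) w • z (b i) = z w := by
    have h1 : ∀ i, ω (ω.dualBasis hω b i) w = b.repr w i := by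
      intro i
      conv_lhs => rw [← b.sum_repr w]
      rw [map_sum]
      simp only [map_smul, LinearMap.BilinForm.apply_dualBasis_left, smul_eq_mul]
      simp
    simp only [h1, ← map_smul]
    rw [← map_sum, b.sum_repr]
  have e2 : ∑ i, ω (z (b i)) w • ω.dualBasis hω b i = z w := by
    have h1 : ∀ i, ω (z (b i)) w = (ω.dualBasis hω b).repr (z w) i := by
      intro i
      rw [LinearMap.BilinForm.dualBasis_repr_apply, hz, halt.neg_eq]
    simp only [h1]
    rw [(ω.dualBasis hω b).sum_repr]
  rw [e1, e2, LinearMap.smul_apply, two_smul]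

/-- **An irreducible Lie algebra spanned by elements of rank one is the symplectic Lie
algebra.** -/
theorem eq_sp_of_rank_one [CharZero K] (hω : ω.Nondegenerate) (halt : ω.IsAlt)
    (hL : IrrSymp ω L) (hspan : L ≤ Submodule.span K (EE L 1)) (hne : (EE L 1).Nonempty)
    {z : Module.End K V} (hz : IsSk ω z) : z ∈ L := by
  -- the vectors whose transvection direction lies in `L`
  have hskT : ∀ u u' : V, ω u u' = - ω u' u := fun u u' => (halt.neg_eq u' u).symm
  have hX1 : ∀ u v : V, TT ω u ∈ L → TT ω v ∈ L → ω u v ≠ 0 → BB ω u v ∈ L := by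
    intro u v hu hv huv
    have h := hL.br _ hu _ hv
    rw [TT_comm halt] at h
    have h2 := L.smul_mem (ω u v)⁻¹ h
    rwa [smul_smul, inv_mul_cancel₀ huv, one_smul] at h2
  have hX2 : ∀ u v : V, TT ω u ∈ L → TT ω v ∈ L → ω u v ≠ 0 → ∀ l : K,
      TT ω (u + l • v) ∈ L := by
    intro u v hu hv huv l
    rw [TT_add_smul]
    exact L.add_mem (L.add_mem hu (L.smul_mem _ (hX1 u v hu hv huv))) (L.smul_mem _ hv)
  have hspan' : L ≤ Submodule.span K {x | ∃ u, TT ω u ∈ L ∧ x = TT ω u} := by
    refine hspan.trans (Submodule.span_le.mpr ?_)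
    intro x hx
    obtain ⟨u, hu, c, hc, huc⟩ := rank_one_form hω halt (hL.sk x hx.1) hx.2.2
    have : x = c⁻¹ • TT ω u := by rw [huc, smul_smul, inv_mul_cancel₀ hc, one_smul]
    rw [this]
    apply Submodule.smul_mem
    apply Submodule.subset_span
    exact ⟨u, by rw [huc]; exact L.smul_mem _ hx.1, rfl⟩
  obtain ⟨x, hx⟩ := hne
  obtain ⟨v0, hv0, c, hc, hvc⟩ := rank_one_form hω halt (hL.sk x hx.1) hx.2.2
  have hv0X : TT ω v0 ∈ L := by rw [hvc]; exact L.smul_mem _ hx.1
  -- the span of all such vectors
  have hall : Submodule.span K {v | TT ω v ∈ L} = ⊤ := by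
    rcases hL.irr (Submodule.span K {v | TT ω v ∈ L}) (by
      intro z hz w hw
      have hz' := hspan' hz
      clear hz
      induction hz' using Submodule.span_induction with
      | zero => simp
      | add a b _ _ ha hb => rw [LinearMap.add_apply]; exact Submodule.add_mem _ ha hb
      | smul c a _ ha => rw [LinearMap.smul_apply]; exact Submodule.smul_mem _ _ ha
      | mem y hy =>
        obtain ⟨u, hu, rfl⟩ := hy
        rw [TT_apply]
        exact Submodule.smul_mem _ _ (Submodule.subset_span hu)) with h | h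
    · exfalso
      have : v0 ∈ Submodule.span K {v | TT ω v ∈ L} := Submodule.subset_span hv0X
      rw [h, Submodule.mem_bot] at this
      exact hv0 this
    · exact h
  obtain ⟨v1, hv1X, hv1⟩ : ∃ v1, TT ω v1 ∈ L ∧ ω v1 v0 ≠ 0 := by
    by_contra hcon
    push Not at hcon
    apply hv0
    apply hω.2
    intro w
    have hw : w ∈ Submodule.span K {v | TT ω v ∈ L} := by rw [hall]; trivial
    induction hw using Submodule.span_induction with
    | zero => simp
    | add a b _ _ ha hb => rw [map_add, LinearMap.add_apply, ha, hb, add_zero]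
    | smul c a _ ha => rw [map_smul, LinearMap.smul_apply, ha, smul_zero]
    | mem y hy => exact hcon y hy
  -- the main subspace
  set M1 := Submodule.span K {v | TT ω v ∈ L ∧ ω v v0 ≠ 0} with hM1
  have hM1top : M1 = ⊤ := by
    have hstab : ∀ u, TT ω u ∈ L → ∀ w ∈ M1, TT ω u w ∈ M1 := by
      intro u hu w hw
      induction hw using Submodule.span_induction with
      | zero => simp
      | add a b _ _ ha hb => rw [map_add]; exact Submodule.add_mem _ ha hb
      | smul c a _ ha => rw [map_smul]; exact Submodule.smul_mem _ _ ha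
      | mem v hv =>
        obtain ⟨hvX, hvv⟩ := hv
        rw [TT_apply]
        by_cases huv : ω u v = 0
        · rw [huv, zero_smul]; exact M1.zero_mem
        apply M1.smul_mem
        by_cases huv0 : ω u v0 = 0
        · have h1 : v + (1 : K) • u ∈ M1 := by
            apply Submodule.subset_span
            refine ⟨hX2 v u hvX hu ?_ 1, ?_⟩
            · rw [hskT]; exact neg_ne_zero.mpr huv
            · rw [map_add, map_smul, LinearMap.add_apply, LinearMap.smul_apply, huv0, smul_zero,
                add_zero]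
              exact hvv
          have h2 : v ∈ M1 := Submodule.subset_span ⟨hvX, hvv⟩
          have h3 := M1.sub_mem h1 h2
          rwa [one_smul, add_sub_cancel_left] at h3
        · exact Submodule.subset_span ⟨hu, huv0⟩
    rcases hL.irr M1 (by
      intro z hz w hw
      have hz' := hspan' hz
      clear hz
      induction hz' using Submodule.span_induction with
      | zero => simp
      | add a b _ _ ha hb => rw [LinearMap.add_apply]; exact Submodule.add_mem _ ha hb
      | smul c a _ ha => rw [LinearMap.smul_apply]; exact Submodule.smul_mem _ _ ha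
      | mem y hy =>
        obtain ⟨u, hu, rfl⟩ := hy
        exact hstab u hu w hw) with h | h
    · exfalso
      have : v1 ∈ M1 := Submodule.subset_span ⟨hv1X, hv1⟩
      rw [h, Submodule.mem_bot] at this
      apply hv1
      rw [this]; simp
    · exact h
  -- all operators `BB u v` are in `L`
  have hB : ∀ v v', (TT ω v ∈ L ∧ ω v v0 ≠ 0) → (TT ω v' ∈ L ∧ ω v' v0 ≠ 0) →
      BB ω v v' ∈ L := by
    rintro v v' ⟨hv, hvv⟩ ⟨hv', hvv'⟩
    by_cases h : ω v v' = 0
    · have h1 : BB ω (v + (1 : K) • v0) v' ∈ L := by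
        apply hX1 _ _ (hX2 v v0 hv hv0X hvv 1) hv'
        rw [map_add, map_smul, LinearMap.add_apply, LinearMap.smul_apply, h, zero_add, one_smul,
          hskT]
        exact neg_ne_zero.mpr hvv'
      have h2 : BB ω v0 v' ∈ L := by
        apply hX1 _ _ hv0X hv'
        rw [hskT]; exact neg_ne_zero.mpr hvv'
      rw [BB_add_left, one_smul] at h1
      have h3 := L.sub_mem h1 h2
      rwa [add_sub_cancel_right] at h3
    · exact hX1 _ _ hv hv' h
  have hB2 : ∀ v, ∀ v', (TT ω v' ∈ L ∧ ω v' v0 ≠ 0) → BB ω v v' ∈ L := by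
    intro v v' hv'
    have hv : v ∈ M1 := by rw [hM1top]; trivial
    induction hv using Submodule.span_induction with
    | zero =>
      have : BB ω 0 v' = 0 := by ext w; simp [BB_apply]
      rw [this]; exact L.zero_mem
    | add a b _ _ ha hb => rw [BB_add_left]; exact L.add_mem ha hb
    | smul c a _ ha => rw [BB_smul_left]; exact L.smul_mem _ ha
    | mem y hy => exact hB y v' hy hv'
  have hB3 : ∀ v v', BB ω v v' ∈ L := by
    intro v v'
    have hv' : v' ∈ M1 := by rw [hM1top]; trivial
    induction hv' using Submodule.span_induction with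
    | zero =>
      have : BB ω v 0 = 0 := by ext w; simp [BB_apply]
      rw [this]; exact L.zero_mem
    | add a b _ _ ha hb => rw [BB_comm, BB_add_left, BB_comm a, BB_comm b]; exact L.add_mem ha hb
    | smul c a _ ha => rw [BB_comm, BB_smul_left, BB_comm a]; exact L.smul_mem _ ha
    | mem y hy => exact hB2 v y hy
  have h := skew_expand hω halt hz
  have h2 : (2 : K) • z ∈ L := by
    rw [← h]
    exact L.sum_mem fun i _ => hB3 _ _
  have h3 := L.smul_mem (2 : K)⁻¹ h2
  rwa [smul_smul, inv_mul_cancel₀ (two_ne), one_smul] at h3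

/-- **Main theorem, Lie algebra form.** An irreducible Lie algebra of infinitesimal symplectic
operators generated by involutions and containing a square zero element of odd rank is the
symplectic Lie algebra. -/
theorem Ctx.eq_sp_of_odd [IsAlgClosed K] [CharZero K] (hC : Ctx ω L S) (halt : ω.IsAlt)
    {x : Module.End K V} (hx : x ∈ L) (hxx : x * x = 0) (hodd : Odd (rk x))
    {z : Module.End K V} (hz : IsSk ω z) : z ∈ L := by
  classical
  have hex : ∃ r, Odd r ∧ ∃ x ∈ L, x * x = 0 ∧ rk x = r := ⟨rk x, hodd, x, hx, hxx, rfl⟩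
  obtain ⟨hr1, y, hy, hyy, hyr⟩ := Nat.find_spec hex
  have hmin : MinOdd L (Nat.find hex) :=
    ⟨hr1, fun w hw hww hwo => Nat.find_min' hex ⟨hwo, w, hw, hww, rfl⟩⟩
  have hne : (EE L (Nat.find hex)).Nonempty := ⟨y, hy, hyy, hyr⟩
  have h1 := hC.minOdd_eq_one hmin hne
  rw [h1] at hmin hne
  exact eq_sp_of_rank_one hC.nd halt hC.irr (hC.span_eq hmin hne).ge hne hz

end MTP
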