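import Mathlib

/-!
Zariski closed groups of units of a finite dimensional algebra and their Lie algebras.
-/

open Module

namespace MTP

section zar
variable {K : Type*} [Field K] {A : Type*} [Ring A] [Algebra K A] {σ : Type*} [Fintype σ]
variable (b : Basis σ K A)

/-- Evaluation of a polynomial in the coordinates at an element of the algebra. -/
noncomputable def ev (a : A) : MvPolynomial σ K →ₐ[K] K := MvPolynomial.aeval (b.repr a)

/-- Evaluation at `g + T y`. -/
noncomputable def evT (g y : A) : MvPolynomial σ K →ₐ[K] Polynomial K :=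
  MvPolynomial.aeval
    (fun s => Polynomial.C (b.repr g s) + Polynomial.C (b.repr y s) * Polynomial.X)

/-- The derivation of the coordinate ring attached to `x`. -/
noncomputable def der (x : A) : Derivation K (MvPolynomial σ K) (MvPolynomial σ K) :=
  MvPolynomial.mkDerivation K
    (fun s => ∑ s', MvPolynomial.C (b.repr (b s' * x) s) * MvPolynomial.X s')

omit [Fintype σ] in
lemma eval_evT (g y : A) (p : MvPolynomial σ K) (t : K) :
    (evT b g y p).eval t = ev b (g + t • y) p := by
  have : (Polynomial.aeval t).comp (evT b g y) = ev b (g + t • y) := by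
    apply MvPolynomial.algHom_ext
    intro s
    simp only [evT, ev, AlgHom.comp_apply, MvPolynomial.aeval_X, map_add, map_mul,
      Polynomial.aeval_C, Polynomial.aeval_X, map_smul, Finsupp.add_apply, Finsupp.smul_apply,
      smul_eq_mul, Algebra.algebraMap_self, RingHom.id_apply]
    ring
  have h := congrArg (fun f => f p) this
  simp only [AlgHom.comp_apply] at h
  rw [← h, Polynomial.coe_aeval_eq_eval]

lemma repr_mul (a x : A) (s : σ) :
    ∑ s', b.repr (b s' * x) s * b.repr a s' = b.repr (a * x) s := by
  conv_rhs => rw [← b.sum_repr a]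
  rw [Finset.sum_mul, map_sum, Finset.sum_apply']
  apply Finset.sum_congr rfl
  intro i _
  rw [smul_mul_assoc, map_smul, Finsupp.smul_apply, smul_eq_mul, mul_comm]

lemma der_X (x : A) (s : σ) : der b x (MvPolynomial.X s) =
    ∑ s', MvPolynomial.C (b.repr (b s' * x) s) * MvPolynomial.X s' :=
  MvPolynomial.mkDerivation_X _ _ _

lemma der_add (x y : A) : der b (x + y) = der b x + der b y := by
  apply MvPolynomial.derivation_ext
  intro s
  rw [Derivation.add_apply, der_X, der_X, der_X, ← Finset.sum_add_distrib]
  apply Finset.sum_congr rfl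
  intro i _
  rw [mul_add, map_add, Finsupp.add_apply, map_add, add_mul]

lemma der_smul (c : K) (x : A) : der b (c • x) = c • der b x := by
  apply MvPolynomial.derivation_ext
  intro s
  rw [Derivation.smul_apply, der_X, der_X, Finset.smul_sum]
  apply Finset.sum_congr rfl
  intro i _
  rw [mul_smul_comm, map_smul, Finsupp.smul_apply, smul_eq_mul, map_mul, mul_assoc,
    MvPolynomial.smul_eq_C_mul]

lemma der_comp (x y : A) (s : σ) : der b x (der b y (MvPolynomial.X s)) =
    ∑ s', MvPolynomial.C (b.repr (b s' * (x * y)) s) * MvPolynomial.X s' := by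
  rw [der_X, map_sum]
  have h1 : ∀ s', der b x (MvPolynomial.C (b.repr (b s' * y) s) * MvPolynomial.X s') =
      ∑ s'', MvPolynomial.C (b.repr (b s' * y) s * b.repr (b s'' * x) s') *
        MvPolynomial.X s'' := by
    intro s'
    rw [Derivation.leibniz, MvPolynomial.derivation_C, smul_zero, add_zero, der_X, smul_eq_mul,
      Finset.mul_sum]
    apply Finset.sum_congr rfl
    intro i _
    rw [map_mul MvPolynomial.C, mul_assoc]
  simp only [h1]
  rw [Finset.sum_comm]
  apply Finset.sum_congr rfl
  intro i _
  rw [← Finset.sum_mul, ← map_sum, repr_mul, mul_assoc]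

lemma der_comm (x y : A) : der b (x * y - y * x) = ⁅der b x, der b y⁆ := by
  apply MvPolynomial.derivation_ext
  intro s
  rw [Derivation.commutator_apply, der_comp, der_comp, der_X, ← Finset.sum_sub_distrib]
  apply Finset.sum_congr rfl
  intro i _
  rw [mul_sub, map_sub, Finsupp.sub_apply, map_sub, sub_mul]

lemma ev_der_X (a x : A) (s : σ) : ev b a (der b x (MvPolynomial.X s)) = b.repr (a * x) s := by
  rw [der_X, map_sum, ← repr_mul]
  apply Finset.sum_congr rfl
  intro i _
  rw [map_mul, ev, MvPolynomial.aeval_X, MvPolynomial.aeval_C]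
  rfl

/-- The derivative at `T = 0`. -/
lemma deriv_zero (g x : A) (p : MvPolynomial σ K) :
    (Polynomial.derivative (evT b g (g * x) p)).eval 0 = ev b g (der b x p) := by
  have h0 : ∀ p, (evT b g (g * x) p).eval 0 = ev b g p := by
    intro p; rw [eval_evT, zero_smul, add_zero]
  induction p using MvPolynomial.induction_on with
  | C c =>
    rw [MvPolynomial.derivation_C, map_zero]
    simp [evT]
  | add p q hp hq =>
    rw [map_add, map_add, Polynomial.eval_add, hp, hq, map_add, map_add]
  | mul_X p s hp =>
    rw [map_mul, Polynomial.derivative_mul, Polynomial.eval_add, Polynomial.eval_mul,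
      Polynomial.eval_mul, hp, h0, h0, Derivation.leibniz, map_add, smul_eq_mul, smul_eq_mul,
      map_mul, map_mul, ev_der_X]
    have : (Polynomial.derivative (evT b g (g * x) (MvPolynomial.X s))).eval 0 =
        b.repr (g * x) s := by
      simp [evT]
    rw [this]
    ring

/-- The derivative when `x² = 0`. -/
lemma deriv_sq {x : A} (hx : x * x = 0) (g : A) (p : MvPolynomial σ K) :
    Polynomial.derivative (evT b g (g * x) p) = evT b g (g * x) (der b x p) := by
  induction p using MvPolynomial.induction_on with
  | C c =>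
    rw [MvPolynomial.derivation_C, map_zero]
    simp [evT]
  | add p q hp hq =>
    rw [map_add, map_add, hp, hq, map_add, map_add]
  | mul_X p s hp =>
    rw [map_mul, Polynomial.derivative_mul, hp, Derivation.leibniz, map_add, smul_eq_mul,
      smul_eq_mul, map_mul, map_mul]
    have : Polynomial.derivative (evT b g (g * x) (MvPolynomial.X s)) =
        evT b g (g * x) (der b x (MvPolynomial.X s)) := by
      rw [der_X, map_sum]
      simp only [evT, map_mul, MvPolynomial.aeval_X, MvPolynomial.aeval_C, mul_add, ← mul_assoc,
        Finset.sum_add_distrib]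
      rw [← Finset.sum_mul]
      simp only [Polynomial.algebraMap_eq, ← map_mul, ← map_sum]
      rw [repr_mul, repr_mul, mul_assoc, hx, mul_zero, map_zero, Finsupp.zero_apply, map_zero,
        zero_mul, add_zero]
      simp
    rw [this]
    ring

/-- The Lie algebra of a set of elements of `A`: all `x` such that the derivation attached to `x`
preserves the vanishing ideal. -/
def lieOf (G : Set A) : Set A :=
  {x | ∀ p : MvPolynomial σ K, (∀ g ∈ G, ev b g p = 0) → ∀ g ∈ G, ev b g (der b x p) = 0}

variable {b} {G : Set A}

lemma lieOf_add {x y : A} (hx : x ∈ lieOf b G) (hy : y ∈ lieOf b G) : x + y ∈ lieOf b G := by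
  intro p hp g hg
  rw [der_add, Derivation.add_apply, map_add, hx p hp g hg, hy p hp g hg, add_zero]

lemma lieOf_smul {x : A} (c : K) (hx : x ∈ lieOf b G) : c • x ∈ lieOf b G := by
  intro p hp g hg
  rw [der_smul, Derivation.smul_apply, map_smul, hx p hp g hg, smul_zero]

lemma lieOf_zero : (0 : A) ∈ lieOf b G := by
  intro p hp g hg
  have : der b (0 : A) = 0 := by
    have := der_smul b (0 : K) (0 : A)
    rwa [zero_smul, zero_smul] at this
  rw [this]
  simp

lemma lieOf_comm {x y : A} (hx : x ∈ lieOf b G) (hy : y ∈ lieOf b G) :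
    x * y - y * x ∈ lieOf b G := by
  intro p hp g hg
  rw [der_comm, Derivation.commutator_apply, map_sub, hx _ (hy p hp) g hg,
    hy _ (hx p hp) g hg, sub_zero]

/-- A cocharacter of `G` with weights `0` and `1` gives an element of the Lie algebra. -/
lemma lieOf_cochar [CharZero K] (hmul : ∀ g ∈ G, ∀ h ∈ G, g * h ∈ G) {π : A}
    (hπ : ∀ t : K, t ≠ 0 → 1 + (t - 1) • π ∈ G) : π ∈ lieOf b G := by
  intro p hp g hg
  rw [← deriv_zero]
  have : evT b g (g * π) p = 0 := by
    by_contra hne
    have hfin := Polynomial.finite_setOfPred_isRoot hne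
    have hsub : {t : K | t ≠ -1} ⊆ {t | (evT b g (g * π) p).IsRoot t} := by
      intro t ht
      have h1 := hπ (t + 1) (by
        intro h; exact ht (by rw [eq_neg_iff_add_eq_zero]; exact h))
      rw [add_sub_cancel_right] at h1
      rw [Set.mem_ofPred_eq, Polynomial.IsRoot.def, eval_evT]
      have h2 := hp _ (hmul g hg _ h1)
      rwa [mul_add, mul_one, mul_smul_comm] at h2
    have hinf : {t : K | t ≠ -1}.Infinite := by
      have : ({-1} : Set K)ᶜ.Infinite := (Set.finite_singleton (-1 : K)).infinite_compl
      exact this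
    exact hinf (hfin.subset hsub)
  rw [this]
  simp

/-- Square zero elements of the Lie algebra exponentiate into closed groups. -/
lemma lieOf_exp [CharZero K] (h1 : (1 : A) ∈ G) {x : A} (hx : x ∈ lieOf b G) (hxx : x * x = 0)
    (c : K) {p : MvPolynomial σ K} (hp : ∀ g ∈ G, ev b g p = 0) : ev b (1 + c • x) p = 0 := by
  have hder : ∀ n : ℕ, (∀ g ∈ G, ev b g ((der b x)^[n] p) = 0) := by
    intro n
    induction n with
    | zero => exact hp
    | succ n ih =>
      rw [Function.iterate_succ_apply']
      exact hx _ ih
  have hT : ∀ n : ℕ, Polynomial.derivative^[n] (evT b 1 (1 * x) p) =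
      evT b 1 (1 * x) ((der b x)^[n] p) := by
    intro n
    induction n with
    | zero => rfl
    | succ n ih =>
      rw [Function.iterate_succ_apply', Function.iterate_succ_apply', ih, deriv_sq b hxx]
  have hz : evT b 1 (1 * x) p = 0 := by
    ext n
    have h2 : Polynomial.eval 0 (Polynomial.derivative^[n] (evT b 1 (1 * x) p)) =
        Polynomial.eval 0 (evT b 1 (1 * x) ((der b x)^[n] p)) := by rw [hT n]
    rw [eval_evT, zero_smul, add_zero, hder n 1 h1] at h2
    have h3 := Polynomial.coeff_iterate_derivative (R := K) (k := n) (p := evT b 1 (1 * x) p) 0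
    rw [Polynomial.coeff_zero_eq_eval_zero, h2, zero_add, Nat.descFactorial_self] at h3
    rw [Polynomial.coeff_zero]
    have h4 : ((n.factorial : ℕ) : K) ≠ 0 := by
      rw [Nat.cast_ne_zero]; exact n.factorial_ne_zero
    rw [nsmul_eq_mul] at h3
    exact (mul_eq_zero.mp h3.symm).resolve_left h4
  have := eval_evT b 1 (1 * x) p c
  rw [hz, one_mul] at this
  rw [← this]
  simp

end zar

end MTP
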