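import Mathlib

/-!
Symplectic Mumford-Tate pairs of weights zero and one, in matrix form.
-/

open Module

namespace MTPairs

variable {K : Type*} [Field K] {m : Type*} [Fintype m] [DecidableEq m]

/-- A subgroup of the general linear group is Zariski closed when it is cut out, inside the
general linear group, by a set of polynomials in the matrix entries. -/
def ZariskiClosed (G : Subgroup (Matrix.GeneralLinearGroup m K)) : Prop :=
  ∃ P : Set (MvPolynomial (m × m) K), ∀ g : Matrix.GeneralLinearGroup m K,
    g ∈ G ↔ ∀ p ∈ P, MvPolynomial.eval (fun ij => (g : Matrix m m K) ij.1 ij.2) p = 0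

/-- The idempotent matrix `π` defines a cocharacter `t ↦ t π + (1 - π)` of `G`, that is, a
cocharacter of `G` all of whose weights are `0` or `1`. -/
def IsCochar (G : Subgroup (Matrix.GeneralLinearGroup m K)) (π : Matrix m m K) : Prop :=
  π * π = π ∧ ∀ t : K, t ≠ 0 → ∃ g ∈ G, (g : Matrix m m K) = t • π + (1 - π)

/-- `G` is a Zariski closed group of similitudes of the symplectic form with Gram matrix `J`,
and it is generated, as a Zariski closed group, by its cocharacters with weights `0` and `1`. -/
structure IsMTPair (J : Matrix m m K) (G : Subgroup (Matrix.GeneralLinearGroup m K)) :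
    Prop where
  skew : J.transpose = -J
  det : J.det ≠ 0
  sim : ∀ g ∈ G, ∃ c : K, (g : Matrix m m K).transpose * J * (g : Matrix m m K) = c • J
  closed : ZariskiClosed G
  gen : ∀ H : Subgroup (Matrix.GeneralLinearGroup m K), ZariskiClosed H →
    (∀ π, IsCochar G π → IsCochar H π) → G ≤ H

/-- The standard representation is the orthogonal direct sum of the subspaces `W j`, which are
stable, irreducible, and pairwise non isomorphic (there is no nonzero intertwining map between
two of them). -/
structure IsSplit (J : Matrix m m K) (G : Subgroup (Matrix.GeneralLinearGroup m K))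
    {ι : Type*} [DecidableEq ι] (W : ι → Submodule K (m → K)) : Prop where
  internal : DirectSum.IsInternal W
  orth : ∀ i j, i ≠ j → ∀ v ∈ W i, ∀ w ∈ W j, v ⬝ᵥ J.mulVec w = 0
  stable : ∀ g ∈ G, ∀ j, ∀ v ∈ W j, (g : Matrix m m K).mulVec v ∈ W j
  irr : ∀ j, ∀ U ≤ W j, (∀ g ∈ G, ∀ v ∈ U, (g : Matrix m m K).mulVec v ∈ U) →
    U = ⊥ ∨ U = W j
  ne : ∀ i j, i ≠ j → ∀ T : (m → K) →ₗ[K] (m → K), (∀ v ∈ W i, T v ∈ W j) →
    (∀ g ∈ G, ∀ v ∈ W i, T ((g : Matrix m m K).mulVec v) = (g : Matrix m m K).mulVec (T v)) →
    ∀ v ∈ W i, T v = 0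

/-- The element `u` acts on the subspace `U` as a unipotent operator `1 + N` with `N² = 0` and
`N` of rank `r`. -/
def IsQuadraticOn (u : Matrix.GeneralLinearGroup m K) (U : Submodule K (m → K)) (r : ℕ) :
    Prop :=
  (∀ v ∈ U, ((u : Matrix m m K) - 1).mulVec (((u : Matrix m m K) - 1).mulVec v) = 0) ∧
    finrank K (U.map ((u : Matrix m m K) - 1).mulVecLin) = r

/-- `G` is as large as the decomposition allows: it contains every similitude preserving all
the subspaces `W j`. -/
def IsFull (J : Matrix m m K) (G : Subgroup (Matrix.GeneralLinearGroup m K)) {ι : Type*}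
    (W : ι → Submodule K (m → K)) : Prop :=
  ∀ g : Matrix.GeneralLinearGroup m K,
    (∃ c : K, (g : Matrix m m K).transpose * J * (g : Matrix m m K) = c • J) →
    (∀ j, ∀ v ∈ W j, (g : Matrix m m K).mulVec v ∈ W j) → g ∈ G

end MTPairs
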