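import Pool.Agent.Helper21.MT.Grp2
import Pool.Agent.Helper21.MT.Defs

/-!
From matrices to the abstract form.
-/

open Module

namespace MTP

section general
variable {K : Type*} [Field K] {A : Type*} [Ring A] [Algebra K A] {σ : Type*} [Fintype σ]
variable (b : Basis σ K A)

/-- Polynomials can be pulled back along linear maps. -/
lemma exists_pullback {n : Type*} (f : A →ₗ[K] (n → K)) (p : MvPolynomial n K) :
    ∃ p' : MvPolynomial σ K, ∀ a, ev b a p' = MvPolynomial.eval (f a) p := by
  refine ⟨MvPolynomial.aeval (fun s => ∑ i, MvPolynomial.C (f (b i) s) * MvPolynomial.X i) p,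
    fun a => ?_⟩
  have : (ev b a).comp (MvPolynomial.aeval
      (fun s => ∑ i, MvPolynomial.C (f (b i) s) * MvPolynomial.X i)) =
      MvPolynomial.aeval (f a) := by
    apply MvPolynomial.algHom_ext
    intro s
    rw [AlgHom.comp_apply, MvPolynomial.aeval_X, MvPolynomial.aeval_X, map_sum]
    conv_rhs => rw [← b.sum_repr a]
    rw [map_sum, Finset.sum_apply]
    apply Finset.sum_congr rfl
    intro i _
    rw [map_mul, map_smul, Pi.smul_apply, smul_eq_mul, mul_comm (b.repr a i)]
    simp [ev]
  have h := congrArg (fun φ => φ p) this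
  rw [AlgHom.comp_apply] at h
  rw [h, MvPolynomial.aeval_eq_eval]

/-- Inverses of elements of a subalgebra of a finite dimensional algebra lie in the
subalgebra. -/
lemma inv_mem_subalgebra [FiniteDimensional K A] (M : Subalgebra K A) {a a' : A}
    (ha : a ∈ M) (h : a' * a = 1) : a' ∈ M := by
  let f : M.toSubmodule →ₗ[K] M.toSubmodule :=
    { toFun := fun x => ⟨a * x, M.mul_mem ha x.2⟩
      map_add' := by intro x y; ext; simp [mul_add]
      map_smul' := by intro c x; ext; simp }
  have hinj : Function.Injective f := by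
    rw [injective_iff_map_eq_zero]
    intro x hx
    have h1 : a * (x : A) = 0 := congrArg Subtype.val hx
    apply Subtype.ext
    calc (x : A) = (a' * a) * x := by rw [h, one_mul]
      _ = 0 := by rw [mul_assoc, h1, mul_zero]
  have hsurj := LinearMap.surjective_of_injective hinj
  obtain ⟨x, hx⟩ := hsurj ⟨1, M.one_mem⟩
  have h1 : a * (x : A) = 1 := congrArg Subtype.val hx
  have h2 : a' = x := by
    calc a' = a' * (a * x) := by rw [h1, mul_one]
      _ = (a' * a) * x := by rw [mul_assoc]
      _ = x := by rw [h, one_mul]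
  rw [h2]; exact x.2

end general

section mat
variable {K : Type*} [Field K] {m : Type*} [Fintype m] [DecidableEq m]

/-- Linear conditions on the matrix are Zariski closed. -/
lemma closed_of_linear (G H : Subgroup (Matrix.GeneralLinearGroup m K))
    (hG : MTPairs.ZariskiClosed G) (N : Submodule K (Matrix m m K))
    (hH : ∀ g, g ∈ H ↔ g ∈ G ∧ (g : Matrix m m K) ∈ N) : MTPairs.ZariskiClosed H := by
  obtain ⟨P, hP⟩ := hG
  refine ⟨P ∪ {p | ∃ φ ∈ N.dualAnnihilator, p = ∑ ij : m × m,
    MvPolynomial.C (φ (Matrix.single ij.1 ij.2 1)) * MvPolynomial.X ij}, fun g => ?_⟩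
  have key : ∀ φ : Module.Dual K (Matrix m m K), MvPolynomial.eval
      (fun ij => (g : Matrix m m K) ij.1 ij.2) (∑ ij : m × m,
      MvPolynomial.C (φ (Matrix.single ij.1 ij.2 1)) * MvPolynomial.X ij) = φ g := by
    intro φ
    rw [map_sum]
    conv_rhs => rw [Matrix.matrix_eq_sum_single (g : Matrix m m K)]
    rw [map_sum, Fintype.sum_prod_type]
    apply Finset.sum_congr rfl
    intro i _
    rw [map_sum]
    apply Finset.sum_congr rfl
    intro j _
    have : Matrix.single i j ((g : Matrix m m K) i j) =
      ((g : Matrix m m K) i j) • Matrix.single i j (1 : K) := by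
      rw [Matrix.smul_single, smul_eq_mul, mul_one]
    rw [this, map_smul, smul_eq_mul]
    simp [mul_comm]
  rw [hH, hP]
  constructor
  · rintro ⟨h1, h2⟩ p (hp | ⟨φ, hφ, rfl⟩)
    · exact h1 p hp
    · rw [key]
      exact (Submodule.mem_dualAnnihilator φ).mp hφ _ h2
  · intro h
    refine ⟨fun p hp => h p (Or.inl hp), ?_⟩
    rw [← Subspace.forall_mem_dualAnnihilator_apply_eq_zero_iff]
    intro φ hφ
    rw [← key]
    exact h _ (Or.inr ⟨φ, hφ, rfl⟩)

end mat

end MTP
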