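import Pool.Agent.Helper21.MT.Sp
import Pool.Agent.Helper98.MT.RankTwo

/-!
Elements normalising an irreducible Lie algebra; quadratic unipotent elements.
-/

open Module

namespace MTP

section gen
variable {K : Type*} [Field K] {A : Type*} [Ring A] [Algebra K A] {B : Type*} [Ring B]
  [Algebra K B]

/-- The Lie subalgebra generated by `S`. -/
def lieGen (K : Type*) [Field K] {A : Type*} [Ring A] [Algebra K A] (S : Set A) :
    Submodule K A :=
  sInf {M | (∀ x ∈ M, ∀ y ∈ M, x * y - y * x ∈ M) ∧ S ⊆ M}

lemma subset_lieGen (S : Set A) : S ⊆ lieGen K S := by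
  intro s hs
  rw [lieGen, SetLike.mem_coe, Submodule.mem_sInf]
  intro M hM
  exact hM.2 hs

lemma lieGen_le {S : Set A} {M : Submodule K A} (h1 : ∀ x ∈ M, ∀ y ∈ M, x * y - y * x ∈ M)
    (h2 : S ⊆ M) : lieGen K S ≤ M := sInf_le ⟨h1, h2⟩

lemma lieGen_comm {S : Set A} {x y : A} (hx : x ∈ lieGen K S) (hy : y ∈ lieGen K S) :
    x * y - y * x ∈ lieGen K S := by
  rw [lieGen, Submodule.mem_sInf] at *
  intro M hM
  exact hM.1 _ (hx M hM) _ (hy M hM)

lemma lieGen_map (φ : A →ₐ[K] B) (S : Set A) :
    (lieGen K S).map φ.toLinearMap = lieGen K (φ '' S) := by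
  apply le_antisymm
  · rw [Submodule.map_le_iff_le_comap]
    apply lieGen_le
    · intro x hx y hy
      rw [Submodule.mem_comap] at *
      have := lieGen_comm hx hy
      simpa using this
    · intro s hs
      exact subset_lieGen _ ⟨s, hs, rfl⟩
  · apply lieGen_le
    · rintro _ ⟨x, hx, rfl⟩ _ ⟨y, hy, rfl⟩
      exact ⟨x * y - y * x, lieGen_comm hx hy, by simp⟩
    · rintro _ ⟨s, hs, rfl⟩
      exact ⟨s, subset_lieGen _ hs, rfl⟩

end gen

variable {K : Type*} [Field K] {V : Type*} [AddCommGroup V] [Module K V] [FiniteDimensional K V]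
variable {ω : LinearMap.BilinForm K V} {L : Submodule K (Module.End K V)}
  {S : Set (Module.End K V)}

/-- An infinitesimal symplectic operator normalising `L` lies in `L`. -/
lemma IrrSymp.mem_of_normalize [IsAlgClosed K] [CharZero K] (hL : IrrSymp ω L)
    (hω : ω.Nondegenerate) {N : Module.End K V} (hN : IsSk ω N)
    (hnorm : ∀ z ∈ L, N * z - z * N ∈ L) : N ∈ L := by
  rcases subsingleton_or_nontrivial V with hV | hV
  · have : N = 0 := by ext v; exact Subsingleton.elim _ _
    rw [this]; exact L.zero_mem
  let Φ : L →ₗ[K] Module.Dual K L :=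
    { toFun := fun a =>
        { toFun := fun b => LinearMap.trace K V ((a : Module.End K V) * (b : Module.End K V))
          map_add' := by intro b c; simp [mul_add]
          map_smul' := by intro c b; simp }
      map_add' := by intro a b; ext c; simp [add_mul]
      map_smul' := by intro c a; ext b; simp }
  have hinj : Function.Injective Φ := by
    rw [injective_iff_map_eq_zero]
    intro a ha
    apply Subtype.ext
    apply hL.nondeg hω a.2
    intro y hy
    exact congrArg (fun φ => φ ⟨y, hy⟩) ha
  have hfin : finrank K L = finrank K (Module.Dual K L) := Subspace.dual_finrank_eq.symm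
  have hsurj : Function.Surjective Φ :=
    (LinearMap.injective_iff_surjective_of_finrank_eq_finrank hfin).mp hinj
  let ψ : Module.Dual K L :=
    { toFun := fun b => LinearMap.trace K V (N * (b : Module.End K V))
      map_add' := by intro b c; simp [mul_add]
      map_smul' := by intro c b; simp }
  obtain ⟨n0, hn0⟩ := hsurj ψ
  set d := N - (n0 : Module.End K V) with hd
  have key : ∀ b ∈ L, LinearMap.trace K V (d * b) = 0 := by
    intro b hb
    have := congrArg (fun φ => φ ⟨b, hb⟩) hn0
    change LinearMap.trace K V ((n0 : Module.End K V) * b) = LinearMap.trace K V (N * b) at this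
    rw [hd, sub_mul, map_sub, this, sub_self]
  have hcomm : ∀ z ∈ L, d * z = z * d := by
    intro z hz
    have hc : d * z - z * d ∈ L := by
      have : d * z - z * d = (N * z - z * N) - ((n0 : Module.End K V) * z - z * n0) := by
        rw [hd]; noncomm_ring
      rw [this]
      exact L.sub_mem (hnorm z hz) (hL.br _ n0.2 _ hz)
    rw [← sub_eq_zero]
    apply hL.nondeg hω hc
    intro y hy
    have h1 := key _ (hL.br z hz y hy)
    have e1 : LinearMap.trace K V (z * d * y) = LinearMap.trace K V (d * (y * z)) := by
      rw [mul_assoc, LinearMap.trace_mul_comm, mul_assoc]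
    rw [sub_mul, map_sub, e1, ← map_sub]
    rw [mul_sub, ← mul_assoc] at h1
    exact h1
  obtain ⟨c, hc⟩ := Module.End.exists_eigenvalue d
  have htop : Module.End.eigenspace d c = ⊤ := by
    rcases hL.irr (Module.End.eigenspace d c) (by
      intro z hz w hw
      rw [Module.End.mem_eigenspace_iff] at hw ⊢
      have := LinearMap.congr_fun (hcomm z hz) w
      simp only [Module.End.mul_apply] at this
      rw [this, hw, map_smul]) with h | h
    · exact absurd h hc
    · exact h
  have hdc : ∀ v, d v = c • v := by
    intro v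
    have : v ∈ Module.End.eigenspace d c := by rw [htop]; trivial
    rwa [Module.End.mem_eigenspace_iff] at this
  have hdsk : IsSk ω d := by
    intro v w
    have h1 := hN v w
    have h2 := hL.sk _ n0.2 v w
    rw [hd, LinearMap.sub_apply, LinearMap.sub_apply, map_sub, LinearMap.sub_apply, map_sub,
      h1, h2]
    ring
  have hc0 : c = 0 := by
    obtain ⟨v, hv⟩ := exists_ne (0 : V)
    obtain ⟨w, hw⟩ : ∃ w, ω v w ≠ 0 := by
      by_contra hcon
      push Not at hcon
      exact hv (hω.1 v hcon)
    have := hdsk v w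
    rw [hdc, hdc, map_smul, LinearMap.smul_apply, map_smul, smul_eq_mul] at this
    have h2 : 2 * (c * ω v w) = 0 := by linear_combination this
    have h3 := (mul_eq_zero.mp h2).resolve_left two_ne_zero
    exact (mul_eq_zero.mp h3).resolve_right hw
  have hd0 : d = 0 := by
    ext v; rw [hdc, hc0, zero_smul]; rfl
  have : N = n0 := by rw [hd, sub_eq_zero] at hd0; exact hd0
  rw [this]; exact n0.2

omit [FiniteDimensional K V] in
/-- A quadratic unipotent symplectic similitude `1 + N` has `N` infinitesimally symplectic. -/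
lemma quad_skew [CharZero K] {N : Module.End K V} (hNN : N * N = 0) {c c' : K}
    (h1 : ∀ v w, ω ((1 + N) v) ((1 + N) w) = c * ω v w)
    (h2 : ∀ v w, ω ((1 - N) v) ((1 - N) w) = c' * ω v w) (hc : c * c' = 1)
    (hnd : ω.Nondegenerate) : IsSk ω N := by
  have hN2 : ∀ v, N (N v) = 0 := fun v => LinearMap.congr_fun hNN v
  have hsum : ∀ v w, 2 * ω (N v) (N w) = (c + c' - 2) * ω v w := by
    intro v w
    have e1 := h1 v w
    have e2 := h2 v w
    simp only [LinearMap.add_apply, LinearMap.sub_apply, Module.End.one_apply, map_add,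
      map_sub] at e1 e2
    linear_combination e1 + e2
  by_cases hN0 : N = 0
  · intro v w; rw [hN0]; simp
  obtain ⟨v, hv⟩ : ∃ v, N v ≠ 0 := by
    by_contra hcon
    push Not at hcon
    exact hN0 (LinearMap.ext hcon)
  obtain ⟨w, hw⟩ : ∃ w, ω (N v) w ≠ 0 := by
    by_contra hcon
    push Not at hcon
    exact hv (hnd.1 _ hcon)
  have hcc : c + c' - 2 = 0 := by
    have := hsum (N v) w
    rw [hN2, map_zero, LinearMap.zero_apply, mul_zero] at this
    exact (mul_eq_zero.mp this.symm).resolve_right hw
  have hc1 : c = 1 := by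
    have h3 : (c - 1) * (c - 1) = 0 := by linear_combination c * hcc - hc
    have := mul_self_eq_zero.mp h3
    linear_combination this
  intro x y
  have e1 := h1 x y
  have e3 := hsum x y
  rw [hcc, zero_mul] at e3
  have e4 := (mul_eq_zero.mp e3).resolve_left two_ne_zero
  simp only [LinearMap.add_apply, Module.End.one_apply, map_add, e4, hc1] at e1
  linear_combination e1

/-- Both cases together: an element of odd rank or rank two gives the whole symplectic Lie
algebra. -/
theorem Ctx.eq_sp [IsAlgClosed K] [CharZero K] (hC : Ctx ω L S) (halt : ω.IsAlt)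
    {x : Module.End K V} (hx : x ∈ L) (hxx : x * x = 0) (hodd : Odd (rk x) ∨ rk x = 2)
    {z : Module.End K V} (hz : IsSk ω z) : z ∈ L := by
  rcases hodd with h | h
  · exact hC.eq_sp_of_odd halt hx hxx h hz
  · obtain ⟨y, hy, hyy, hyr⟩ := hC.exists_rank_one_of_two halt hx hxx h
    exact hC.eq_sp_of_odd halt hy hyy (by rw [hyr]; exact odd_one) hz

end MTP
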