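import Mathlib

/-!
Ranks of endomorphisms of a finite dimensional symplectic space.
-/

open Module

namespace MTP

variable {K : Type*} [Field K] {V : Type*} [AddCommGroup V] [Module K V] [FiniteDimensional K V]

/-- The rank of an endomorphism. -/
noncomputable def rk (a : Module.End K V) : ℕ := finrank K (LinearMap.range a)

lemma rk_mul_le_left (a b : Module.End K V) : rk (a * b) ≤ rk a := by
  apply Submodule.finrank_mono
  rintro _ ⟨v, rfl⟩
  exact ⟨b v, rfl⟩

lemma rk_mul_le_right (a b : Module.End K V) : rk (a * b) ≤ rk b := by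
  have h : LinearMap.range (a * b) = (LinearMap.range b).map a := by
    rw [← LinearMap.range_comp]; rfl
  unfold rk
  rw [h]
  exact Submodule.finrank_map_le _ _

lemma rk_eq_zero {a : Module.End K V} : rk a = 0 ↔ a = 0 := by
  unfold rk
  rw [Submodule.finrank_eq_zero, LinearMap.range_eq_bot]

lemma rk_pos {a : Module.End K V} : 0 < rk a ↔ a ≠ 0 := by
  rw [Nat.pos_iff_ne_zero, Ne, rk_eq_zero]

lemma rk_smul {c : K} (hc : c ≠ 0) (a : Module.End K V) : rk (c • a) = rk a := by
  unfold rk
  rw [LinearMap.range_smul a c hc]

lemma rk_neg (a : Module.End K V) : rk (-a) = rk a := by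
  have : -a = (-1 : K) • a := by simp
  rw [this, rk_smul (by simp)]

lemma rk_conj {g h : Module.End K V} (h1 : h * g = 1) (h2 : g * h = 1) (a : Module.End K V) :
    rk (g * a * h) = rk a := by
  apply le_antisymm
  · exact (rk_mul_le_left _ _).trans (rk_mul_le_right _ _)
  · have : a = h * (g * a * h) * g := by
      calc a = (h * g) * a * (h * g) := by rw [h1]; simp
        _ = _ := by noncomm_ring
    calc rk a = rk (h * (g * a * h) * g) := by rw [← this]
      _ ≤ rk (g * a * h) := (rk_mul_le_left _ _).trans (rk_mul_le_right _ _)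

/-- Ranks add for operators with independent rows and columns. -/
lemma rk_add {a b p q : Module.End K V} (h1 : p * a = a) (h2 : p * b = 0) (h3 : a * q = a)
    (h4 : b * q = 0) : rk (a + b) = rk a + rk b := by
  have e : LinearMap.range (a + b) = LinearMap.range a ⊔ LinearMap.range b := by
    apply le_antisymm
    · rintro _ ⟨v, rfl⟩
      exact Submodule.add_mem_sup ⟨v, rfl⟩ ⟨v, rfl⟩
    · rw [sup_le_iff]
      have ha : ∀ v, (a + b) (q v) = a v := by
        intro v
        have e1 : a (q v) = a v := by rw [← Module.End.mul_apply, h3]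
        have e2 : b (q v) = 0 := by rw [← Module.End.mul_apply, h4]; rfl
        simp [e1, e2]
      constructor
      · rintro _ ⟨v, rfl⟩
        exact ⟨q v, ha v⟩
      · rintro _ ⟨v, rfl⟩
        refine ⟨v - q v, ?_⟩
        rw [map_sub, ha]
        simp
  have d : Disjoint (LinearMap.range a) (LinearMap.range b) := by
    rw [Submodule.disjoint_def]
    rintro _ ⟨v, rfl⟩ ⟨w, hw⟩
    have e1 : p (a v) = a v := by rw [← Module.End.mul_apply, h1]
    have e2 : p (b w) = 0 := by rw [← Module.End.mul_apply, h2]; rfl
    rw [← e1, ← hw, e2]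
  unfold rk
  rw [e]
  have := Submodule.finrank_sup_add_finrank_inf_eq (LinearMap.range a) (LinearMap.range b)
  rw [d.eq_bot, finrank_bot] at this
  omega

/-- Rank estimate for a block triangular operator. -/
lemma rk_triang {y p q : Module.End K V} (h : p * y * q = 0) : rk (y * q) + rk (p * y) ≤ rk y := by
  have h1 : LinearMap.range (y * q) ≤ LinearMap.range y := by
    rintro _ ⟨v, rfl⟩
    exact ⟨q v, rfl⟩
  have h2 : LinearMap.range (p * y) = (LinearMap.range y).map p := by
    rw [← LinearMap.range_comp]; rfl
  have h3 := LinearMap.finrank_range_add_finrank_ker (p.domRestrict (LinearMap.range y))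
  have h4 : LinearMap.range (p.domRestrict (LinearMap.range y)) = LinearMap.range (p * y) := by
    rw [h2, LinearMap.range_domRestrict]
  have h5 : finrank K (LinearMap.range (y * q)) ≤
      finrank K (LinearMap.ker (p.domRestrict (LinearMap.range y))) := by
    have : (LinearMap.ker (p.domRestrict (LinearMap.range y))).map (LinearMap.range y).subtype
        ≥ LinearMap.range (y * q) := by
      rintro _ ⟨v, rfl⟩
      refine ⟨⟨y (q v), ⟨q v, rfl⟩⟩, ?_, rfl⟩
      change p (y (q v)) = 0
      have := congrArg (fun z : Module.End K V => z v) h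
      simpa [Module.End.mul_apply] using this
    calc _ ≤ finrank K ((LinearMap.ker (p.domRestrict (LinearMap.range y))).map
              (LinearMap.range y).subtype) := Submodule.finrank_mono this
      _ = _ := LinearEquiv.finrank_eq
          (Submodule.equivMapOfInjective _ (Submodule.subtype_injective _) _).symm
  rw [h4] at h3
  unfold rk
  omega

variable {ω : LinearMap.BilinForm K V}

/-- Adjoint operators have the same rank. -/
lemma rk_adjoint (hω : ω.Nondegenerate) {a b : Module.End K V}
    (h : ∀ v w, ω (a v) w = ω v (b w)) : rk a = rk b := by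
  have hk : LinearMap.ker b = ω.orthogonal (LinearMap.range a) := by
    ext w
    rw [LinearMap.mem_ker, LinearMap.BilinForm.mem_orthogonal_iff]
    constructor
    · rintro hw _ ⟨v, rfl⟩
      change ω (a v) w = 0
      rw [h, hw, map_zero]
    · intro hw
      apply hω.2
      intro v
      rw [← h]
      exact hw (a v) ⟨v, rfl⟩
  have h1 := LinearMap.finrank_range_add_finrank_ker b
  have h2 := LinearMap.BilinForm.finrank_orthogonal hω (LinearMap.range a)
  rw [hk, h2] at h1
  have h3 : finrank K (LinearMap.range a) ≤ finrank K V := Submodule.finrank_le _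
  unfold rk
  omega

/-- `z` is infinitesimally symplectic. -/
def IsSk (ω : LinearMap.BilinForm K V) (z : Module.End K V) : Prop :=
  ∀ v w, ω (z v) w = - ω v (z w)


end MTP
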