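import Pool.Agent.Helper21.MT.Sharp

/-!
The example: an irreducible pair with a quadratic unipotent of rank `2 b` which is not full.
-/

open Module
open scoped Kronecker

namespace MTPairs

variable {K : Type*} [Field K] {b : ℕ}

/-- The quadratic element. -/
lemma exists_quad [CharZero K] : ∃ u ∈ GenG (Gens K b), IsQuadraticOn u ⊤ (2 * b) := by
  have hP1 : (!![1, 0; 0, 0] : Matrix (Fin 2) (Fin 2) K) ⊗ₖ
      (1 : Matrix (Fin 2 × Fin b) (Fin 2 × Fin b) K) ∈ Gens K b := Or.inl ⟨_, P1_mem, rfl⟩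
  have hP2 : (!![1, 1; 0, 0] : Matrix (Fin 2) (Fin 2) K) ⊗ₖ
      (1 : Matrix (Fin 2 × Fin b) (Fin 2 × Fin b) K) ∈ Gens K b := Or.inl ⟨_, P2_mem, rfl⟩
  obtain ⟨g1, hg1, hg1'⟩ := (GenG_cochar (Gens_idem _ hP2) hP2).2 2 two_ne_zero
  obtain ⟨g2, hg2, hg2'⟩ := (GenG_cochar (Gens_idem _ hP1) hP1).2 2⁻¹ (inv_ne_zero two_ne_zero)
  have hu : ((g1 * g2 : Matrix.GeneralLinearGroup (Fin 2 × (Fin 2 × Fin b)) K) :
      Matrix _ _ K) - 1 = (Matrix.single 0 1 1 : Matrix (Fin 2) (Fin 2) K) ⊗ₖ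
      (1 : Matrix (Fin 2 × Fin b) (Fin 2 × Fin b) K) := by
    have e1 : (2 : K) • ((!![1, 1; 0, 0] : Matrix (Fin 2) (Fin 2) K) ⊗ₖ
        (1 : Matrix (Fin 2 × Fin b) (Fin 2 × Fin b) K)) +
        (1 - (!![1, 1; 0, 0] : Matrix (Fin 2) (Fin 2) K) ⊗ₖ
        (1 : Matrix (Fin 2 × Fin b) (Fin 2 × Fin b) K)) =
        ((2 : K) • (!![1, 1; 0, 0] : Matrix (Fin 2) (Fin 2) K) +
        (1 - !![1, 1; 0, 0])) ⊗ₖ (1 : Matrix (Fin 2 × Fin b) (Fin 2 × Fin b) K) := by
      rw [Matrix.add_kronecker, Matrix.smul_kronecker, sub_kron, Matrix.one_kronecker_one]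
    have e2 : (2⁻¹ : K) • ((!![1, 0; 0, 0] : Matrix (Fin 2) (Fin 2) K) ⊗ₖ
        (1 : Matrix (Fin 2 × Fin b) (Fin 2 × Fin b) K)) +
        (1 - (!![1, 0; 0, 0] : Matrix (Fin 2) (Fin 2) K) ⊗ₖ
        (1 : Matrix (Fin 2 × Fin b) (Fin 2 × Fin b) K)) =
        ((2⁻¹ : K) • (!![1, 0; 0, 0] : Matrix (Fin 2) (Fin 2) K) +
        (1 - !![1, 0; 0, 0])) ⊗ₖ (1 : Matrix (Fin 2 × Fin b) (Fin 2 × Fin b) K) := by
      rw [Matrix.add_kronecker, Matrix.smul_kronecker, sub_kron, Matrix.one_kronecker_one]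
    rw [Units.val_mul, hg1', hg2', e1, e2, ← Matrix.mul_kronecker_mul, one_mul]
    have e3 : ((2 : K) • (!![1, 1; 0, 0] : Matrix (Fin 2) (Fin 2) K) + (1 - !![1, 1; 0, 0])) *
        ((2⁻¹ : K) • (!![1, 0; 0, 0] : Matrix (Fin 2) (Fin 2) K) + (1 - !![1, 0; 0, 0])) =
        Matrix.single 0 1 1 + 1 := by
      ext i j
      fin_cases i <;> fin_cases j <;>
        simp [Matrix.mul_apply, Fin.sum_univ_two]
      all_goals norm_num
    rw [e3, Matrix.add_kronecker, Matrix.one_kronecker_one]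
    abel
  refine ⟨g1 * g2, (GenG (Gens K b)).mul_mem hg1 hg2, ?_, ?_⟩
  · intro v _
    rw [hu, Matrix.mulVec_mulVec, ← Matrix.mul_kronecker_mul,
      Matrix.single_mul_single_of_ne _ _ _ _ (by decide)]
    simp
  · rw [hu]
    let f : (Fin 2 × Fin b → K) →ₗ[K] (Fin 2 × (Fin 2 × Fin b) → K) :=
      { toFun := fun w x => if x.1 = 0 then w x.2 else 0
        map_add' := by
          intro w w'; ext x; by_cases hx : x.1 = 0 <;> simp [hx]
        map_smul' := by
          intro c w; ext x; by_cases hx : x.1 = 0 <;> simp [hx] }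
    have hf : Function.Injective f := by
      intro w w' h
      ext x
      have := congrFun h (0, x)
      simpa [f] using this
    have hmul : ∀ v : Fin 2 × (Fin 2 × Fin b) → K,
        ((Matrix.single 0 1 1 : Matrix (Fin 2) (Fin 2) K) ⊗ₖ
        (1 : Matrix (Fin 2 × Fin b) (Fin 2 × Fin b) K)).mulVec v = f (fun x => v (1, x)) := by
      intro v
      ext ⟨i, x⟩
      rw [Matrix.mulVec, dotProduct, Fintype.sum_prod_type]
      simp only [Matrix.kroneckerMap_apply, Matrix.one_apply, mul_ite, mul_one, mul_zero,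
        ite_mul, zero_mul, Finset.sum_ite_eq, Finset.mem_univ, if_true]
      rw [Fin.sum_univ_two]
      fin_cases i <;> simp [f]
    have he : (⊤ : Submodule K (Fin 2 × (Fin 2 × Fin b) → K)).map
        ((Matrix.single 0 1 1 : Matrix (Fin 2) (Fin 2) K) ⊗ₖ
        (1 : Matrix (Fin 2 × Fin b) (Fin 2 × Fin b) K)).mulVecLin = LinearMap.range f := by
      apply le_antisymm
      · rintro _ ⟨v, -, rfl⟩
        rw [Matrix.mulVecLin_apply, hmul]
        exact ⟨_, rfl⟩
      · rintro _ ⟨w, rfl⟩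
        refine ⟨fun x => w x.2, trivial, ?_⟩
        rw [Matrix.mulVecLin_apply, hmul]
    rw [he, LinearMap.finrank_range_of_inj hf, Module.finrank_fintype_fun_eq_card]
    simp

/-- For every even rank at least four there is an irreducible pair with a quadratic unipotent
of this rank which is not full. -/
theorem exists_counterexample (K : Type*) [Field K] [CharZero K] {b : ℕ} (hb : 2 ≤ b) :
    ∃ G : Subgroup (Matrix.GeneralLinearGroup (Fin 2 × (Fin 2 × Fin b)) K),
      IsMTPair (Jm K b) G ∧ IsSplit (Jm K b) G (fun _ : Unit => ⊤) ∧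
      (∃ u ∈ G, IsQuadraticOn u ⊤ (2 * b)) ∧ ¬ IsFull (Jm K b) G (fun _ : Unit => ⊤) := by
  refine ⟨GenG (Gens K b), isMTPair_gen Jm_transpose Jm_det Gens_idem Gens_lag, ?_,
    exists_quad, ?_⟩
  · refine ⟨?_, ?_, fun _ _ _ _ _ => trivial, ?_, ?_⟩
    · rw [DirectSum.isInternal_submodule_iff_iSupIndep_and_iSup_eq_top]
      refine ⟨?_, by simp⟩
      intro i
      simp
    · intro i j hij
      exact absurd (Subsingleton.elim i j) hij
    · intro _ U _ hU
      apply Gens_irr hb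
      intro π hπ v hv
      obtain ⟨g, hg, hgt⟩ := (GenG_cochar (Gens_idem π hπ) hπ).2 2 two_ne_zero
      have h1 := hU g hg v hv
      have h2 : (g : Matrix _ _ K).mulVec v = π.mulVec v + v := by
        rw [hgt]
        have : (2 : K) • π + (1 - π) = π + 1 := by rw [two_smul]; abel
        rw [this, Matrix.add_mulVec, Matrix.one_mulVec]
      rw [h2] at h1
      have := U.sub_mem h1 hv
      rwa [add_sub_cancel_right] at this
    · intro i j hij
      exact absurd (Subsingleton.elim i j) hij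
  · intro hfull
    obtain ⟨g, hg, hgd⟩ := exists_not_dec (K := K) (b := b) (by omega)
    apply hgd
    have h1 := hfull g ⟨1, hg⟩ (fun _ _ _ => trivial)
    exact GenG_le (Dec_closed (by omega)) Gens_dec h1

end MTPairs
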