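import Pool.Agent.Helper21.MT.Gour3
import Pool.Agent.Helper21.MT.Trans2
import Pool.Agent.Helper21.MT.Sharp2

/-!
The criterion and its converse.
-/

open Module

namespace MTPairs

/-- The criterion: quadratic unipotents of odd rank or rank two on every summand force the pair
to be full. -/
theorem isFull_of_quadratic {K : Type*} [Field K] [IsAlgClosed K] [CharZero K] {m ι : Type*}
    [Fintype m] [DecidableEq m] [Fintype ι] [DecidableEq ι] {J : Matrix m m K}
    {G : Subgroup (Matrix.GeneralLinearGroup m K)} {W : ι → Submodule K (m → K)}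
    (hG : IsMTPair J G) (hW : IsSplit J G W)
    (hq : ∀ j, ∃ u ∈ G, ∃ r, IsQuadraticOn u (W j) r ∧ (Odd r ∨ r = 2)) : IsFull J G W := by
  have hnt : ∀ j, Nontrivial (W j) := by
    intro j
    rw [Submodule.nontrivial_iff_ne_bot]
    intro hj
    obtain ⟨u, hu, r, ⟨-, h2⟩, h3⟩ := hq j
    rw [hj, Submodule.map_bot, finrank_bot] at h2
    rw [← h2] at h3
    rcases h3 with h3 | h3
    · exact Nat.not_odd_zero h3
    · omega
  exact MTP.isFull_of_lie hG hW hq (fun L h1 h2 h3 h4 =>
    MTP.goursat hnt (MTP.form J W) (MTP.form_nd hG.skew hG.det hW.internal hW.orth)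
      (MTP.form_alt hG.skew) L h1 h2 h3 h4)

end MTPairs
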