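import Pool.Agent.Helper21.MT.Extremal

/-!
The span of the square zero elements of least odd rank.
-/

open Module

namespace MTP

variable {K : Type*} [Field K] {V : Type*} [AddCommGroup V] [Module K V] [FiniteDimensional K V]
variable {ω : LinearMap.BilinForm K V} {L : Submodule K (Module.End K V)}

/-- The projection to the `+1` eigenspace of an involution. -/
noncomputable def pp (s : Module.End K V) : Module.End K V := (2 : K)⁻¹ • (1 + s)

/-- The projection to the `-1` eigenspace of an involution. -/
noncomputable def qq (s : Module.End K V) : Module.End K V := (2 : K)⁻¹ • (1 - s)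

section proj
variable [CharZero K] {s : Module.End K V}

lemma two_ne : (2 : K) ≠ 0 := two_ne_zero

omit [FiniteDimensional K V] in
lemma pp_add_qq : pp s + qq s = 1 := by
  unfold pp qq
  have h : (2 : K) ≠ 0 := two_ne_zero
  match_scalars <;> field_simp <;> norm_num

omit [FiniteDimensional K V] in
lemma pp_sub_qq : pp s - qq s = s := by
  unfold pp qq
  have h : (2 : K) ≠ 0 := two_ne_zero
  match_scalars <;> field_simp <;> norm_num

omit [FiniteDimensional K V] in
lemma pp_mul_pp (hs : s * s = 1) : pp s * pp s = pp s := by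
  unfold pp
  simp only [smul_mul_assoc, mul_smul_comm, mul_add, add_mul, mul_one, one_mul, hs]
  have h : (2 : K) ≠ 0 := two_ne_zero
  match_scalars <;> field_simp <;> norm_num

omit [FiniteDimensional K V] in
lemma qq_mul_qq (hs : s * s = 1) : qq s * qq s = qq s := by
  unfold qq
  simp only [smul_mul_assoc, mul_smul_comm, mul_sub, sub_mul, mul_one, one_mul, hs]
  have h : (2 : K) ≠ 0 := two_ne_zero
  match_scalars <;> field_simp <;> norm_num

omit [FiniteDimensional K V] in
lemma pp_mul_qq (hs : s * s = 1) : pp s * qq s = 0 := by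
  unfold pp qq
  simp only [smul_mul_assoc, mul_smul_comm, mul_sub, add_mul, mul_one, one_mul, hs]
  have h : (2 : K) ≠ 0 := two_ne_zero
  match_scalars <;> field_simp <;> norm_num

omit [FiniteDimensional K V] in
lemma qq_mul_pp (hs : s * s = 1) : qq s * pp s = 0 := by
  unfold pp qq
  simp only [smul_mul_assoc, mul_smul_comm, mul_add, sub_mul, mul_one, one_mul, hs]
  have h : (2 : K) ≠ 0 := two_ne_zero
  match_scalars <;> field_simp <;> norm_num

omit [FiniteDimensional K V] in
lemma pp_neg : pp (-s) = qq s := by unfold pp qq; rw [sub_eq_add_neg]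

omit [FiniteDimensional K V] in
lemma qq_neg : qq (-s) = pp s := by unfold pp qq; rw [sub_neg_eq_add]

/-- The components of `x` with respect to an involution lie in every submodule stable under the
commutator with the involution. -/
lemma comps_mem (hs : s * s = 1) {M : Submodule K (Module.End K V)}
    (hM : ∀ x ∈ M, s * x - x * s ∈ M) {x : Module.End K V} (hx : x ∈ M) :
    pp s * x * qq s ∈ M ∧ qq s * x * pp s ∈ M ∧ pp s * x * pp s + qq s * x * qq s ∈ M := by
  have h1 := hM x hx
  have h2 := hM _ h1
  have e0 : s * (s * x - x * s) - (s * x - x * s) * s = (2 : K) • x - (2 : K) • (s * x * s) := by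
    have : s * (s * x - x * s) - (s * x - x * s) * s = (s * s) * x + x * (s * s)
      - 2 • (s * x * s) := by noncomm_ring
    rw [this, hs, one_mul, mul_one]
    module
  rw [e0] at h2
  have ep : pp s * x * qq s = (4 : K)⁻¹ • (s * x - x * s)
      + (8 : K)⁻¹ • ((2 : K) • x - (2 : K) • (s * x * s)) := by
    unfold pp qq
    simp only [smul_mul_assoc, mul_smul_comm, mul_sub, add_mul, mul_one, one_mul]
    match_scalars <;> norm_num
  have eq : qq s * x * pp s = -((4 : K)⁻¹ • (s * x - x * s))
      + (8 : K)⁻¹ • ((2 : K) • x - (2 : K) • (s * x * s)) := by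
    unfold pp qq
    simp only [smul_mul_assoc, mul_smul_comm, mul_add, sub_mul, mul_one, one_mul]
    match_scalars <;> norm_num
  have hp : pp s * x * qq s ∈ M := by
    rw [ep]; exact M.add_mem (M.smul_mem _ h1) (M.smul_mem _ h2)
  have hq : qq s * x * pp s ∈ M := by
    rw [eq]; exact M.add_mem (M.neg_mem (M.smul_mem _ h1)) (M.smul_mem _ h2)
  refine ⟨hp, hq, ?_⟩
  have e : pp s * x * pp s + qq s * x * qq s = x - (pp s * x * qq s) - (qq s * x * pp s) := by
    have : x = (pp s + qq s) * x * (pp s + qq s) := by rw [pp_add_qq]; simp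
    calc pp s * x * pp s + qq s * x * qq s
        = (pp s + qq s) * x * (pp s + qq s) - (pp s * x * qq s) - (qq s * x * pp s) := by
          noncomm_ring
      _ = _ := by rw [← this]
  rw [e]
  exact M.sub_mem (M.sub_mem hx hp) hq

lemma adj_pp (hs : IsSk ω s) (v w : V) : ω (pp s v) w = ω v (qq s w) := by
  unfold pp qq
  simp only [LinearMap.smul_apply, LinearMap.add_apply, LinearMap.sub_apply, Module.End.one_apply,
    map_smul, map_add, map_sub, hs v w]
  ring

lemma adj_qq (hs : IsSk ω s) (v w : V) : ω (qq s v) w = ω v (pp s w) := by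
  unfold pp qq
  simp only [LinearMap.smul_apply, LinearMap.add_apply, LinearMap.sub_apply, Module.End.one_apply,
    map_smul, map_add, map_sub, hs v w]
  ring

/-- **Parity.** An infinitesimal symplectic operator commuting with an involution has even
rank. -/
lemma even_rk_of_comm (hω : ω.Nondegenerate) (hs : s * s = 1) (hsk : IsSk ω s)
    {z : Module.End K V} (hz : IsSk ω z) (hc : s * z = z * s) : Even (rk z) := by
  have hcp : pp s * z = z * pp s := by
    unfold pp; rw [smul_mul_assoc, mul_smul_comm, add_mul, mul_add, hc, one_mul, mul_one]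
  have hcq : qq s * z = z * qq s := by
    unfold qq; rw [smul_mul_assoc, mul_smul_comm, sub_mul, mul_sub, hc, one_mul, mul_one]
  have e : z = z * pp s + z * qq s := by rw [← mul_add, pp_add_qq, mul_one]
  have h1 : rk (z * pp s + z * qq s) = rk (z * pp s) + rk (z * qq s) := by
    apply rk_add (p := pp s) (q := pp s)
    · rw [← mul_assoc, hcp, mul_assoc, pp_mul_pp hs]
    · rw [← mul_assoc, hcp, mul_assoc, pp_mul_qq hs, mul_zero]
    · rw [mul_assoc, pp_mul_pp hs]
    · rw [mul_assoc, qq_mul_pp hs, mul_zero]
  have h2 : rk (z * pp s) = rk (-(z * qq s)) := by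
    apply rk_adjoint hω
    intro v w
    rw [← hcq]
    simp only [Module.End.mul_apply, LinearMap.neg_apply, map_neg]
    rw [hz, adj_pp hsk]
  rw [rk_neg] at h2
  rw [e, h1, h2]
  exact ⟨_, rfl⟩

end proj

lemma IsSk.conj {g g' x : Module.End K V} {m : K} (hx : IsSk ω x)
    (hg : ∀ v w, ω (g v) (g w) = m * ω v w) (h1 : g * g' = 1) (hm : m ≠ 0) :
    IsSk ω (g * x * g') := by
  have h : ∀ v w, ω (g' v) w = m⁻¹ * ω v (g w) := by
    intro v w
    have e1 : g (g' v) = v := by rw [← Module.End.mul_apply, h1]; rfl
    have := hg (g' v) w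
    rw [e1] at this
    rw [this]; field_simp
  have h' : ∀ v w, ω v (g' w) = m⁻¹ * ω (g v) w := by
    intro v w
    have e1 : g (g' w) = w := by rw [← Module.End.mul_apply, h1]; rfl
    have := hg v (g' w)
    rw [e1] at this
    rw [this]; field_simp
  intro v w
  simp only [Module.End.mul_apply]
  have e1 : g (g' w) = w := by rw [← Module.End.mul_apply, h1]; rfl
  have e2 : g (g' v) = v := by rw [← Module.End.mul_apply, h1]; rfl
  conv_lhs => rw [← e1]
  conv_rhs => rw [← e2]
  rw [hg, hg, hx]
  ring

end MTP
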