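import Pool.Agent.Helper21.MT.Pair

/-!
Diagonal blocks of square zero elements of least odd rank.
-/

open Module

namespace MTP

variable {K : Type*} [Field K] {V : Type*} [AddCommGroup V] [Module K V] [FiniteDimensional K V]
variable {ω : LinearMap.BilinForm K V} {L : Submodule K (Module.End K V)}
  {r : ℕ} {e f p q : Module.End K V}

lemma rk_add_le (a b : Module.End K V) : rk (a + b) ≤ rk a + rk b := by
  have h : LinearMap.range (a + b) ≤ LinearMap.range a ⊔ LinearMap.range b := by
    rintro _ ⟨v, rfl⟩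
    exact Submodule.add_mem_sup ⟨v, rfl⟩ ⟨v, rfl⟩
  exact (Submodule.finrank_mono h).trans (Submodule.finrank_add_le_finrank_add_finrank _ _)

omit [FiniteDimensional K V] in
lemma adj_ef (he : IsSk ω e) (hf : IsSk ω f) (v w : V) : ω ((e * f) v) w = ω v ((f * e) w) := by
  simp only [Module.End.mul_apply]
  rw [he, hf, neg_neg]

omit [FiniteDimensional K V] in
lemma adj_i0 (he : IsSk ω e) (hf : IsSk ω f) (v w : V) :
    ω ((1 - e * f - f * e) v) w = ω v ((1 - e * f - f * e) w) := by
  have h1 := adj_ef he hf v w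
  have h2 := adj_ef hf he v w
  simp only [LinearMap.sub_apply, map_sub, Module.End.one_apply] at *
  rw [h1, h2]
  ring

/-- The data used in the weight argument, symmetric in `(e,p)` and `(f,q)`. -/
structure Amb (ω : LinearMap.BilinForm K V) (L : Submodule K (Module.End K V)) (r : ℕ)
    (e f p q : Module.End K V) : Prop where
  nd : ω.Nondegenerate
  hyp : Hyp e f p q
  sk : ∀ z ∈ L, IsSk ω z
  br : ∀ x ∈ L, ∀ y ∈ L, x * y - y * x ∈ L
  he : e ∈ L
  hf : f ∈ L
  odd : Odd r
  le : ∀ z ∈ L, z ≠ 0 → r ≤ rk z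
  cp : ∀ z ∈ L, p * z * q ∈ L
  cq : ∀ z ∈ L, q * z * p ∈ L
  nc : ∀ z ∈ L, Odd (rk z) → p * z * q = 0 → q * z * p = 0 → False

namespace Amb
variable (A : Amb ω L r e f p q)
include A

lemma swap : Amb ω L r f e q p :=
  ⟨A.nd, A.hyp.swap, A.sk, A.br, A.hf, A.he, A.odd, A.le, A.cq, A.cp,
    fun z hz h h1 h2 => A.nc z hz h h2 h1⟩

lemma hD : ∀ z ∈ L, DD e f z ∈ L := by
  intro z hz
  exact A.br _ (A.br e A.he f A.hf) z hz

lemma low {x : Module.End K V} (h : e * x * e = 0) : (f * e) * x * (e * f) = 0 := by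
  calc (f * e) * x * (e * f) = f * (e * x * e) * f := by noncomm_ring
    _ = 0 := by rw [h]; simp

lemma offdiag_zero [CharZero K] {x : Module.End K V} (hx : x ∈ L) (hr : rk x = r)
    (h : e * x * e = 0) :
    (1 - e * f - f * e) * x * (e * f) = 0 ∧ (f * e) * x * (1 - e * f - f * e) = 0 := by
  have H := A.hyp
  have hmem := H.neg_mem A.hD hx (A.low h)
  have hadj : rk ((1 - e * f - f * e) * x * (e * f)) =
      rk (-((f * e) * x * (1 - e * f - f * e))) := by
    apply rk_adjoint A.nd
    intro v w
    have e1 : ((1 - e * f - f * e) * x * (e * f)) v = (1 - e * f - f * e) (x ((e * f) v)) := rfl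
    have e2 : (-((f * e) * x * (1 - e * f - f * e))) w =
      -((f * e) (x ((1 - e * f - f * e) w))) := rfl
    rw [e1, e2, adj_i0 (A.sk e A.he) (A.sk f A.hf), A.sk x hx, adj_ef (A.sk e A.he) (A.sk f A.hf),
      map_neg]
  rw [rk_neg] at hadj
  have ht := rk_triang (y := x) (p := f * e) (q := e * f) (A.low h)
  have hcc := H.i0
  have h01 := H.i01
  have h02 := H.i02
  have h10 := H.i10
  have h11 := H.i1
  have h12 := H.i12
  generalize hc : (1 - e * f - f * e) = c at *
  generalize hE1 : e * f = E1 at *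
  generalize hE2 : f * e = E2 at *
  have ca : c * (c * x * E1) = c * x * E1 := by
    calc c * (c * x * E1) = (c * c) * x * E1 := by noncomm_ring
      _ = _ := by rw [hcc]
  have cb : c * (E2 * x * c) = 0 := by
    calc c * (E2 * x * c) = (c * E2) * x * c := by noncomm_ring
      _ = _ := by rw [h02]; simp
  have ae : (c * x * E1) * E1 = c * x * E1 := by
    calc (c * x * E1) * E1 = c * x * (E1 * E1) := by noncomm_ring
      _ = _ := by rw [h11]
  have be : (E2 * x * c) * E1 = 0 := by
    calc (E2 * x * c) * E1 = E2 * x * (c * E1) := by noncomm_ring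
      _ = _ := by rw [h01]; simp
  have hrk : rk ((c * x * E1) + (E2 * x * c)) = rk (c * x * E1) + rk (E2 * x * c) :=
    rk_add ca cb ae be
  have h1 : rk (c * x * E1) ≤ rk (x * E1) := by rw [mul_assoc]; exact rk_mul_le_right _ _
  have h2 : rk (E2 * x * c) ≤ rk (E2 * x) := rk_mul_le_left _ _
  have hz : (c * x * E1) + (E2 * x * c) = 0 := by
    by_contra hne
    have h3 := A.le _ hmem hne
    have h4 : r = rk (c * x * E1) + rk (c * x * E1) := by omega
    exact (Nat.not_even_iff_odd.mpr A.odd) ⟨_, h4⟩
  have ha0 : c * x * E1 = 0 := by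
    calc c * x * E1 = c * ((c * x * E1) + (E2 * x * c)) * E1 := by
          rw [mul_add, ca, cb, add_zero, ae]
      _ = 0 := by rw [hz]; simp
  refine ⟨ha0, ?_⟩
  rw [ha0, zero_add] at hz
  exact hz

/-- The key vanishing result. -/
lemma diag_zero [CharZero K] {x : Module.End K V} (hx : x ∈ L) (hr : rk x = r)
    (h : e * x * e = 0) :
    (e * f) * x * (e * f) = 0 ∧ (f * e) * x * (f * e) = 0 := by
  have H := A.hyp
  obtain ⟨h1, h2⟩ := A.offdiag_zero hx hr h
  have hlow := A.low h
  have hmem := H.zero_mem A.hD hx hlow h1 h2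
  have hc1 : (1 - e * f) = (1 - e * f - f * e) + f * e := by abel
  have hcc := H.i0
  have h01 := H.i01
  have h02 := H.i02
  have h10 := H.i10
  have h20 := H.i20
  have h11 := H.i1
  have h12 := H.i12
  have h21 := H.i21
  have h22 := H.i2
  have hE1q : (e * f) * q = 0 := by rw [mul_assoc, H.fq, mul_zero]
  have hE2p : (f * e) * p = 0 := by rw [mul_assoc, H.ep, mul_zero]
  have hpE2 : p * (f * e) = 0 := by rw [← mul_assoc, H.pf, zero_mul]
  have hqE1 : q * (e * f) = 0 := by rw [← mul_assoc, H.qe, zero_mul]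
  generalize hc : (1 - e * f - f * e) = c at *
  generalize hE1 : e * f = E1 at *
  generalize hE2 : f * e = E2 at *
  clear hc
  -- rank estimate
  have t1 : (1 - E1) * x * E1 = 0 := by
    rw [hc1, add_mul, add_mul, h1, hlow, add_zero]
  have r1 := rk_triang (y := x) (p := 1 - E1) (q := E1) t1
  have fe1 : E2 * (1 - E1) = E2 := by rw [mul_sub, h21, mul_one, sub_zero]
  have c1 : c * (1 - E1) = c := by rw [hc1, mul_add, hcc, h02, add_zero]
  have t2 : E2 * ((1 - E1) * x) * c = 0 := by
    rw [← mul_assoc, fe1, h2]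
  have r2 := rk_triang (y := (1 - E1) * x) (p := E2) (q := c) t2
  have k1 : rk (E1 * x * E1) ≤ rk (x * E1) := by rw [mul_assoc]; exact rk_mul_le_right _ _
  have k2 : rk (c * x * c) ≤ rk ((1 - E1) * x * c) := by
    have : c * x * c = c * ((1 - E1) * x * c) := by
      calc c * x * c = (c * (1 - E1)) * x * c := by rw [c1]
        _ = _ := by noncomm_ring
    rw [this]; exact rk_mul_le_right _ _
  have k3 : rk (E2 * x * E2) ≤ rk (E2 * ((1 - E1) * x)) := by
    have : E2 * x * E2 = (E2 * ((1 - E1) * x)) * E2 := by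
      calc E2 * x * E2 = (E2 * (1 - E1)) * x * E2 := by rw [fe1]
        _ = _ := by noncomm_ring
    rw [this]; exact rk_mul_le_left _ _
  have hsum : rk (E1 * x * E1) + rk (c * x * c) + rk (E2 * x * E2) ≤ r := by omega
  -- it suffices that the middle block has rank at least `r`
  have done : r ≤ rk (c * x * c) → E1 * x * E1 = 0 ∧ E2 * x * E2 = 0 := by
    intro hb
    constructor
    · rw [← rk_eq_zero]; omega
    · rw [← rk_eq_zero]; omega
  have e1 : p * (E1 * x * E1 + c * x * c + E2 * x * E2) * q = p * (c * x * c) * q := by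
    calc p * (E1 * x * E1 + c * x * c + E2 * x * E2) * q =
        p * E1 * x * (E1 * q) + p * (c * x * c) * q + (p * E2) * x * E2 * q := by noncomm_ring
      _ = _ := by rw [hE1q, hpE2]; simp
  have e2 : q * (E1 * x * E1 + c * x * c + E2 * x * E2) * p = q * (c * x * c) * p := by
    calc q * (E1 * x * E1 + c * x * c + E2 * x * E2) * p =
        (q * E1) * x * E1 * p + q * (c * x * c) * p + q * E2 * x * (E2 * p) := by noncomm_ring
      _ = _ := by rw [hqE1, hE2p]; simp
  by_cases hp : p * (E1 * x * E1 + c * x * c + E2 * x * E2) * q = 0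
  · by_cases hq : q * (E1 * x * E1 + c * x * c + E2 * x * E2) * p = 0
    · by_cases hz : E1 * x * E1 + c * x * c + E2 * x * E2 = 0
      · have x1 : E1 * (E1 * x * E1 + c * x * c + E2 * x * E2) * E1 = E1 * x * E1 := by
          calc E1 * (E1 * x * E1 + c * x * c + E2 * x * E2) * E1 =
              (E1 * E1) * x * (E1 * E1) + (E1 * c) * x * c * E1 + (E1 * E2) * x * E2 * E1 := by
                noncomm_ring
            _ = _ := by rw [h11, h10, h12]; simp
        have x2 : E2 * (E1 * x * E1 + c * x * c + E2 * x * E2) * E2 = E2 * x * E2 := by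
          calc E2 * (E1 * x * E1 + c * x * c + E2 * x * E2) * E2 =
              (E2 * E1) * x * E1 * E2 + (E2 * c) * x * c * E2 + (E2 * E2) * x * (E2 * E2) := by
                noncomm_ring
            _ = _ := by rw [h21, h20, h22]; simp
        rw [hz] at x1 x2
        constructor
        · rw [← x1]; simp
        · rw [← x2]; simp
      · exfalso
        have g1 := A.le _ hmem hz
        have g2 := rk_add_le (E1 * x * E1 + c * x * c) (E2 * x * E2)
        have g3 := rk_add_le (E1 * x * E1) (c * x * c)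
        have g4 : rk (E1 * x * E1 + c * x * c + E2 * x * E2) = r := by omega
        exact A.nc _ hmem (by rw [g4]; exact A.odd) hp hq
    · apply done
      have g1 := A.le _ (A.cq _ hmem) hq
      rw [e2] at g1
      exact g1.trans ((rk_mul_le_left _ _).trans (rk_mul_le_right _ _))
  · apply done
    have g1 := A.le _ (A.cp _ hmem) hp
    rw [e1] at g1
    exact g1.trans ((rk_mul_le_left _ _).trans (rk_mul_le_right _ _))

end Amb

end MTP
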