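import Pool.Agent.Helper21.MT.Trace

/-!
Square zero elements of least odd rank are extremal.
-/

open Module Polynomial

namespace MTP

variable {K : Type*} [Field K] {V : Type*} [AddCommGroup V] [Module K V] [FiniteDimensional K V]

/-- An irreducible Lie algebra of infinitesimal symplectic operators. -/
structure IrrSymp (ω : LinearMap.BilinForm K V) (L : Submodule K (Module.End K V)) : Prop where
  br : ∀ x ∈ L, ∀ y ∈ L, x * y - y * x ∈ L
  sk : ∀ x ∈ L, IsSk ω x
  irr : ∀ W : Submodule K V, (∀ z ∈ L, ∀ w ∈ W, z w ∈ W) → W = ⊥ ∨ W = ⊤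

variable {ω : LinearMap.BilinForm K V} {L : Submodule K (Module.End K V)}

lemma trace_eq_zero_of_sk [CharZero K] (hω : ω.Nondegenerate) {z : Module.End K V}
    (hz : IsSk ω z) : LinearMap.trace K V z = 0 := by
  let e := ω.toDual hω
  have h1 : (Module.Dual.transpose (R := K) z) = -(e.conj z) := by
    apply LinearMap.ext
    intro f
    obtain ⟨v, rfl⟩ := e.surjective f
    apply LinearMap.ext
    intro w
    simp only [LinearMap.neg_apply, LinearEquiv.conj_apply_apply, LinearEquiv.symm_apply_apply]
    change (e v) (z w) = - (e (z v)) w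
    change ω v (z w) = - ω (z v) w
    rw [hz v w, neg_neg]
  have h2 := LinearMap.trace_transpose' (R := K) (M := V) z
  have h4 := LinearMap.trace_conj' z e
  have h5 : LinearMap.trace K (Module.Dual K V) (-(e.conj z)) =
      - LinearMap.trace K (Module.Dual K V) (e.conj z) :=
    LinearMap.map_neg (LinearMap.trace K (Module.Dual K V)) (e.conj z)
  rw [h1, h5, h4] at h2
  have h3 : (2 : K) * LinearMap.trace K V z = 0 := by linear_combination -h2
  simpa using h3

/-- An ideal on which the trace form vanishes is zero. -/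
lemma IrrSymp.ideal_zero [IsAlgClosed K] [CharZero K] (hL : IrrSymp ω L)
    (hω : ω.Nondegenerate) (R : Submodule K (Module.End K V)) (hR : R ≤ L)
    (hid : ∀ z ∈ L, ∀ y ∈ R, z * y - y * z ∈ R)
    (h0 : ∀ y ∈ R, ∀ y' ∈ R, LinearMap.trace K V (y * y') = 0) : ∀ y ∈ R, y = 0 := by
  let _ : LieRing (Module.End K V) := LieRing.ofAssociativeRing
  let L' : LieSubalgebra K (Module.End K V) :=
    { L with lie_mem' := by intro x y hx hy; exact hL.br x hx y hy }
  let R' : LieIdeal K L' :=
    { carrier := {y | (y : Module.End K V) ∈ R}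
      add_mem' := by intro a b ha hb; exact R.add_mem ha hb
      zero_mem' := R.zero_mem
      smul_mem' := by intro c a ha; exact R.smul_mem c ha
      lie_mem := by
        intro x m hm
        exact hid x x.2 m hm }
  have hbot := ideal_eq_bot L' (fun W hW => hL.irr W hW)
    (fun z hz => trace_eq_zero_of_sk hω (hL.sk z hz)) R' (fun y hy y' hy' => h0 y hy y' hy')
  intro y hy
  have : (⟨y, hR hy⟩ : L') ∈ R' := hy
  rw [hbot, LieSubmodule.mem_bot] at this
  exact congrArg Subtype.val this

/-- Nondegeneracy of the trace form. -/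
lemma IrrSymp.nondeg [IsAlgClosed K] [CharZero K] (hL : IrrSymp ω L)
    (hω : ω.Nondegenerate) {z : Module.End K V} (hz : z ∈ L)
    (h : ∀ y ∈ L, LinearMap.trace K V (z * y) = 0) : z = 0 := by
  let R : Submodule K (Module.End K V) :=
    { carrier := {z | z ∈ L ∧ ∀ y ∈ L, LinearMap.trace K V (z * y) = 0}
      add_mem' := by
        rintro a b ⟨ha, ha'⟩ ⟨hb, hb'⟩
        refine ⟨L.add_mem ha hb, fun y hy => ?_⟩
        rw [add_mul, map_add, ha' y hy, hb' y hy, add_zero]
      zero_mem' := ⟨L.zero_mem, fun y _ => by simp⟩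
      smul_mem' := by
        rintro c a ⟨ha, ha'⟩
        refine ⟨L.smul_mem c ha, fun y hy => ?_⟩
        rw [smul_mul_assoc, map_smul, ha' y hy, smul_zero] }
  refine hL.ideal_zero hω R (fun z hz => hz.1) ?_ (fun y hy y' hy' => hy.2 y' hy'.1) z ⟨hz, h⟩
  rintro z hz y ⟨hy, hy'⟩
  refine ⟨hL.br z hz y hy, fun w hw => ?_⟩
  have h1 := hy' _ (hL.br w hw z hz)
  rw [mul_sub, map_sub] at h1
  rw [sub_mul, map_sub]
  have e1 : LinearMap.trace K V (z * y * w) = LinearMap.trace K V (y * (w * z)) := by
    rw [mul_assoc, LinearMap.trace_mul_comm, mul_assoc]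
  have e2 : LinearMap.trace K V (y * z * w) = LinearMap.trace K V (y * (z * w)) := by
    rw [mul_assoc]
  rw [e1, e2]
  exact h1

/-- Sandwich property. -/
lemma IrrSymp.sandwich [CharZero K] (hL : IrrSymp ω L) {u y : Module.End K V} (hu : u ∈ L)
    (huu : u * u = 0) (hy : y ∈ L) : u * y * u ∈ L := by
  have h := hL.br u hu _ (hL.br u hu y hy)
  have e : u * (u * y - y * u) - (u * y - y * u) * u = (-2 : K) • (u * y * u) := by
    have : u * (u * y - y * u) - (u * y - y * u) * u =
      (u * u) * y + y * (u * u) - 2 • (u * y * u) := by noncomm_ring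
    rw [this, huu]
    simp only [zero_mul, mul_zero, add_zero, zero_sub]
    module
  rw [e] at h
  have := L.smul_mem ((-2 : K)⁻¹) h
  rwa [smul_smul, inv_mul_cancel₀ (by norm_num), one_smul] at this

lemma x_pow_x {x y : Module.End K V} (hx : x * x = 0) (k : ℕ) : x * (x * y) ^ k * x = 0 := by
  cases k with
  | zero => simp [hx]
  | succ k => rw [pow_succ', ← mul_assoc, ← mul_assoc, hx]; simp

lemma IrrSymp.pow_mem [CharZero K] (hL : IrrSymp ω L) {x y : Module.End K V} (hx : x ∈ L)
    (hxx : x * x = 0) (hy : y ∈ L) (k : ℕ) : (x * y) ^ k * x ∈ L := by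
  induction k with
  | zero => simpa using hx
  | succ k ih =>
    have sq : ((x * y) ^ k * x) * ((x * y) ^ k * x) = 0 := by
      have := x_pow_x (y := y) hxx k
      calc _ = (x * y) ^ k * (x * (x * y) ^ k * x) := by noncomm_ring
        _ = 0 := by rw [this, mul_zero]
    have h1 := hL.sandwich hx hxx hy
    have h2 := hL.sandwich ih sq hy
    have h3 : (x + (x * y) ^ k * x) * y * (x + (x * y) ^ k * x) ∈ L := by
      apply hL.sandwich (L.add_mem hx ih) _ hy
      have e1 : x * ((x * y) ^ k * x) = 0 := by rw [← mul_assoc]; exact x_pow_x hxx k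
      have e2 : (x * y) ^ k * x * x = 0 := by rw [mul_assoc, hxx, mul_zero]
      rw [add_mul, mul_add, mul_add, hxx, e1, e2, sq]
      simp
    have e : (x + (x * y) ^ k * x) * y * (x + (x * y) ^ k * x) =
        x * y * x + ((x * y) ^ k * x) * y * ((x * y) ^ k * x) + (2 : K) • ((x * y) ^ (k + 1) * x) := by
      have e1 : x * y * ((x * y) ^ k * x) = (x * y) ^ (k + 1) * x := by
        rw [pow_succ']; noncomm_ring
      have e2 : (x * y) ^ k * x * y * x = (x * y) ^ (k + 1) * x := by
        rw [pow_succ]; noncomm_ring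
      have : (x + (x * y) ^ k * x) * y * (x + (x * y) ^ k * x) =
        x * y * x + ((x * y) ^ k * x) * y * ((x * y) ^ k * x) + x * y * ((x * y) ^ k * x)
          + (x * y) ^ k * x * y * x := by noncomm_ring
      rw [this, e1, e2]
      module
    rw [e] at h3
    have h4 := L.sub_mem h3 (L.add_mem h1 h2)
    rw [add_sub_cancel_left] at h4
    have := L.smul_mem ((2 : K)⁻¹) h4
    rwa [smul_smul, inv_mul_cancel₀ (by norm_num), one_smul] at this

lemma IrrSymp.aeval_mem [CharZero K] (hL : IrrSymp ω L) {x y : Module.End K V} (hx : x ∈ L)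
    (hxx : x * x = 0) (hy : y ∈ L) (p : K[X]) : aeval (x * y) p * x ∈ L := by
  rw [aeval_eq_sum_range, Finset.sum_mul]
  apply Submodule.sum_mem
  intro i _
  rw [smul_mul_assoc]
  exact L.smul_mem _ (hL.pow_mem hx hxx hy i)

lemma aeval_sq {x y : Module.End K V} (hxx : x * x = 0) (p : K[X]) :
    (aeval (x * y) p * x) * (aeval (x * y) p * x) = 0 := by
  have h : x * aeval (x * y) p * x = 0 := by
    rw [aeval_eq_sum_range, Finset.mul_sum, Finset.sum_mul]
    apply Finset.sum_eq_zero
    intro i _
    rw [mul_smul_comm, smul_mul_assoc, x_pow_x hxx, smul_zero]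
  calc _ = aeval (x * y) p * (x * aeval (x * y) p * x) := by noncomm_ring
    _ = 0 := by rw [h, mul_zero]

/-- Ranks of polynomials in `A` times `x` are ranks of polynomials in the restriction. -/
lemma rk_aeval_mul {A x : Module.End K V} (hA : ∀ v ∈ LinearMap.range x, A v ∈ LinearMap.range x)
    (p : K[X]) :
    rk (aeval A p * x) = finrank K (LinearMap.range (aeval (A.restrict hA) p)) := by
  have h : ∀ u : LinearMap.range x, aeval A p (u : V) = (aeval (A.restrict hA) p u : V) := by
    intro u
    induction p using Polynomial.induction_on' with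
    | add p q hp hq => simp [hp, hq]
    | monomial n c =>
      simp only [aeval_monomial, Module.End.mul_apply, Module.algebraMap_end_apply,
        Submodule.coe_smul]
      congr 1
      induction n with
      | zero => simp
      | succ n ih =>
        rw [pow_succ', pow_succ', Module.End.mul_apply, Module.End.mul_apply, ih]
        rfl
  have e : LinearMap.range (aeval A p * x) =
      (LinearMap.range (aeval (A.restrict hA) p)).map (LinearMap.range x).subtype := by
    ext v
    constructor
    · rintro ⟨w, rfl⟩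
      refine ⟨aeval (A.restrict hA) p ⟨x w, ⟨w, rfl⟩⟩, ⟨_, rfl⟩, ?_⟩
      exact (h ⟨x w, ⟨w, rfl⟩⟩).symm
    · rintro ⟨_, ⟨⟨_, ⟨w, rfl⟩⟩, rfl⟩, rfl⟩
      exact ⟨w, h ⟨x w, ⟨w, rfl⟩⟩⟩
  unfold rk
  rw [e]
  exact (LinearEquiv.finrank_eq
          (Submodule.equivMapOfInjective _ (Submodule.subtype_injective _) _)).symm

lemma finrank_coprime {U : Type*} [AddCommGroup U] [Module K U] [FiniteDimensional K U]
    (T : Module.End K U) {f g : K[X]} (hfg : IsCoprime f g) (h : aeval T (f * g) = 0) :
    finrank K (LinearMap.range (aeval T f)) + finrank K (LinearMap.range (aeval T g)) =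
      finrank K U := by
  have h1 := LinearMap.finrank_range_add_finrank_ker (aeval T f)
  have h2 := LinearMap.finrank_range_add_finrank_ker (aeval T g)
  have h3 := Polynomial.disjoint_ker_aeval_of_isCoprime T hfg
  have h4 := Polynomial.sup_ker_aeval_eq_ker_aeval_mul_of_coprime T hfg
  rw [h, LinearMap.ker_zero] at h4
  have h5 := Submodule.finrank_sup_add_finrank_inf_eq (LinearMap.ker (aeval T f))
    (LinearMap.ker (aeval T g))
  rw [h4, h3.eq_bot, finrank_bot, finrank_top] at h5
  omega

/-- For a square zero element of least odd rank, `x * y` has a single eigenvalue on the image of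
`x`. -/
lemma IrrSymp.trace_sq [IsAlgClosed K] [CharZero K] (hL : IrrSymp ω L) {r : ℕ} (hr : Odd r)
    (hmin : ∀ z ∈ L, z * z = 0 → Odd (rk z) → r ≤ rk z) {x y : Module.End K V} (hx : x ∈ L)
    (hxx : x * x = 0) (hxr : rk x = r) (hy : y ∈ L) :
    (r : K) * LinearMap.trace K V ((x * y) * (x * y)) = (LinearMap.trace K V (x * y)) ^ 2 := by
  have hA : ∀ v, (x * y) v ∈ LinearMap.range x := fun v => ⟨y v, rfl⟩
  have hA' : ∀ v ∈ LinearMap.range x, (x * y) v ∈ LinearMap.range x := fun v _ => hA v
  set T : Module.End K (LinearMap.range x) := (x * y).restrict hA' with hT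
  have hU : finrank K (LinearMap.range x) = r := hxr
  have hnt : Nontrivial (LinearMap.range x) := by
    apply Module.nontrivial_of_finrank_pos (R := K)
    rw [hU]; exact hr.pos
  obtain ⟨c, hc⟩ := Module.End.exists_eigenvalue T
  have hf0 : minpoly K T ≠ 0 := minpoly.ne_zero (Algebra.IsIntegral.isIntegral T)
  have hroot : (minpoly K T).IsRoot c := Module.End.isRoot_of_hasEigenvalue hc
  obtain ⟨g, hg, hg2⟩ := Polynomial.exists_eq_pow_rootMultiplicity_mul_and_not_dvd _ hf0 c
  set a := (minpoly K T).rootMultiplicity c with ha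
  have ha0 : 0 < a := (Polynomial.rootMultiplicity_pos hf0).mpr hroot
  have hcop : IsCoprime ((X - C c) ^ a) g := by
    apply IsCoprime.pow_left
    exact (Polynomial.irreducible_X_sub_C c).coprime_iff_not_dvd.mpr hg2
  have hsum := finrank_coprime T hcop (by rw [← hg]; exact minpoly.aeval K T)
  rw [hU] at hsum
  rw [← rk_aeval_mul hA' ((X - C c) ^ a), ← rk_aeval_mul hA' g] at hsum
  have m1 : aeval (x * y) ((X - C c) ^ a) * x ∈ L := hL.aeval_mem hx hxx hy _
  have m2 : aeval (x * y) g * x ∈ L := hL.aeval_mem hx hxx hy _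
  have key : rk (aeval (x * y) ((X - C c) ^ a) * x) = 0 := by
    rcases Nat.even_or_odd (rk (aeval (x * y) g * x)) with h | h
    · -- then the other one is odd, hence equal to `r`
      have h1 : Odd (rk (aeval (x * y) ((X - C c) ^ a) * x)) := by
        by_contra hcon
        rw [Nat.not_odd_iff_even] at hcon
        have := hcon.add h
        rw [hsum] at this
        exact (Nat.not_even_iff_odd.mpr hr) this
      have h2 := hmin _ m1 (aeval_sq hxx _) h1
      exfalso
      have h3 : rk (aeval (x * y) g * x) = 0 := by omega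
      rw [rk_aeval_mul hA' g, Submodule.finrank_eq_zero, LinearMap.range_eq_bot] at h3
      have h4 := minpoly.dvd K T h3
      have hg0 : g ≠ 0 := by
        rintro rfl
        rw [mul_zero] at hg
        exact hf0 hg
      have h5 := Polynomial.natDegree_le_of_dvd h4 hg0
      rw [hg, Polynomial.natDegree_mul (pow_ne_zero _ (X_sub_C_ne_zero c)) hg0,
        Polynomial.natDegree_pow, Polynomial.natDegree_X_sub_C] at h5
      omega
    · have h2 := hmin _ m2 (aeval_sq hxx _) h
      omega
  rw [rk_aeval_mul hA', Submodule.finrank_eq_zero, LinearMap.range_eq_bot] at key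
  set n : Module.End K (LinearMap.range x) := T - algebraMap K _ c with hn
  have hnil : IsNilpotent n := by
    refine ⟨a, ?_⟩
    rw [map_pow, map_sub, aeval_X, aeval_C] at key
    exact key
  have t1 : LinearMap.trace K V (x * y) = r * c := by
    rw [← LinearMap.trace_restrict_eq_of_forall_mem (LinearMap.range x) (x * y) hA hA']
    change LinearMap.trace K _ T = _
    have : T = n + c • (1 : Module.End K (LinearMap.range x)) := by
      rw [hn, Algebra.algebraMap_eq_smul_one, sub_add_cancel]
    rw [this, map_add, map_smul, LinearMap.trace_one, hU,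
      (LinearMap.isNilpotent_trace_of_isNilpotent hnil).eq_zero, zero_add, smul_eq_mul]
    ring
  have t2 : LinearMap.trace K V ((x * y) * (x * y)) = r * c ^ 2 := by
    have hB : ∀ v, ((x * y) * (x * y)) v ∈ LinearMap.range x := fun v => ⟨y ((x * y) v), rfl⟩
    rw [← LinearMap.trace_restrict_eq_of_forall_mem (LinearMap.range x) ((x * y) * (x * y)) hB
      (fun v _ => hB v)]
    have e1 : ((x * y) * (x * y)).restrict (fun v (_ : v ∈ LinearMap.range x) => hB v) = T * T := by
      ext v; rfl
    rw [e1]
    have : T * T = n * n + (2 * c) • n + (c ^ 2) • (1 : Module.End K (LinearMap.range x)) := by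
      have : T = n + c • (1 : Module.End K (LinearMap.range x)) := by
        rw [hn, Algebra.algebraMap_eq_smul_one, sub_add_cancel]
      rw [this]
      simp only [mul_add, add_mul, mul_smul_comm, smul_mul_assoc, mul_one, one_mul, smul_add,
        smul_smul]
      module
    have hnn : IsNilpotent (n * n) := (Commute.refl n).isNilpotent_mul_right hnil
    rw [this, map_add, map_add, map_smul, map_smul, LinearMap.trace_one, hU,
      (LinearMap.isNilpotent_trace_of_isNilpotent hnil).eq_zero,
      (LinearMap.isNilpotent_trace_of_isNilpotent hnn).eq_zero, smul_zero, zero_add, zero_add,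
      smul_eq_mul]
    ring
  rw [t1, t2]
  ring

/-- **Extremality** of square zero elements of least odd rank. -/
theorem IrrSymp.extremal [IsAlgClosed K] [CharZero K] (hL : IrrSymp ω L)
    (hω : ω.Nondegenerate) {r : ℕ} (hr : Odd r)
    (hmin : ∀ z ∈ L, z * z = 0 → Odd (rk z) → r ≤ rk z) {x y : Module.End K V} (hx : x ∈ L)
    (hxx : x * x = 0) (hxr : rk x = r) (hy : y ∈ L) :
    x * y * x = (LinearMap.trace K V (x * y) / r) • x := by
  have hr0 : (r : K) ≠ 0 := by rw [Nat.cast_ne_zero]; exact hr.pos.ne'
  rw [← sub_eq_zero]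
  apply hL.nondeg hω
  · exact L.sub_mem (hL.sandwich hx hxx hy) (L.smul_mem _ hx)
  intro y' hy'
  rw [sub_mul, map_sub, smul_mul_assoc, map_smul, smul_eq_mul]
  have h1 := hL.trace_sq hr hmin hx hxx hxr hy
  have h2 := hL.trace_sq hr hmin hx hxx hxr hy'
  have h3 := hL.trace_sq hr hmin hx hxx hxr (L.add_mem hy hy')
  have e : x * (y + y') * (x * (y + y')) = x * y * (x * y) + x * y' * (x * y') + x * y * (x * y')
    + x * y' * (x * y) := by noncomm_ring
  have e2 : LinearMap.trace K V (x * y' * (x * y)) = LinearMap.trace K V (x * y * (x * y')) :=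
    LinearMap.trace_mul_comm _ _ _
  rw [e, map_add, map_add, map_add, e2, mul_add x y y', map_add] at h3
  have e3 : x * y * x * y' = x * y * (x * y') := by noncomm_ring
  rw [e3]
  field_simp
  linear_combination (1 / 2) * h3 - (1 / 2) * h1 - (1 / 2) * h2

end MTP
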