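import Pool.Agent.Helper21.MT.Span

/-!
The square zero elements of least odd rank span the whole Lie algebra (no second factor).
-/

open Module

namespace MTP

variable {K : Type*} [Field K] {V : Type*} [AddCommGroup V] [Module K V] [FiniteDimensional K V]
variable {ω : LinearMap.BilinForm K V} {L : Submodule K (Module.End K V)}
  {S : Set (Module.End K V)} {r : ℕ}
variable [IsAlgClosed K] [CharZero K] {s : Module.End K V}

/-- Every element of `L` is the sum of an element of the span and of an element commuting with
the span. -/
lemma Ctx.decomp (hC : Ctx ω L S) {z : Module.End K V} (hz : z ∈ L) :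
    ∃ z1 ∈ Submodule.span K (EE L r), ∀ y ∈ Submodule.span K (EE L r),
      (z - z1) * y = y * (z - z1) := by
  set I := Submodule.span K (EE L r) with hI
  let Φ : I →ₗ[K] Module.Dual K I :=
    { toFun := fun a =>
        { toFun := fun b => LinearMap.trace K V ((a : Module.End K V) * (b : Module.End K V))
          map_add' := by intro b c; simp [mul_add]
          map_smul' := by intro c b; simp }
      map_add' := by intro a b; ext c; simp [add_mul]
      map_smul' := by intro c a; ext b; simp }
  have hinj : Function.Injective Φ := by
    rw [injective_iff_map_eq_zero]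
    intro a ha
    by_contra hne
    have hne' : (a : Module.End K V) ≠ 0 := fun h => hne (Subtype.ext h)
    obtain ⟨y, hy, hzy⟩ := hC.exists_pair a.2 hne'
    apply hzy
    have := congrArg (fun φ => φ ⟨y, Submodule.subset_span hy⟩) ha
    exact this
  have hfin : finrank K I = finrank K (Module.Dual K I) := Subspace.dual_finrank_eq.symm
  have hsurj : Function.Surjective Φ :=
    (LinearMap.injective_iff_surjective_of_finrank_eq_finrank hfin).mp hinj
  let ψ : Module.Dual K I :=
    { toFun := fun b => LinearMap.trace K V (z * (b : Module.End K V))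
      map_add' := by intro b c; simp [mul_add]
      map_smul' := by intro c b; simp }
  obtain ⟨z1, hz1⟩ := hsurj ψ
  have key : ∀ b ∈ I, LinearMap.trace K V ((z - z1) * b) = 0 := by
    intro b hb
    have := congrArg (fun φ => φ ⟨b, hb⟩) hz1
    change LinearMap.trace K V ((z1 : Module.End K V) * b) = LinearMap.trace K V (z * b) at this
    rw [sub_mul, map_sub, this, sub_self]
  refine ⟨z1, z1.2, fun y hy => ?_⟩
  have hnL : z - z1 ∈ L := L.sub_mem hz (span_le L r z1.2)
  have hc : (z - z1) * y - y * (z - z1) ∈ I := hC.ideal hnL hy
  rw [← sub_eq_zero]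
  by_contra hne
  obtain ⟨b, hb, hzb⟩ := hC.exists_pair hc hne
  apply hzb
  have hb' : b ∈ I := Submodule.subset_span hb
  have h1 := key _ (hC.ideal (span_le L r hy) hb')
  have e1 : LinearMap.trace K V (y * (z - z1) * b) =
      LinearMap.trace K V ((z - z1) * (b * y)) := by
    rw [mul_assoc, LinearMap.trace_mul_comm, mul_assoc]
  rw [sub_mul, map_sub, e1, ← map_sub]
  rw [mul_sub, ← mul_assoc] at h1
  exact h1

lemma Ctx.nontrivial_V (hr : MinOdd L r) (hne : (EE L r).Nonempty) : Nontrivial V := by
  obtain ⟨x, hx⟩ := hne
  by_contra hcon
  rw [not_nontrivial_iff_subsingleton] at hcon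
  have : rk x = 0 := by
    rw [rk_eq_zero]; ext v; exact Subsingleton.elim _ _
  rw [hx.2.2] at this
  exact hr.1.pos.ne' this

/-- The involutions lie in the span. -/
lemma Ctx.inv_mem_span (hC : Ctx ω L S) (hr : MinOdd L r) (hne : (EE L r).Nonempty)
    (hs : s ∈ S) : s ∈ Submodule.span K (EE L r) := by
  obtain ⟨hsL, hss⟩ := hC.inv s hs
  have hnt : Nontrivial V := Ctx.nontrivial_V (hr := hr) (hne := hne)
  set I := Submodule.span K (EE L r) with hI
  obtain ⟨s1, hs1, hcomm⟩ := hC.decomp (r := r) hsL
  set s2 := s - s1 with hs2
  have hs12 : s = s1 + s2 := by rw [hs2]; abel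
  have hs1sk := hC.irr.sk s1 (span_le L r hs1)
  have hs2L : s2 ∈ L := L.sub_mem hsL (span_le L r hs1)
  -- `s1` is not zero, by parity
  have hs1ne : s1 ≠ 0 := by
    rintro rfl
    obtain ⟨x, hx⟩ := hne
    rw [zero_add] at hs12
    have hcx : s * x = x * s := by
      rw [hs12]; exact hcomm x (Submodule.subset_span hx)
    have := even_rk_of_comm hC.nd hss (hC.irr.sk s hsL) (hC.irr.sk x hx.1) hcx
    rw [hx.2.2] at this
    exact (Nat.not_even_iff_odd.mpr hr.1) this
  -- for every eigenvalue `a` of `s2`, `(s1 + a)^2 = 1`
  have key : ∀ a : K, s2.HasEigenvalue a →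
      (s1 + algebraMap K _ a) * (s1 + algebraMap K _ a) = 1 := by
    intro a ha
    obtain ⟨v, hv⟩ := ha.exists_hasEigenvector
    set z1 : Module.End K V := (s1 + algebraMap K _ a) * (s1 + algebraMap K _ a) - 1 with hz1
    have hker : ∀ w, s2 w = a • w → z1 w = 0 := by
      intro w hw
      have e1 : s w = (s1 + algebraMap K _ a) w := by
        rw [hs12]; simp [hw]
      have hw' : s2 ((s1 + algebraMap K (Module.End K V) a) w) =
          a • ((s1 + algebraMap K (Module.End K V) a) w) := by
        have : s2 (s1 w) = s1 (s2 w) := by
          rw [← Module.End.mul_apply, hcomm s1 hs1, Module.End.mul_apply]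
        simp [this, hw]
      have e2 : s (s w) = (s1 + algebraMap K _ a) ((s1 + algebraMap K _ a) w) := by
        rw [e1]
        rw [hs12]
        simp only [LinearMap.add_apply]
        rw [LinearMap.add_apply] at hw'
        rw [hw']
        simp
      have e3 : s (s w) = w := by rw [← Module.End.mul_apply, hss]; rfl
      rw [hz1, LinearMap.sub_apply, Module.End.mul_apply, ← e2, e3]
      simp
    let W : Submodule K V :=
      { carrier := {w | ∀ b ∈ Algebra.adjoin K (I : Set (Module.End K V)), z1 (b w) = 0}
        add_mem' := by intro w w' hw hw' b hb; rw [map_add, map_add, hw b hb, hw' b hb, add_zero]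
        zero_mem' := by intro b _; simp
        smul_mem' := by intro c w hw b hb; rw [map_smul, map_smul, hw b hb, smul_zero] }
    have hcadj : ∀ n : Module.End K V, (∀ y ∈ I, n * y = y * n) →
        ∀ b ∈ Algebra.adjoin K (I : Set (Module.End K V)), n * b = b * n := by
      intro n hn b hb
      induction hb using Algebra.adjoin_induction with
      | mem x hx => exact hn x hx
      | algebraMap c => exact (Algebra.commutes c n).symm
      | add x y _ _ hx hy => rw [mul_add, add_mul, hx, hy]
      | mul x y _ _ hx hy => rw [← mul_assoc, hx, mul_assoc, hy, mul_assoc]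
    have hW : ∀ z ∈ L, ∀ w ∈ W, z w ∈ W := by
      intro z hz w hw b hb
      obtain ⟨y1, hy1, hy2⟩ := hC.decomp (r := r) hz
      set y2 := z - y1 with hy2d
      have hz' : z = y1 + y2 := by rw [hy2d]; abel
      rw [hz', LinearMap.add_apply, map_add, map_add]
      have e1 : z1 (b (y1 w)) = 0 := by
        have := hw (b * y1) (Subalgebra.mul_mem _ hb (Algebra.subset_adjoin hy1))
        rwa [Module.End.mul_apply] at this
      have c1 : y2 * z1 = z1 * y2 := by
        have c0 : y2 * s1 = s1 * y2 := hy2 s1 hs1
        have c2 : y2 * algebraMap K _ a = algebraMap K _ a * y2 := (Algebra.commutes a y2).symm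
        have c3 : y2 * (s1 + algebraMap K _ a) = (s1 + algebraMap K _ a) * y2 := by
          rw [mul_add, add_mul, c0, c2]
        rw [hz1]
        set A := s1 + algebraMap K (Module.End K V) a with hA
        calc y2 * (A * A - 1) = (y2 * A) * A - y2 := by noncomm_ring
          _ = (A * y2) * A - y2 := by rw [c3]
          _ = A * (y2 * A) - y2 := by noncomm_ring
          _ = A * (A * y2) - y2 := by rw [c3]
          _ = (A * A - 1) * y2 := by noncomm_ring
      have e2 : z1 (b (y2 w)) = 0 := by
        have e3 : b * y2 = y2 * b := (hcadj y2 hy2 b hb).symm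
        have : z1 (b (y2 w)) = (z1 * (b * y2)) w := rfl
        rw [this, e3, ← mul_assoc, ← c1, mul_assoc, Module.End.mul_apply, Module.End.mul_apply,
          hw b hb, map_zero]
      rw [e1, e2, add_zero]
    have hWtop : W = ⊤ := by
      rcases hC.irr.irr W hW with h | h
      · exfalso
        have hvW : v ∈ W := by
          intro b hb
          apply hker
          have := hcadj s2 hcomm b hb
          rw [← Module.End.mul_apply, this, Module.End.mul_apply, hv.apply_eq_smul, map_smul]
        rw [h] at hvW
        exact hv.2 ((Submodule.mem_bot K).mp hvW)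
      · exact h
    have : z1 = 0 := by
      ext w
      have hw : w ∈ W := by rw [hWtop]; trivial
      have := hw 1 (Subalgebra.one_mem _)
      simpa using this
    rw [hz1, sub_eq_zero] at this
    exact this
  -- the only eigenvalue of `s2` is zero
  have hev : ∀ a : K, s2.HasEigenvalue a → a = 0 := by
    intro a ha
    by_contra ha0
    have hna : s2.HasEigenvalue (-a) := by
      by_contra hcon
      have hinj : Function.Injective (s2 + algebraMap K (Module.End K V) a) := by
        rw [← LinearMap.ker_eq_bot]
        by_contra hk
        apply hcon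
        rw [Module.End.hasEigenvalue_iff]
        intro h
        apply hk
        rw [← h, Module.End.eigenspace_def, neg_smul, sub_neg_eq_add,
          Algebra.algebraMap_eq_smul_one]
      have hsurj : Function.Surjective (s2 + algebraMap K (Module.End K V) a) :=
        (LinearMap.injective_iff_surjective).mp hinj
      obtain ⟨v, hv⟩ := ha.exists_hasEigenvector
      apply hv.2
      apply hC.nd.1
      intro w
      obtain ⟨w', rfl⟩ := hsurj w
      have h1 := hC.irr.sk s2 hs2L v w'
      rw [hv.apply_eq_smul, map_smul, LinearMap.smul_apply] at h1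
      rw [LinearMap.add_apply, map_add, Module.algebraMap_end_apply, map_smul]
      rw [h1]
      simp
    have k1 := key a ha
    have k2 := key (-a) hna
    have h4 : (4 * a) • s1 = 0 := by
      have e : (s1 + algebraMap K _ a) * (s1 + algebraMap K _ a) -
        (s1 + algebraMap K _ (-a)) * (s1 + algebraMap K _ (-a)) = (4 * a) • s1 := by
        rw [map_neg, Algebra.algebraMap_eq_smul_one]
        simp only [add_mul, mul_add, smul_mul_assoc, mul_smul_comm, mul_one, one_mul, mul_neg,
          neg_mul]
        module
      rw [← e, k1, k2, sub_self]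
    rcases smul_eq_zero.mp h4 with h | h
    · apply ha0
      simpa using h
    · exact hs1ne h
  obtain ⟨a, ha⟩ := Module.End.exists_eigenvalue s2
  have ha0 := hev a ha
  rw [ha0] at ha
  have k0 := key 0 ha
  rw [map_zero, add_zero] at k0
  -- `2 s1 + s2` is injective
  have hinj : Function.Injective ((2 : K) • s1 + s2) := by
    rw [← LinearMap.ker_eq_bot, LinearMap.ker_eq_bot']
    intro w hw
    have h1 : s2 w = -((2 : K) • s1 w) := by
      rw [LinearMap.add_apply, LinearMap.smul_apply] at hw
      exact eq_neg_of_add_eq_zero_right hw
    have hc : s2 (s1 w) = s1 (s2 w) := by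
      rw [← Module.End.mul_apply, hcomm s1 hs1, Module.End.mul_apply]
    have hk : s1 (s1 w) = w := by rw [← Module.End.mul_apply, k0]; rfl
    have h2 : s2 (s2 w) = (4 : K) • w := by
      rw [h1, map_neg, map_smul, hc, h1, map_neg, map_smul, hk]
      module
    by_contra hw0
    by_cases h3 : s2 w + (2 : K) • w = 0
    · have : s2.HasEigenvalue (-2) := by
        apply Module.End.hasEigenvalue_of_hasEigenvector (x := w)
        rw [Module.End.hasEigenvector_iff]
        refine ⟨?_, hw0⟩
        rw [Module.End.mem_eigenspace_iff]
        rw [eq_neg_of_add_eq_zero_left h3]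
        module
      have := hev _ this
      norm_num at this
    · have : s2.HasEigenvalue 2 := by
        apply Module.End.hasEigenvalue_of_hasEigenvector (x := s2 w + (2 : K) • w)
        rw [Module.End.hasEigenvector_iff]
        refine ⟨?_, h3⟩
        rw [Module.End.mem_eigenspace_iff, map_add, map_smul, h2]
        module
      have := hev _ this
      norm_num at this
  have hsurj : Function.Surjective ((2 : K) • s1 + s2) :=
    (LinearMap.injective_iff_surjective).mp hinj
  have hz : s2 * ((2 : K) • s1 + s2) = 0 := by
    have h1 : s2 * s1 = s1 * s2 := hcomm s1 hs1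
    have h2 : s * s = s1 * s1 + s2 * ((2 : K) • s1 + s2) := by
      rw [hs12]
      simp only [add_mul, mul_add, mul_smul_comm, h1]
      module
    rw [hss, k0] at h2
    exact (left_eq_add.mp h2)
  have hs2z : s2 = 0 := by
    ext w
    obtain ⟨w', rfl⟩ := hsurj w
    have := congrArg (fun f : Module.End K V => f w') hz
    exact this
  rw [hs12, hs2z, add_zero]
  exact hs1

/-- The square zero elements of least odd rank span `L`. -/
theorem Ctx.span_eq (hC : Ctx ω L S) (hr : MinOdd L r) (hne : (EE L r).Nonempty) :
    Submodule.span K (EE L r) = L := by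
  apply le_antisymm (span_le L r)
  apply hC.gen
  · intro x hx y hy
    exact hC.ideal (span_le L r hx) hy
  · intro s hs
    exact hC.inv_mem_span hr hne hs

end MTP
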