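import Pool.Agent.Helper21.MT.Defs

/-!
Closed subgroups generated by cocharacters.
-/

open Module

namespace MTPairs

variable {K : Type*} [Field K] {m : Type*} [Fintype m] [DecidableEq m]

lemma torus_mul {π : Matrix m m K} (hπ : π * π = π) {t : K} (ht : t ≠ 0) :
    (t • π + (1 - π)) * (t⁻¹ • π + (1 - π)) = 1 := by
  simp only [add_mul, mul_add, smul_mul_assoc, mul_smul_comm, mul_sub, sub_mul, mul_one, one_mul,
    hπ, sub_self, add_zero, smul_smul]
  rw [inv_mul_cancel₀ ht, one_smul]
  abel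

/-- The closed subgroup generated by the cocharacters attached to the elements of `Λ`. -/
def GenG (Λ : Set (Matrix m m K)) : Subgroup (Matrix.GeneralLinearGroup m K) :=
  sInf {H | ZariskiClosed H ∧ ∀ π ∈ Λ, IsCochar H π}

lemma GenG_le {Λ : Set (Matrix m m K)} {H : Subgroup (Matrix.GeneralLinearGroup m K)}
    (h1 : ZariskiClosed H) (h2 : ∀ π ∈ Λ, IsCochar H π) : GenG Λ ≤ H := sInf_le ⟨h1, h2⟩

lemma GenG_closed (Λ : Set (Matrix m m K)) : ZariskiClosed (GenG Λ) := by
  classical
  refine ⟨{p | ∃ H : Subgroup (Matrix.GeneralLinearGroup m K), (∀ π ∈ Λ, IsCochar H π) ∧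
    ∃ P : Set (MvPolynomial (m × m) K), (∀ g : Matrix.GeneralLinearGroup m K,
    g ∈ H ↔ ∀ p ∈ P, MvPolynomial.eval (fun ij => (g : Matrix m m K) ij.1 ij.2) p = 0) ∧ p ∈ P},
    fun g => ?_⟩
  rw [GenG, Subgroup.mem_sInf]
  constructor
  · rintro h p ⟨H, hH, P, hP, hp⟩
    exact (hP g).mp (h H ⟨⟨P, hP⟩, hH⟩) p hp
  · rintro h H ⟨⟨P, hP⟩, hH⟩
    rw [hP]
    intro p hp
    exact h p ⟨H, hH, P, hP, hp⟩

lemma GenG_cochar {Λ : Set (Matrix m m K)} {π : Matrix m m K} (hπ : π * π = π) (h : π ∈ Λ) :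
    IsCochar (GenG Λ) π := by
  refine ⟨hπ, fun t ht => ?_⟩
  refine ⟨⟨t • π + (1 - π), t⁻¹ • π + (1 - π), torus_mul hπ ht, ?_⟩, ?_, rfl⟩
  · have := torus_mul hπ (inv_ne_zero ht)
    rwa [inv_inv] at this
  · rw [GenG, Subgroup.mem_sInf]
    rintro H ⟨-, hH⟩
    obtain ⟨g, hg, hgt⟩ := (hH π h).2 t ht
    have : g = ⟨t • π + (1 - π), t⁻¹ • π + (1 - π), torus_mul hπ ht, (by
      have := torus_mul hπ (inv_ne_zero ht)
      rwa [inv_inv] at this)⟩ := Units.ext hgt
    rw [← this]; exact hg

/-- The group of similitudes. -/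
def Sim (J : Matrix m m K) : Subgroup (Matrix.GeneralLinearGroup m K) where
  carrier := {g | ∃ c : K, c ≠ 0 ∧
    (g : Matrix m m K).transpose * J * (g : Matrix m m K) = c • J}
  one_mem' := ⟨1, one_ne_zero, by simp⟩
  mul_mem' := by
    rintro g h ⟨c, hc, hg⟩ ⟨d, hd, hh⟩
    refine ⟨c * d, mul_ne_zero hc hd, ?_⟩
    rw [Units.val_mul, Matrix.transpose_mul]
    calc (h : Matrix m m K).transpose * (g : Matrix m m K).transpose * J *
          ((g : Matrix m m K) * (h : Matrix m m K))
        = (h : Matrix m m K).transpose * ((g : Matrix m m K).transpose * J *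
          (g : Matrix m m K)) * (h : Matrix m m K) := by noncomm_ring
      _ = _ := by rw [hg, mul_smul_comm, smul_mul_assoc, hh, smul_smul]
  inv_mem' := by
    rintro g ⟨c, hc, hg⟩
    refine ⟨c⁻¹, inv_ne_zero hc, ?_⟩
    have h1 : (g : Matrix m m K) * ((g⁻¹ : Matrix.GeneralLinearGroup m K) : Matrix m m K) = 1 :=
      Units.mul_inv g
    have h2 : ((g⁻¹ : Matrix.GeneralLinearGroup m K) : Matrix m m K).transpose *
        (g : Matrix m m K).transpose = 1 := by
      rw [← Matrix.transpose_mul, h1, Matrix.transpose_one]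
    generalize ((g⁻¹ : Matrix.GeneralLinearGroup m K) : Matrix m m K) = y at *
    have h3 : J = c • (y.transpose * J * y) := by
      calc J = (y.transpose * (g : Matrix m m K).transpose) * J * ((g : Matrix m m K) * y) := by
            rw [h1, h2, one_mul, mul_one]
        _ = y.transpose * ((g : Matrix m m K).transpose * J * (g : Matrix m m K)) * y := by
            noncomm_ring
        _ = _ := by rw [hg, mul_smul_comm, smul_mul_assoc]
    nth_rewrite 2 [h3]
    rw [smul_smul, inv_mul_cancel₀ hc, one_smul]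

lemma Sim_closed {J : Matrix m m K} (hdet : J.det ≠ 0) : ZariskiClosed (Sim J) := by
  refine ⟨{p | ∃ i j k l : m, p =
    (∑ a, ∑ b, MvPolynomial.X (a, i) * MvPolynomial.C (J a b) * MvPolynomial.X (b, j)) *
      MvPolynomial.C (J k l) -
    (∑ a, ∑ b, MvPolynomial.X (a, k) * MvPolynomial.C (J a b) * MvPolynomial.X (b, l)) *
      MvPolynomial.C (J i j)}, fun g => ?_⟩
  have key : ∀ i j, MvPolynomial.eval (fun ij => (g : Matrix m m K) ij.1 ij.2)
      (∑ a, ∑ b, MvPolynomial.X (a, i) * MvPolynomial.C (J a b) * MvPolynomial.X (b, j)) =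
      ((g : Matrix m m K).transpose * J * (g : Matrix m m K)) i j := by
    intro i j
    simp only [map_sum, map_mul, MvPolynomial.eval_X, MvPolynomial.eval_C, Matrix.mul_apply,
      Matrix.transpose_apply, Finset.sum_mul]
    rw [Finset.sum_comm]
  constructor
  · rintro ⟨c, -, hc⟩ p ⟨i, j, k, l, rfl⟩
    rw [map_sub, map_mul, map_mul, key, key, hc, MvPolynomial.eval_C, MvPolynomial.eval_C]
    simp only [Matrix.smul_apply, smul_eq_mul]
    ring
  · intro h
    have h' : ∀ i j k l, ((g : Matrix m m K).transpose * J * (g : Matrix m m K)) i j * J k l =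
        ((g : Matrix m m K).transpose * J * (g : Matrix m m K)) k l * J i j := by
      intro i j k l
      have := h _ ⟨i, j, k, l, rfl⟩
      rw [map_sub, map_mul, map_mul, key, key, MvPolynomial.eval_C, MvPolynomial.eval_C,
        sub_eq_zero] at this
      exact this
    rcases isEmpty_or_nonempty m with hm | hm
    · refine ⟨1, one_ne_zero, ?_⟩
      ext i
      exact hm.elim i
    have hJ : J ≠ 0 := by
      rintro rfl
      rw [Matrix.det_zero] at hdet
      exact hdet rfl
    obtain ⟨k, l, hkl⟩ : ∃ k l, J k l ≠ 0 := by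
      by_contra hcon
      push Not at hcon
      exact hJ (by ext i j; exact hcon i j)
    have hg : (g : Matrix m m K).det ≠ 0 :=
      ((Matrix.isUnit_iff_isUnit_det _).mp g.isUnit).ne_zero
    have hall : (g : Matrix m m K).transpose * J * (g : Matrix m m K) =
        (((g : Matrix m m K).transpose * J * (g : Matrix m m K)) k l / J k l) • J := by
      ext i j
      rw [Matrix.smul_apply, smul_eq_mul, div_mul_eq_mul_div, eq_div_iff hkl]
      exact h' i j k l
    refine ⟨_, ?_, hall⟩
    intro h0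
    rw [h0, zero_smul] at hall
    have h1 := congrArg Matrix.det hall
    rw [Matrix.det_mul, Matrix.det_mul, Matrix.det_transpose, Matrix.det_zero] at h1
    exact (mul_ne_zero (mul_ne_zero hg hdet) hg) h1

lemma torus_sim {J π : Matrix m m K} (hπ : π * π = π) (hJ : π.transpose * J + J * π = J)
    (t : K) : (t • π + (1 - π)).transpose * J * (t • π + (1 - π)) = t • J := by
  have h1 : π.transpose * J = J - J * π := eq_sub_of_add_eq hJ
  have h2 : π.transpose * J * π = 0 := by
    rw [h1, sub_mul, mul_assoc, hπ, sub_self]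
  have e : (t • π + (1 - π)).transpose * J * (t • π + (1 - π)) =
      (t * t - t - t + 1) • (π.transpose * J * π) + (t - 1) • (π.transpose * J + J * π) + J := by
    rw [Matrix.transpose_add, Matrix.transpose_smul, Matrix.transpose_sub, Matrix.transpose_one]
    simp only [add_mul, mul_add, smul_mul_assoc, mul_smul_comm, mul_sub, sub_mul, mul_one,
      one_mul]
    module
  rw [e, h2, hJ]
  module

/-- Groups generated by Lagrangian cocharacters. -/
theorem isMTPair_gen {J : Matrix m m K} (hskew : J.transpose = -J) (hdet : J.det ≠ 0)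
    {Λ : Set (Matrix m m K)} (hΛ : ∀ π ∈ Λ, π * π = π)
    (hΛJ : ∀ π ∈ Λ, π.transpose * J + J * π = J) : IsMTPair J (GenG Λ) where
  skew := hskew
  det := hdet
  sim := by
    intro g hg
    have hle : GenG Λ ≤ Sim J := by
      apply GenG_le (Sim_closed hdet)
      intro π hπ
      refine ⟨hΛ π hπ, fun t ht => ?_⟩
      refine ⟨⟨t • π + (1 - π), t⁻¹ • π + (1 - π), torus_mul (hΛ π hπ) ht, ?_⟩, ?_, rfl⟩
      · have := torus_mul (hΛ π hπ) (inv_ne_zero ht)
        rwa [inv_inv] at this
      · exact ⟨t, ht, torus_sim (hΛ π hπ) (hΛJ π hπ) t⟩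
    obtain ⟨c, -, hc⟩ := hle hg
    exact ⟨c, hc⟩
  closed := GenG_closed Λ
  gen := by
    intro H hH hcoch
    apply GenG_le hH
    intro π hπ
    exact hcoch π (GenG_cochar (hΛ π hπ) hπ)

end MTPairs
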