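import Pool.Agent.Helper21.MT.Sp

/-!
Goursat for symplectic Lie algebras.
-/

open Module

namespace MTP

section single
variable {K : Type*} [Field K] {V : Type*} [AddCommGroup V] [Module K V]
variable {ω : LinearMap.BilinForm K V}

lemma TT_sk (halt : ω.IsAlt) (a : V) : IsSk ω (TT ω a) := by
  intro v w
  have h1 : ω v a = - ω a v := (halt.neg_eq a v).symm
  rw [TT_apply, TT_apply, map_smul, LinearMap.smul_apply, map_smul, h1, smul_eq_mul,
    smul_eq_mul]
  ring

lemma TT_mul_mul (a : V) (z : Module.End K V) :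
    TT ω a * z * TT ω a = ω a (z a) • TT ω a := by
  ext w
  simp only [Module.End.mul_apply, TT_apply, map_smul, LinearMap.smul_apply, smul_smul]
  rw [mul_comm]

lemma TT_sq' (halt : ω.IsAlt) (u : V) : TT ω u * TT ω u = 0 := by
  ext z
  rw [Module.End.mul_apply, TT_apply, TT_apply, map_smul, halt.self_eq_zero, smul_zero, zero_smul]
  rfl

/-- A nonzero infinitesimal symplectic operator has a nonzero value of its quadratic form. -/
lemma exists_quad_ne [CharZero K] (hω : ω.Nondegenerate) (halt : ω.IsAlt)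
    {z : Module.End K V} (hz : IsSk ω z) (hz0 : z ≠ 0) : ∃ v, ω (z v) v ≠ 0 := by
  by_contra hcon
  push Not at hcon
  apply hz0
  ext v
  apply hω.1
  intro w
  have h1 := hcon (v + w)
  simp only [map_add, LinearMap.add_apply, hcon] at h1
  have h2 : ω (z w) v = ω (z v) w := by
    rw [hz, ← halt.neg_eq, neg_neg]
  have h3 : (2 : K) * ω (z v) w = 0 := by linear_combination h1 - h2
  exact (mul_eq_zero.mp h3).resolve_left two_ne_zero

/-- Extremal elements of the symplectic Lie algebra have rank one. -/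
lemma extremal_form [CharZero K] (hω : ω.Nondegenerate) (halt : ω.IsAlt)
    {z : Module.End K V} (hz : IsSk ω z) (hz0 : z ≠ 0)
    (hext : ∀ v, ∃ c : K, z * (z * TT ω v - TT ω v * z) - (z * TT ω v - TT ω v * z) * z =
      c • z) : ∃ u, u ≠ 0 ∧ ∃ c : K, c ≠ 0 ∧ z = c • TT ω u := by
  obtain ⟨v, hv⟩ := exists_quad_ne hω halt hz hz0
  obtain ⟨c, hc⟩ := hext v
  set κ := ω (z v) v with hκ
  have hvz : ω v (z v) = -κ := (halt.neg_eq (z v) v).symm
  have e1 : ∀ w, ω v w • z (z v) + (2 * ω (z v) w) • z v + ω (z (z v)) w • v = c • z w := by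
    intro w
    have h := LinearMap.congr_fun hc w
    simp only [LinearMap.sub_apply, Module.End.mul_apply, TT_apply, map_smul, map_sub,
      LinearMap.smul_apply] at h
    have h1 : ω v (z w) = - ω (z v) w := by rw [hz, neg_neg]
    have h2 : ω v (z (z w)) = ω (z (z v)) w := by
      rw [hz (z v), hz v, neg_neg]
    rw [h1, h2] at h
    rw [← h]
    module
  have hzz : ω (z (z v)) v = 0 := by
    rw [hz, halt.self_eq_zero, neg_zero]
  have hzv0 : z v ≠ 0 := by
    intro h; rw [hκ, h] at hv; simp at hv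
  have hcκ : c = 2 * κ := by
    have h := e1 v
    rw [halt.self_eq_zero, hzz, zero_smul, zero_smul, zero_add, add_zero] at h
    have h2 : (2 * κ - c) • z v = 0 := by rw [sub_smul, h, sub_self]
    have h3 := (smul_eq_zero.mp h2).resolve_right hzv0
    linear_combination -h3
  have hz2 : z (z v) = 0 := by
    have h := e1 (z v)
    rw [hvz, halt.self_eq_zero, mul_zero, zero_smul, add_zero, hcκ] at h
    have h1 : (3 * κ) • z (z v) = ω (z (z v)) (z v) • v := by
      have : (3 * κ) • z (z v) = (2 * κ) • z (z v) - (-κ) • z (z v) := by module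
      rw [this, ← h]; abel
    set μ := ω (z (z v)) (z v) with hμ
    have h3κ : (3 * κ) ≠ 0 := mul_ne_zero three_ne_zero hv
    have h2 : z (z v) = (μ / (3 * κ)) • v := by
      rw [div_eq_inv_mul, mul_smul, ← h1, smul_smul, inv_mul_cancel₀ h3κ, one_smul]
    have h4 : μ = (μ / (3 * κ)) * (-κ) := by
      conv_lhs => rw [hμ, h2, map_smul, LinearMap.smul_apply, hvz, smul_eq_mul]
    have h5 : μ = 0 := by
      field_simp at h4
      have h6 : (4 : K) * μ = 0 := by linear_combination h4
      exact (mul_eq_zero.mp h6).resolve_left (by norm_num)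
    rw [h2, h5, zero_div, zero_smul]
  refine ⟨z v, hzv0, κ⁻¹, inv_ne_zero hv, ?_⟩
  ext w
  have h := e1 w
  rw [hz2, smul_zero, zero_add, map_zero, LinearMap.zero_apply, zero_smul, add_zero, hcκ,
    mul_smul, mul_smul] at h
  have h7 := smul_right_injective V (two_ne_zero (α := K)) h
  rw [LinearMap.smul_apply, TT_apply, h7, smul_smul, inv_mul_cancel₀ hv, one_smul]

/-- The symplectic Lie algebra acts irreducibly. -/
lemma sp_irr (hω : ω.Nondegenerate) (halt : ω.IsAlt) {U : Submodule K V}
    (hU : ∀ z, IsSk ω z → ∀ v ∈ U, z v ∈ U) : U = ⊥ ∨ U = ⊤ := by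
  by_cases h : U = ⊥
  · left; exact h
  right
  obtain ⟨w, hw, hw0⟩ := Submodule.exists_mem_ne_zero_of_ne_bot h
  have h1 : ∀ u, ω u w ≠ 0 → u ∈ U := by
    intro u hu
    have := hU _ (TT_sk halt u) w hw
    rw [TT_apply] at this
    have h2 := U.smul_mem (ω u w)⁻¹ this
    rwa [smul_smul, inv_mul_cancel₀ hu, one_smul] at h2
  obtain ⟨c, hc⟩ : ∃ c, ω c w ≠ 0 := by
    by_contra hcon
    push Not at hcon
    exact hw0 (hω.2 w hcon)
  rw [eq_top_iff]
  intro u _
  by_cases hu : ω u w = 0
  · have h3 : u + c ∈ U := h1 _ (by rw [map_add, LinearMap.add_apply, hu, zero_add]; exact hc)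
    have h4 := U.sub_mem h3 (h1 c hc)
    rwa [add_sub_cancel_right] at h4
  · exact h1 u hu

/-- The symplectic Lie algebra is simple. -/
lemma sp_simple [CharZero K] [FiniteDimensional K V] (hω : ω.Nondegenerate) (halt : ω.IsAlt)
    {J : Submodule K (Module.End K V)} (hJ : ∀ y, IsSk ω y → ∀ x ∈ J, y * x - x * y ∈ J)
    {z : Module.End K V} (hz : z ∈ J) (hzs : IsSk ω z) (hz0 : z ≠ 0) {y : Module.End K V}
    (hy : IsSk ω y) : y ∈ J := by
  have hmem : ∀ v, ω v (z v) ≠ 0 → TT ω v ∈ J := by
    intro v hv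
    have h1 := hJ _ (TT_sk halt v) _ (hJ _ (TT_sk halt v) z hz)
    have e : TT ω v * (TT ω v * z - z * TT ω v) - (TT ω v * z - z * TT ω v) * TT ω v =
        (-2 * ω v (z v)) • TT ω v := by
      have : TT ω v * (TT ω v * z - z * TT ω v) - (TT ω v * z - z * TT ω v) * TT ω v =
          (TT ω v * TT ω v) * z + z * (TT ω v * TT ω v)
            - (TT ω v * z * TT ω v + TT ω v * z * TT ω v) := by noncomm_ring
      rw [this, TT_sq' halt, TT_mul_mul]
      simp only [zero_mul, mul_zero, add_zero, zero_sub]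
      module
    rw [e] at h1
    have h2 := J.smul_mem (-2 * ω v (z v))⁻¹ h1
    rwa [smul_smul, inv_mul_cancel₀ (mul_ne_zero (by norm_num) hv), one_smul] at h2
  have hB : ∀ a b, TT ω a ∈ J → ω a b ≠ 0 → BB ω a b ∈ J ∧ TT ω b ∈ J := by
    intro a b ha hab
    have hBJ : BB ω a b ∈ J := by
      have h1 := hJ _ (TT_sk halt b) _ ha
      rw [TT_comm halt] at h1
      have hba : ω b a ≠ 0 := by rw [← halt.neg_eq]; exact neg_ne_zero.mpr hab
      have h2 := J.smul_mem (ω b a)⁻¹ h1
      rw [smul_smul, inv_mul_cancel₀ hba, one_smul, BB_comm] at h2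
      exact h2
    refine ⟨hBJ, ?_⟩
    have h1 := hJ _ (TT_sk halt b) _ hBJ
    have e : TT ω b * BB ω a b - BB ω a b * TT ω b = (-2 * ω a b) • TT ω b := by
      ext w
      have h1 : ω b a = - ω a b := (halt.neg_eq a b).symm
      have h2 : ω b b = 0 := halt.self_eq_zero b
      simp only [LinearMap.sub_apply, Module.End.mul_apply, TT_apply, BB_apply, map_smul, map_add,
        LinearMap.smul_apply, h1, h2]
      module
    rw [e] at h1
    have h2 := J.smul_mem (-2 * ω a b)⁻¹ h1
    rwa [smul_smul, inv_mul_cancel₀ (mul_ne_zero (by norm_num) hab), one_smul] at h2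
  obtain ⟨a, ha⟩ := exists_quad_ne hω halt hzs hz0
  have haJ : TT ω a ∈ J := by
    apply hmem
    rw [← halt.neg_eq]
    exact neg_ne_zero.mpr ha
  have ha0 : a ≠ 0 := by
    rintro rfl; simp at ha
  have hall : ∀ b, TT ω b ∈ J := by
    intro b
    by_cases hb0 : b = 0
    · have : TT ω b = 0 := by ext w; rw [hb0, TT_apply]; simp
      rw [this]; exact J.zero_mem
    have hφ : ω a ≠ 0 := by
      intro h; exact ha0 (hω.1 a (fun y => by rw [h]; rfl))
    have hψ : ω b ≠ 0 := by
      intro h; exact hb0 (hω.1 b (fun y => by rw [h]; rfl))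
    obtain ⟨c, hc1, hc2⟩ : ∃ c, ω a c ≠ 0 ∧ ω b c ≠ 0 := by
      obtain ⟨x, hx⟩ : ∃ x, ω a x ≠ 0 := by
        by_contra hcon
        push Not at hcon
        exact hφ (LinearMap.ext hcon)
      obtain ⟨y, hy⟩ : ∃ y, ω b y ≠ 0 := by
        by_contra hcon
        push Not at hcon
        exact hψ (LinearMap.ext hcon)
      by_cases hx' : ω b x = 0
      · by_cases hy' : ω a y = 0
        · exact ⟨x + y, by rw [map_add, hy', add_zero]; exact hx, by
            rw [map_add, hx', zero_add]; exact hy⟩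
        · exact ⟨y, hy', hy⟩
      · exact ⟨x, hx, hx'⟩
    have h1 := (hB a c haJ hc1).2
    exact (hB c b h1 (by rw [← halt.neg_eq]; exact neg_ne_zero.mpr hc2)).2
  have hBall : ∀ u v, BB ω u v ∈ J := by
    intro u v
    have h1 := hall (u + (1 : K) • v)
    rw [TT_add_smul] at h1
    have h2 := J.sub_mem (J.sub_mem h1 (hall u)) (J.smul_mem (1 * 1 : K) (hall v))
    have e : TT ω u + (1 : K) • BB ω u v + (1 * 1 : K) • TT ω v - TT ω u - (1 * 1 : K) • TT ω v =
        BB ω u v := by module
    rwa [e] at h2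
  have h2 : (2 : K) • y ∈ J := by
    rw [← skew_expand hω halt hy]
    exact J.sum_mem fun i _ => hBall _ _
  have h3 := J.smul_mem (2 : K)⁻¹ h2
  rwa [smul_smul, inv_mul_cancel₀ two_ne_zero, one_smul] at h3

/-- Antisymmetry for rank one elements. -/
lemma rank_one_anti (halt : ω.IsAlt) (u v : V) {x : Module.End K V} (hx : IsSk ω x) (a b : K) :
    (a • TT ω u) * (b • TT ω v) * x * (a • TT ω u) +
      (a • TT ω u) * x * (b • TT ω v) * (a • TT ω u) = 0 := by
  ext w
  have h1 : ω v u = - ω u v := (halt.neg_eq u v).symm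
  have h2 : ω u (x v) = ω v (x u) := by
    have a1 := hx u v
    have a2 := halt.neg_eq (x u) v
    linear_combination a1 + a2
  simp only [LinearMap.add_apply, Module.End.mul_apply, LinearMap.smul_apply, TT_apply, map_smul,
    LinearMap.zero_apply, h1, h2, smul_smul]
  module

end single

end MTP
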