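import Pool.Agent.Helper21.MT.Gour

/-!
Goursat for symplectic Lie algebras: two factors.
-/

open Module

namespace MTP

section word
variable {K : Type*} [Field K] {V : Type*} [AddCommGroup V] [Module K V]

/-- A hyperbolic pair with scalar corners. -/
structure Wd (L : Submodule K (Module.End K V)) (e f : Module.End K V) : Prop where
  ee : e * e = 0
  ff : f * f = 0
  efe : e * f * e = e
  fef : f * e * f = f
  br : ∀ x ∈ L, ∀ y ∈ L, x * y - y * x ∈ L
  he : e ∈ L
  hf : f ∈ L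
  ext : ∀ x ∈ L, ∃ c : K, e * x * e = c • e
  anti : ∀ x ∈ L, e * f * x * e + e * x * f * e = 0

namespace Wd
variable {L : Submodule K (Module.End K V)} {e f : Module.End K V} (A : Wd L e f)
include A

lemma hyp : Hyp e f (1 - f * e) (f * e) := by
  have ee := A.ee
  have ff := A.ff
  have efe := A.efe
  have fef := A.fef
  have h1 : (f * e) * (f * e) = f * e := by rw [← mul_assoc, fef]
  exact
    { ee := ee
      ff := ff
      efe := efe
      fef := fef
      pe := by rw [sub_mul, one_mul, mul_assoc, ee, mul_zero, sub_zero]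
      eq := by rw [← mul_assoc, efe]
      qf := fef
      fp := by rw [mul_sub, mul_one, ← mul_assoc, ff, zero_mul, sub_zero]
      pq := by rw [sub_mul, one_mul, h1, sub_self]
      qp := by rw [mul_sub, mul_one, h1, sub_self]
      ppp := by rw [sub_mul, mul_sub, mul_sub, h1]; simp
      qqq := h1
      sum := by abel }

lemma corner [CharZero K] {x : Module.End K V} (hx : x ∈ L) :
    ∃ c : K, (e * f) * x * (e * f) = c • (e * f) := by
  obtain ⟨t, ht⟩ := A.ext (f * x - x * f) (A.br _ A.hf _ hx)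
  have hD := A.anti x hx
  refine ⟨2⁻¹ * t, ?_⟩
  have h2 : (2 : K) • (e * f * x * e) = t • e := by
    rw [← ht]
    have : e * (f * x - x * f) * e = e * f * x * e - e * x * f * e := by noncomm_ring
    rw [this]
    have h3 : e * x * f * e = -(e * f * x * e) := by
      rw [eq_neg_iff_add_eq_zero, add_comm]; exact hD
    rw [h3]; module
  have h4 : e * f * x * e = (2⁻¹ * t) • e := by
    calc e * f * x * e = (2 : K)⁻¹ • (2 : K) • (e * f * x * e) := by
          rw [smul_smul, inv_mul_cancel₀ two_ne_zero, one_smul]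
      _ = _ := by rw [h2, smul_smul]
  calc (e * f) * x * (e * f) = (e * f * x * e) * f := by noncomm_ring
    _ = _ := by rw [h4, smul_mul_assoc]

lemma weights [CharZero K] {z : Module.End K V} (hz : z ∈ L) :
    ∃ y ∈ L, (e * f) * y = 0 ∧ ∃ c : K, z * (e * f) = y * (e * f) + c • (e * f) := by
  have H := A.hyp
  have hD : ∀ z ∈ L, DD e f z ∈ L := fun z hz => A.br _ (A.br e A.he f A.hf) z hz
  obtain ⟨k, hk⟩ := A.corner hz
  obtain ⟨a, ha⟩ := A.ext z hz
  have hlow : (f * e) * z * (e * f) = a • f := by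
    calc (f * e) * z * (e * f) = f * (e * z * e) * f := by noncomm_ring
      _ = a • (f * e * f) := by rw [ha, mul_smul_comm, smul_mul_assoc]
      _ = _ := by rw [H.fef]
  have hff : f = (f * e) * f * (e * f) := by
    calc f = f * e * f := H.fef.symm
      _ = f * e * (f * e * f) := by rw [H.fef, H.fef]
      _ = _ := by noncomm_ring
  have hz' : z - a • f ∈ L := L.sub_mem hz (L.smul_mem _ A.hf)
  have hlow' : (f * e) * (z - a • f) * (e * f) = 0 := by
    rw [mul_sub, sub_mul, hlow, mul_smul_comm, smul_mul_assoc, ← hff, sub_self]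
  have hneg := H.neg_mem hD hz' hlow'
  refine ⟨a • f + ((1 - e * f - f * e) * (z - a • f) * (e * f)
    + (f * e) * (z - a • f) * (1 - e * f - f * e)), L.add_mem (L.smul_mem _ A.hf) hneg, ?_, k, ?_⟩
  · have h1 : (e * f) * f = 0 := by rw [mul_assoc, H.ff, mul_zero]
    have h2 := H.i10
    have h3 := H.i12
    generalize (1 - e * f - f * e) = c at *
    generalize hw : z - a • f = w at *
    calc (e * f) * (a • f + (c * w * (e * f) + (f * e) * w * c))
        = a • ((e * f) * f) + (((e * f) * c) * w * (e * f) + ((e * f) * (f * e)) * w * c) := by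
          simp only [mul_add, mul_smul_comm, mul_assoc]
      _ = 0 := by rw [h1, h2, h3]; simp
  · have h1 := H.i1
    have h01 := H.i01
    have hfE : f * (e * f) = f := by rw [← mul_assoc, H.fef]
    have hone : (e * f) + (1 - e * f - f * e) + (f * e) = 1 := by abel
    have hEf : (e * f) * f = 0 := by rw [mul_assoc, H.ff, mul_zero]
    have h4 : (e * f) * (z - a • f) * (e * f) = k • (e * f) := by
      rw [mul_sub, sub_mul, hk, mul_smul_comm, smul_mul_assoc, hEf]; simp
    have key : (z - a • f) * (e * f) = (1 - e * f - f * e) * (z - a • f) * (e * f)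
        + k • (e * f) := by
      calc (z - a • f) * (e * f) = ((e * f) + (1 - e * f - f * e) + (f * e)) * (z - a • f)
            * (e * f) := by rw [hone, one_mul]
        _ = (e * f) * (z - a • f) * (e * f) + (1 - e * f - f * e) * (z - a • f) * (e * f)
            + (f * e) * (z - a • f) * (e * f) := by
            generalize (1 - e * f - f * e) = c
            simp only [add_mul]
        _ = _ := by rw [h4, hlow']; abel
    have e5 : z * (e * f) = (z - a • f) * (e * f) + a • f := by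
      rw [sub_mul, smul_mul_assoc, hfE]; abel
    rw [e5, key]
    generalize hcc : (1 - e * f - f * e) = c at *
    generalize hw : z - a • f = w at *
    have e6 : (a • f + (c * w * (e * f) + (f * e) * w * c)) * (e * f)
        = a • (f * (e * f)) + (c * w * ((e * f) * (e * f)) + (f * e) * w * (c * (e * f))) := by
      simp only [add_mul, smul_mul_assoc, mul_assoc]
    rw [e6, hfE, h1, h01, mul_zero, add_zero]
    abel

lemma word [CharZero K] (n : ℕ)
    {w : Module.End K V} (hw : w ∈ L ^ n) : ∃ c : K, (e * f) * w * (e * f) = c • (e * f) := by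
  have H := A.hyp
  induction n generalizing w with
  | zero =>
    rw [pow_zero, Submodule.mem_one] at hw
    obtain ⟨c, rfl⟩ := hw
    refine ⟨c, ?_⟩
    rw [Algebra.algebraMap_eq_smul_one, mul_smul_comm, smul_mul_assoc, mul_one, H.i1]
  | succ n ih =>
    rw [pow_succ] at hw
    induction hw using Submodule.mul_induction_on' with
    | mem_mul_mem a ha z hz =>
      obtain ⟨y, hy, hEy, k, hk⟩ := A.weights hz
      obtain ⟨c1, hc1⟩ := ih (pow_comm_mem A.br n ha hy)
      obtain ⟨c2, hc2⟩ := ih ha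
      refine ⟨c1 + k * c2, ?_⟩
      calc (e * f) * (a * z) * (e * f) = (e * f) * a * (z * (e * f)) := by noncomm_ring
        _ = (e * f) * (a * y - y * a) * (e * f) + ((e * f) * y) * a * (e * f)
            + k • ((e * f) * a * (e * f)) := by
            rw [hk, mul_add, mul_smul_comm]; noncomm_ring
        _ = _ := by
            rw [hc1, hEy, hc2]
            simp only [zero_mul, add_zero]
            module
    | add a _ b _ ha hb =>
      obtain ⟨c1, hc1⟩ := ha
      obtain ⟨c2, hc2⟩ := hb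
      exact ⟨c1 + c2, by rw [mul_add, add_mul, hc1, hc2, add_smul]⟩

lemma word' [CharZero K] (n : ℕ) {w : Module.End K V} (hw : w ∈ L ^ n) :
    ∃ c : K, e * w * e = c • e := by
  have h1 : e * w ∈ L ^ (n + 1) := by
    rw [pow_succ']; exact Submodule.mul_mem_mul A.he hw
  obtain ⟨c, hc⟩ := A.word (n + 1) h1
  refine ⟨c, ?_⟩
  calc e * w * e = (e * f * e) * w * (e * f * e) := by rw [A.efe]
    _ = ((e * f) * (e * w) * (e * f)) * e := by noncomm_ring
    _ = c • (e * f * e) := by rw [hc, smul_mul_assoc]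
    _ = _ := by rw [A.efe]

end Wd

end word

section two
variable {K : Type*} [Field K] {V₁ V₂ : Type*} [AddCommGroup V₁] [Module K V₁]
  [AddCommGroup V₂] [Module K V₂] [FiniteDimensional K V₁] [FiniteDimensional K V₂]
variable {ω₁ : LinearMap.BilinForm K V₁} {ω₂ : LinearMap.BilinForm K V₂}

/-- The graph case of Goursat: the two modules are isomorphic. -/
theorem goursat_two [CharZero K] [Nontrivial V₁] [Nontrivial V₂]
    (hω₁ : ω₁.Nondegenerate) (halt₁ : ω₁.IsAlt) (hω₂ : ω₂.Nondegenerate) (halt₂ : ω₂.IsAlt)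
    (L : Submodule K (Module.End K V₁ × Module.End K V₂))
    (hbr : ∀ x ∈ L, ∀ y ∈ L, x * y - y * x ∈ L)
    (hs₁ : ∀ x ∈ L, IsSk ω₁ x.1) (hs₂ : ∀ x ∈ L, IsSk ω₂ x.2)
    (hp₁ : ∀ z, IsSk ω₁ z → ∃ x ∈ L, x.1 = z) (hp₂ : ∀ z, IsSk ω₂ z → ∃ x ∈ L, x.2 = z)
    (hker : ∀ x ∈ L, x.1 = 0 → x.2 = 0) :
    ∃ e : V₁ ≃ₗ[K] V₂, ∀ x ∈ L, ∀ v, e (x.1 v) = x.2 (e v) := by
  -- the other kernel vanishes as well
  have hker' : ∀ x ∈ L, x.2 = 0 → x.1 = 0 := by
    intro x hx hx2
    by_contra hx1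
    let J : Submodule K (Module.End K V₁) :=
      { carrier := {z | ∃ x ∈ L, x.2 = 0 ∧ x.1 = z}
        add_mem' := by
          rintro a b ⟨x, hx, hx2, rfl⟩ ⟨y, hy, hy2, rfl⟩
          exact ⟨x + y, L.add_mem hx hy, by rw [Prod.snd_add, hx2, hy2, add_zero], rfl⟩
        zero_mem' := ⟨0, L.zero_mem, rfl, rfl⟩
        smul_mem' := by
          rintro c a ⟨x, hx, hx2, rfl⟩
          exact ⟨c • x, L.smul_mem c hx, by rw [Prod.smul_snd, hx2, smul_zero], rfl⟩ }
    have hJ : ∀ y, IsSk ω₁ y → ∀ x ∈ J, y * x - x * y ∈ J := by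
      rintro y hy z ⟨x, hx, hx2, rfl⟩
      obtain ⟨y', hy', rfl⟩ := hp₁ y hy
      refine ⟨y' * x - x * y', hbr _ hy' _ hx, ?_, rfl⟩
      rw [Prod.snd_sub, Prod.snd_mul, Prod.snd_mul, hx2]; simp
    have hall : ∀ y ∈ L, y.2 = 0 := by
      intro y hy
      have h1 : y.1 ∈ J := sp_simple hω₁ halt₁ hJ ⟨x, hx, hx2, rfl⟩ (hs₁ x hx) hx1 (hs₁ y hy)
      obtain ⟨y', hy', hy2, hy1⟩ := h1
      have h2 := hker (y - y') (L.sub_mem hy hy') (by rw [Prod.fst_sub, hy1, sub_self])
      rw [Prod.snd_sub, hy2, sub_zero] at h2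
      exact h2
    obtain ⟨u, hu⟩ := exists_ne (0 : V₂)
    obtain ⟨w, hw⟩ : ∃ w, ω₂ u w ≠ 0 := by
      by_contra hcon
      push Not at hcon
      exact hu (hω₂.1 u hcon)
    obtain ⟨y, hy, hyu⟩ := hp₂ _ (TT_sk halt₂ u)
    have h1 := LinearMap.congr_fun (hall y hy) w
    rw [hyu, TT_apply, LinearMap.zero_apply, smul_eq_zero] at h1
    rcases h1 with h1 | h1
    · exact hw h1
    · exact hu h1
  -- the pair in the first factor
  obtain ⟨u, hu⟩ := exists_ne (0 : V₁)
  obtain ⟨v, hv⟩ : ∃ v, ω₁ u v ≠ 0 := by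
    by_contra hcon
    push Not at hcon
    exact hu (hω₁.1 u hcon)
  set κ := ω₁ u v with hκ
  have hvu : ω₁ v u = -κ := (halt₁.neg_eq u v).symm
  obtain ⟨x, hx, hx1⟩ := hp₁ _ (TT_sk halt₁ u)
  obtain ⟨y', hy', hy1'⟩ := hp₁ _ (TT_sk halt₁ v)
  set y := (-(κ * κ)⁻¹) • y' with hy
  have hyL : y ∈ L := L.smul_mem _ hy'
  have hy1 : y.1 = (-(κ * κ)⁻¹) • TT ω₁ v := by rw [hy, Prod.smul_fst, hy1']
  have hκκ : κ * κ ≠ 0 := mul_ne_zero hv hv
  have a1 : x.1 * x.1 = 0 := by rw [hx1, TT_sq' halt₁]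
  have a2 : y.1 * y.1 = 0 := by
    rw [hy1, smul_mul_assoc, mul_smul_comm, TT_sq' halt₁]; simp
  have a3 : x.1 * y.1 * x.1 = x.1 := by
    rw [hx1, hy1, mul_smul_comm, smul_mul_assoc, TT_mul_mul, TT_apply, map_smul, hvu, ← hκ,
      smul_smul, smul_eq_mul]
    have : -(κ * κ)⁻¹ * (-κ * κ) = 1 := by field_simp
    rw [this, one_smul]
  have a4 : y.1 * x.1 * y.1 = y.1 := by
    rw [hx1, hy1, mul_smul_comm, smul_mul_assoc, smul_mul_assoc, TT_mul_mul, TT_apply, map_smul,
      hvu, ← hκ, smul_smul, smul_smul, smul_eq_mul]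
    congr 1
    field_simp
  -- transfer of identities
  have htr : ∀ z ∈ L, ∀ c : K, ∀ z' ∈ L, z.1 = c • z'.1 → z.2 = c • z'.2 := by
    intro z hz c z' hz' h
    have h1 := hker (z - c • z') (L.sub_mem hz (L.smul_mem _ hz')) (by
      rw [Prod.fst_sub, Prod.smul_fst, h, sub_self])
    rw [Prod.snd_sub, Prod.smul_snd, sub_eq_zero] at h1
    exact h1
  -- double commutators
  have hdc : ∀ a ∈ L, a.1 * a.1 = 0 → ∀ z ∈ L, ∀ c : K, a.1 * z.1 * a.1 = c • a.1 →
      a.2 * (a.2 * z.2 - z.2 * a.2) - (a.2 * z.2 - z.2 * a.2) * a.2 = (-2 * c) • a.2 := by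
    intro a ha haa z hz c hc
    have h1 := htr _ (hbr _ ha _ (hbr _ ha _ hz)) (-2 * c) a ha (by
      have : (a * (a * z - z * a) - (a * z - z * a) * a).1 =
        (a.1 * a.1) * z.1 + z.1 * (a.1 * a.1) - (a.1 * z.1 * a.1 + a.1 * z.1 * a.1) := by
        simp only [Prod.fst_sub, Prod.fst_mul]
        noncomm_ring
      rw [this, haa, hc]
      simp only [zero_mul, mul_zero, add_zero, zero_sub]
      module)
    simpa using h1
  have hx2ne : x.2 ≠ 0 := by
    intro h
    have h1 := hker' x hx h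
    rw [hx1] at h1
    have h2 := LinearMap.congr_fun h1 v
    rw [TT_apply, LinearMap.zero_apply, smul_eq_zero] at h2
    rcases h2 with h2 | h2
    · exact hv h2
    · exact hu h2
  have hy2ne : y.2 ≠ 0 := by
    intro h
    have h1 := hker' y hyL h
    rw [h1, mul_zero, zero_mul] at a3
    have h3 : x.2 = 0 := hker x hx a3.symm
    exact hx2ne h3
  have hextx : ∀ z ∈ L, ∃ c : K, x.1 * z.1 * x.1 = c • x.1 := by
    intro z _
    exact ⟨_, by rw [hx1, TT_mul_mul]⟩
  have hexty : ∀ z ∈ L, ∃ c : K, y.1 * z.1 * y.1 = c • y.1 := by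
    intro z _
    refine ⟨-(κ * κ)⁻¹ * ω₁ v (z.1 v), ?_⟩
    rw [hy1, smul_mul_assoc, smul_mul_assoc, mul_smul_comm, TT_mul_mul, smul_smul, smul_smul,
      smul_smul]
    congr 1
    ring
  obtain ⟨u2, hu2, c2, hc2, hx2⟩ := extremal_form hω₂ halt₂ (hs₂ x hx) hx2ne (by
    intro v
    obtain ⟨z, hz, hzv⟩ := hp₂ _ (TT_sk halt₂ v)
    obtain ⟨c, hc⟩ := hextx z hz
    refine ⟨-2 * c, ?_⟩
    rw [← hzv]
    exact hdc x hx a1 z hz c hc)
  obtain ⟨v2, hv2, d2, hd2, hy2⟩ := extremal_form hω₂ halt₂ (hs₂ y hyL) hy2ne (by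
    intro v
    obtain ⟨z, hz, hzv⟩ := hp₂ _ (TT_sk halt₂ v)
    obtain ⟨c, hc⟩ := hexty z hz
    refine ⟨-2 * c, ?_⟩
    rw [← hzv]
    exact hdc y hyL a2 z hz c hc)
  have b1 : x.2 * x.2 = 0 := by
    rw [hx2, smul_mul_assoc, mul_smul_comm, TT_sq' halt₂]; simp
  have b2 : y.2 * y.2 = 0 := by
    rw [hy2, smul_mul_assoc, mul_smul_comm, TT_sq' halt₂]; simp
  -- sandwiches in the second factor
  have hsw : ∀ a ∈ L, a.1 * a.1 = 0 → a.2 * a.2 = 0 → ∀ z ∈ L, ∀ c : K,
      a.1 * z.1 * a.1 = c • a.1 → a.2 * z.2 * a.2 = c • a.2 := by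
    intro a ha haa haa2 z hz c hc
    have h1 := hdc a ha haa z hz c hc
    have e1 : a.2 * (a.2 * z.2 - z.2 * a.2) - (a.2 * z.2 - z.2 * a.2) * a.2 =
        (a.2 * a.2) * z.2 + z.2 * (a.2 * a.2) - (2 : K) • (a.2 * z.2 * a.2) := by
      rw [two_smul]; noncomm_ring
    rw [e1, haa2] at h1
    simp only [zero_mul, mul_zero, add_zero, zero_sub] at h1
    have h2 : a.2 * z.2 * a.2 = (-(2 : K)⁻¹) • -((2 : K) • (a.2 * z.2 * a.2)) := by
      rw [smul_neg, neg_smul, neg_neg, smul_smul, inv_mul_cancel₀ two_ne_zero, one_smul]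
    rw [h2, h1, smul_smul]
    congr 1
    field_simp
  have b3 : x.2 * y.2 * x.2 = x.2 := by
    have := hsw x hx a1 b1 y hyL 1 (by rw [one_smul]; exact a3)
    rwa [one_smul] at this
  have b4 : y.2 * x.2 * y.2 = y.2 := by
    have := hsw y hyL a2 b2 x hx 1 (by rw [one_smul]; exact a4)
    rwa [one_smul] at this
  -- the big space
  let Φ := LinearMap.prodMapAlgHom K V₁ V₂
  have hΦ : ∀ (z : Module.End K V₁ × Module.End K V₂) (w : V₁ × V₂),
      Φ z w = (z.1 w.1, z.2 w.2) := fun z w => rfl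
  have hΦeq : ∀ (a b : Module.End K V₁ × Module.End K V₂), a.1 = b.1 → a.2 = b.2 →
      Φ a = Φ b := by
    intro a b h1 h2
    rw [Prod.ext h1 h2]
  set LL := L.map Φ.toLinearMap with hLL
  have A : Wd LL (Φ x) (Φ y) := by
    refine ⟨?_, ?_, ?_, ?_, ?_, ⟨x, hx, rfl⟩, ⟨y, hyL, rfl⟩, ?_, ?_⟩
    · rw [← map_mul, ← map_zero Φ]; exact hΦeq _ _ a1 b1
    · rw [← map_mul, ← map_zero Φ]; exact hΦeq _ _ a2 b2
    · rw [← map_mul, ← map_mul]; exact hΦeq _ _ a3 b3
    · rw [← map_mul, ← map_mul]; exact hΦeq _ _ a4 b4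
    · rintro _ ⟨a, ha, rfl⟩ _ ⟨b, hb, rfl⟩
      exact ⟨a * b - b * a, hbr a ha b hb, by simp⟩
    · rintro _ ⟨z, hz, rfl⟩
      obtain ⟨c, hc⟩ := hextx z hz
      refine ⟨c, ?_⟩
      change Φ x * Φ z * Φ x = c • Φ x
      rw [← map_mul, ← map_mul, ← map_smul]
      exact hΦeq _ _ hc (hsw x hx a1 b1 z hz c hc)
    · rintro _ ⟨z, hz, rfl⟩
      change Φ x * Φ y * Φ z * Φ x + Φ x * Φ z * Φ y * Φ x = 0
      rw [← map_mul, ← map_mul, ← map_mul, ← map_mul, ← map_mul, ← map_mul, ← map_add,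
        ← map_zero Φ]
      apply hΦeq
      · have := rank_one_anti halt₁ u v (hs₁ z hz) 1 (-(κ * κ)⁻¹)
        rw [one_smul, ← hx1, ← hy1] at this
        exact this
      · have := rank_one_anti halt₂ u2 v2 (hs₂ z hz) c2 d2
        rw [← hx2, ← hy2] at this
        exact this
  -- the graph
  obtain ⟨u', hu'⟩ : ∃ u', x.1 u' ≠ 0 := by
    refine ⟨v, ?_⟩
    rw [hx1, TT_apply]
    exact smul_ne_zero hv hu
  obtain ⟨w', hw'⟩ : ∃ w', x.2 w' ≠ 0 := by
    by_contra hcon
    push Not at hcon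
    exact hx2ne (LinearMap.ext hcon)
  set g0 : V₁ × V₂ := Φ x (u', w') with hg0
  let Gr : Submodule K (V₁ × V₂) :=
    { carrier := {v | ∀ n, ∀ w ∈ LL ^ n, ∃ c : K, Φ x (w v) = c • g0}
      add_mem' := by
        intro a b ha hb n w hw
        obtain ⟨c1, hc1⟩ := ha n w hw
        obtain ⟨c2, hc2⟩ := hb n w hw
        exact ⟨c1 + c2, by rw [map_add, map_add, hc1, hc2, add_smul]⟩
      zero_mem' := by
        intro n w _
        exact ⟨0, by simp⟩
      smul_mem' := by
        intro c a ha n w hw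
        obtain ⟨c1, hc1⟩ := ha n w hw
        exact ⟨c * c1, by rw [map_smul, map_smul, hc1, smul_smul]⟩ }
  have hGrs : ∀ z ∈ L, ∀ v ∈ Gr, Φ z v ∈ Gr := by
    intro z hz v hv n w hw
    have := hv (n + 1) (w * Φ z) (by
      rw [pow_succ]; exact Submodule.mul_mem_mul hw ⟨z, hz, rfl⟩)
    simpa using this
  have hg0mem : g0 ∈ Gr := by
    intro n w hw
    obtain ⟨c, hc⟩ := A.word' n hw
    refine ⟨c, ?_⟩
    have := LinearMap.congr_fun hc (u', w')
    simpa using this
  have hone : ∀ v ∈ Gr, ∃ c : K, Φ x v = c • g0 := by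
    intro v hv
    have := hv 0 1 (by rw [pow_zero]; exact Submodule.one_le.mp le_rfl)
    simpa using this
  have hk1 : ∀ v, ((v, 0) : V₁ × V₂) ∈ Gr → v = 0 := by
    let U : Submodule K V₁ := Gr.comap (LinearMap.inl K V₁ V₂)
    have hU : U = ⊥ ∨ U = ⊤ := by
      apply sp_irr hω₁ halt₁
      intro z hz w hw
      obtain ⟨z', hz', rfl⟩ := hp₁ z hz
      have := hGrs z' hz' _ hw
      rw [hΦ] at this
      simpa [U] using this
    rcases hU with hU | hU
    · intro v hv
      have : v ∈ U := hv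
      rw [hU] at this
      exact this
    · exfalso
      have h1 : (u' : V₁) ∈ U := by rw [hU]; trivial
      obtain ⟨c, hc⟩ := hone _ h1
      have h2 := congrArg Prod.snd hc
      have h3 := congrArg Prod.fst hc
      rw [hΦ] at h2 h3
      simp only [LinearMap.coe_inl, map_zero] at h2 h3
      rw [Prod.smul_snd, hg0, hΦ] at h2
      rw [Prod.smul_fst, hg0, hΦ] at h3
      have hc0 : c = 0 := by
        rcases smul_eq_zero.mp h2.symm with h | h
        · exact h
        · exact absurd h hw'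
      rw [hc0, zero_smul] at h3
      exact hu' h3
  have hk2 : ∀ v, ((0, v) : V₁ × V₂) ∈ Gr → v = 0 := by
    let U : Submodule K V₂ := Gr.comap (LinearMap.inr K V₁ V₂)
    have hU : U = ⊥ ∨ U = ⊤ := by
      apply sp_irr hω₂ halt₂
      intro z hz w hw
      obtain ⟨z', hz', rfl⟩ := hp₂ z hz
      have := hGrs z' hz' _ hw
      rw [hΦ] at this
      simpa [U] using this
    rcases hU with hU | hU
    · intro v hv
      have : v ∈ U := hv
      rw [hU] at this
      exact this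
    · exfalso
      have h1 : (w' : V₂) ∈ U := by rw [hU]; trivial
      obtain ⟨c, hc⟩ := hone _ h1
      have h2 := congrArg Prod.snd hc
      have h3 := congrArg Prod.fst hc
      rw [hΦ] at h2 h3
      simp only [LinearMap.coe_inr, map_zero] at h2 h3
      rw [Prod.smul_snd, hg0, hΦ] at h2
      rw [Prod.smul_fst, hg0, hΦ] at h3
      have hc0 : c = 0 := by
        rcases smul_eq_zero.mp h3.symm with h | h
        · exact h
        · exact absurd h hu'
      rw [hc0, zero_smul] at h2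
      exact hw' h2
  -- the two projections of the graph are isomorphisms
  let P1 : Gr →ₗ[K] V₁ := (LinearMap.fst K V₁ V₂) ∘ₗ Gr.subtype
  let P2 : Gr →ₗ[K] V₂ := (LinearMap.snd K V₁ V₂) ∘ₗ Gr.subtype
  have hP1i : Function.Injective P1 := by
    rw [injective_iff_map_eq_zero]
    rintro ⟨⟨a, b⟩, hab⟩ h
    have ha : a = 0 := h
    subst ha
    have hb := hk2 b hab
    subst hb
    rfl
  have hP2i : Function.Injective P2 := by
    rw [injective_iff_map_eq_zero]
    rintro ⟨⟨a, b⟩, hab⟩ h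
    have hb : b = 0 := h
    subst hb
    have ha := hk1 a hab
    subst ha
    rfl
  have hP1s : Function.Surjective P1 := by
    rw [← LinearMap.range_eq_top]
    rcases sp_irr hω₁ halt₁ (U := LinearMap.range P1) (by
      rintro z hz _ ⟨w, rfl⟩
      obtain ⟨z', hz', rfl⟩ := hp₁ z hz
      exact ⟨⟨Φ z' w, hGrs z' hz' _ w.2⟩, rfl⟩) with h | h
    · exfalso
      have h1 : (x.1 u') ∈ LinearMap.range P1 := ⟨⟨g0, hg0mem⟩, rfl⟩
      rw [h, Submodule.mem_bot] at h1
      exact hu' h1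
    · exact h
  have hP2s : Function.Surjective P2 := by
    rw [← LinearMap.range_eq_top]
    rcases sp_irr hω₂ halt₂ (U := LinearMap.range P2) (by
      rintro z hz _ ⟨w, rfl⟩
      obtain ⟨z', hz', rfl⟩ := hp₂ z hz
      exact ⟨⟨Φ z' w, hGrs z' hz' _ w.2⟩, rfl⟩) with h | h
    · exfalso
      have h1 : (x.2 w') ∈ LinearMap.range P2 := ⟨⟨g0, hg0mem⟩, rfl⟩
      rw [h, Submodule.mem_bot] at h1
      exact hw' h1
    · exact h
  refine ⟨(LinearEquiv.ofBijective P1 ⟨hP1i, hP1s⟩).symm.trans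
    (LinearEquiv.ofBijective P2 ⟨hP2i, hP2s⟩), ?_⟩
  intro z hz v
  obtain ⟨w, hw⟩ := hP1s v
  have e1 : (LinearEquiv.ofBijective P1 ⟨hP1i, hP1s⟩).symm v = w := by
    rw [LinearEquiv.symm_apply_eq]; exact hw.symm
  have e2 : (LinearEquiv.ofBijective P1 ⟨hP1i, hP1s⟩).symm (z.1 v) =
      ⟨Φ z w, hGrs z hz _ w.2⟩ := by
    rw [LinearEquiv.symm_apply_eq]
    change z.1 v = z.1 (w : V₁ × V₂).1
    have : v = (w : V₁ × V₂).1 := hw.symm
    rw [this]
  rw [LinearEquiv.trans_apply, LinearEquiv.trans_apply, e1, e2]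
  rfl

end two

end MTP
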