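import Pool.Agent.Helper21.MT.Sp

/-!
The symplectic group is generated by transvections.
-/

open Module

namespace MTP

variable {K : Type*} [Field K] {V : Type*} [AddCommGroup V] [Module K V] [FiniteDimensional K V]
variable {ω : LinearMap.BilinForm K V}

omit [FiniteDimensional K V] in
lemma TT_sq (halt : ω.IsAlt) (u : V) : TT ω u * TT ω u = 0 := by
  ext z
  rw [Module.End.mul_apply, TT_apply, TT_apply, map_smul, halt.self_eq_zero, smul_zero, zero_smul]
  rfl

omit [FiniteDimensional K V] in
lemma transv_mul (halt : ω.IsAlt) (u : V) (c : K) :
    (1 + c • TT ω u) * (1 - c • TT ω u) = 1 := by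
  simp only [smul_mul_assoc, mul_smul_comm, mul_sub, add_mul, mul_one, one_mul, TT_sq halt]
  simp

/-- Two nonzero linear forms are simultaneously nonzero at some vector. -/
lemma exists_both_ne {φ ψ : V →ₗ[K] K} (h1 : φ ≠ 0) (h2 : ψ ≠ 0) :
    ∃ w, φ w ≠ 0 ∧ ψ w ≠ 0 := by
  obtain ⟨a, ha⟩ : ∃ a, φ a ≠ 0 := by
    by_contra hcon
    push Not at hcon
    exact h1 (LinearMap.ext hcon)
  obtain ⟨b, hb⟩ : ∃ b, ψ b ≠ 0 := by
    by_contra hcon
    push Not at hcon
    exact h2 (LinearMap.ext hcon)
  by_cases ha' : ψ a = 0
  · by_cases hb' : φ b = 0
    · exact ⟨a + b, by rw [map_add, hb', add_zero]; exact ha, by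
        rw [map_add, ha', zero_add]; exact hb⟩
    · exact ⟨b, hb', hb⟩
  · exact ⟨a, ha, ha'⟩

/-- **Generation by transvections.** -/
theorem sp_mem_of_transvections (hω : ω.Nondegenerate) (halt : ω.IsAlt)
    (M : Submonoid (Module.End K V)) (hT : ∀ (c : K) (u : V), 1 + c • TT ω u ∈ M)
    {g : Module.End K V} (hg : ∀ v w, ω (g v) (g w) = ω v w) : g ∈ M := by
  -- the element `t⁻¹ g` fixes more vectors
  have stepA : ∀ n, (∀ g : Module.End K V, (∀ v w, ω (g v) (g w) = ω v w) →
      finrank K V - finrank K (LinearMap.ker (g - 1)) < n → g ∈ M) →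
      ∀ g : Module.End K V, (∀ v w, ω (g v) (g w) = ω v w) →
      finrank K V - finrank K (LinearMap.ker (g - 1)) = n → (∃ v, ω (g v) v ≠ 0) → g ∈ M := by
    rintro n ih g hg hn ⟨v, hv⟩
    set a := g v - v with ha
    have hav : ω a v = ω (g v) v := by
      rw [ha, map_sub, LinearMap.sub_apply, halt.self_eq_zero, sub_zero]
    set c := (ω a v)⁻¹ with hc
    have hinv := transv_mul halt a c
    have hpres : ∀ x y, ω ((1 - c • TT ω a) x) ((1 - c • TT ω a) y) = ω x y := by
      intro x y
      have h1 : ω x a = - ω a x := (halt.neg_eq a x).symm
      simp only [LinearMap.sub_apply, Module.End.one_apply, LinearMap.smul_apply, TT_apply,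
        map_sub, map_smul, smul_eq_mul, h1, halt.self_eq_zero]
      ring
    have hker : ∀ z, g z = z → ω a z = 0 := by
      intro z hz
      have := hg v z
      rw [hz] at this
      rw [ha, map_sub, LinearMap.sub_apply, this, sub_self]
    have hmem : (1 - c • TT ω a) * g ∈ M := by
      apply ih
      · intro x y
        rw [Module.End.mul_apply, Module.End.mul_apply, hpres, hg]
      · have hlt : LinearMap.ker (g - 1) < LinearMap.ker ((1 - c • TT ω a) * g - 1) := by
          rw [SetLike.lt_iff_le_and_exists]
          constructor
          · intro z hz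
            rw [LinearMap.mem_ker, LinearMap.sub_apply, Module.End.one_apply, sub_eq_zero] at hz ⊢
            rw [Module.End.mul_apply, hz, LinearMap.sub_apply, Module.End.one_apply,
              LinearMap.smul_apply, TT_apply, hker z hz, zero_smul, smul_zero, sub_zero]
          · refine ⟨v, ?_, ?_⟩
            · rw [LinearMap.mem_ker, LinearMap.sub_apply, Module.End.one_apply, sub_eq_zero]
              have h1 : ω a (g v) = ω a v := by
                have : g v = a + v := by rw [ha]; abel
                rw [this, map_add, halt.self_eq_zero, zero_add]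
              rw [Module.End.mul_apply, LinearMap.sub_apply, Module.End.one_apply,
                LinearMap.smul_apply, TT_apply, h1, smul_smul, hc,
                inv_mul_cancel₀ (by rw [hav]; exact hv), one_smul, ha]
              abel
            · intro h
              rw [LinearMap.mem_ker, LinearMap.sub_apply, Module.End.one_apply, sub_eq_zero] at h
              rw [h, halt.self_eq_zero] at hv
              exact hv rfl
        have h1 := Submodule.finrank_lt_finrank_of_lt hlt
        have h2 := Submodule.finrank_le (LinearMap.ker ((1 - c • TT ω a) * g - 1))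
        omega
    have : g = (1 + c • TT ω a) * ((1 - c • TT ω a) * g) := by
      rw [← mul_assoc, hinv, one_mul]
    rw [this]
    exact M.mul_mem (hT c a) hmem
  have main : ∀ n, ∀ g : Module.End K V, (∀ v w, ω (g v) (g w) = ω v w) →
      finrank K V - finrank K (LinearMap.ker (g - 1)) = n → g ∈ M := by
    intro n
    induction n using Nat.strong_induction_on with
    | _ n ih =>
      intro g hg hn
      have ih' : ∀ g : Module.End K V, (∀ v w, ω (g v) (g w) = ω v w) →
          finrank K V - finrank K (LinearMap.ker (g - 1)) < n → g ∈ M := by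
        intro g' hg' hlt
        exact ih _ hlt g' hg' rfl
      by_cases h1 : g = 1
      · rw [h1]; exact M.one_mem
      by_cases hA : ∃ v, ω (g v) v ≠ 0
      · exact stepA n ih' g hg hn hA
      push Not at hA
      obtain ⟨v, hv⟩ : ∃ v, g v ≠ v := by
        by_contra hcon
        push Not at hcon
        exact h1 (LinearMap.ext hcon)
      set b := g v - v with hb
      have hb0 : b ≠ 0 := sub_ne_zero.mpr hv
      have hker : ∀ z, g z = z → ω b z = 0 := by
        intro z hz
        have := hg v z
        rw [hz] at this
        rw [hb, map_sub, LinearMap.sub_apply, this, sub_self]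
      have hginj : Function.Injective g := by
        rw [← LinearMap.ker_eq_bot, LinearMap.ker_eq_bot']
        intro x hx
        apply hω.1 x
        intro y
        rw [← hg, hx, map_zero, LinearMap.zero_apply]
      have hgsurj : Function.Surjective g := LinearMap.surjective_of_injective hginj
      have hφ : ω b ≠ 0 := by
        intro h
        exact hb0 (hω.1 b (fun y => by rw [h]; rfl))
      have hψ : (ω b) ∘ₗ g ≠ 0 := by
        intro h
        apply hφ
        ext y
        obtain ⟨y', rfl⟩ := hgsurj y
        exact LinearMap.congr_fun h y'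
      obtain ⟨w, hw1, hw2⟩ := exists_both_ne hφ hψ
      rw [LinearMap.comp_apply] at hw2
      have hpres : ∀ x y, ω ((1 + (1 : K) • TT ω b) x) ((1 + (1 : K) • TT ω b) y) = ω x y := by
        intro x y
        have h1 : ω x b = - ω b x := (halt.neg_eq b x).symm
        simp only [LinearMap.add_apply, Module.End.one_apply, LinearMap.smul_apply, TT_apply,
          map_add, map_smul, smul_eq_mul, h1, halt.self_eq_zero, one_mul]
        ring
      set g' := (1 + (1 : K) • TT ω b) * g with hg'
      have hg'pres : ∀ x y, ω (g' x) (g' y) = ω x y := by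
        intro x y
        rw [hg', Module.End.mul_apply, Module.End.mul_apply, hpres, hg]
      have hle : LinearMap.ker (g - 1) ≤ LinearMap.ker (g' - 1) := by
        intro z hz
        rw [LinearMap.mem_ker, LinearMap.sub_apply, Module.End.one_apply, sub_eq_zero] at hz ⊢
        rw [hg', Module.End.mul_apply, hz, LinearMap.add_apply, Module.End.one_apply,
          LinearMap.smul_apply, TT_apply, hker z hz, zero_smul, smul_zero, add_zero]
      have hg'w : ω (g' w) w ≠ 0 := by
        rw [hg', Module.End.mul_apply, LinearMap.add_apply, Module.End.one_apply,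
          LinearMap.smul_apply, TT_apply, map_add, map_smul, LinearMap.add_apply,
          LinearMap.smul_apply, map_smul, LinearMap.smul_apply, hA, zero_add, one_smul, smul_eq_mul]
        exact mul_ne_zero hw2 hw1
      have hmem : g' ∈ M := by
        have h2 := Submodule.finrank_mono hle
        rcases Nat.lt_or_ge (finrank K V - finrank K (LinearMap.ker (g' - 1))) n with hlt | hge
        · exact ih' g' hg'pres hlt
        · have : finrank K V - finrank K (LinearMap.ker (g' - 1)) = n := by omega
          exact stepA n ih' g' hg'pres this ⟨w, hg'w⟩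
      have hinv : (1 + (-1 : K) • TT ω b) * (1 + (1 : K) • TT ω b) = 1 := by
        simp only [smul_mul_assoc, mul_smul_comm, mul_add, add_mul, mul_one, one_mul,
          TT_sq halt]
        simp
      have : g = (1 + (-1 : K) • TT ω b) * g' := by
        rw [hg', ← mul_assoc, hinv, one_mul]
      rw [this]
      exact M.mul_mem (hT (-1) b) hmem
  exact main _ g hg rfl

end MTP
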