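import Pool.Agent.Helper21.MT.Norm
import Pool.Agent.Helper21.MT.Transv
import Pool.Agent.Helper21.MT.Zar

/-!
Closed groups generated by cocharacters of weights zero and one, inside a product of groups of
symplectic similitudes: the Lie algebra generated by the corresponding involutions.
-/

open Module

namespace MTP

section one
variable {K : Type*} [Field K] {V : Type*} [AddCommGroup V] [Module K V]
variable {ω : LinearMap.BilinForm K V}

lemma four {π : Module.End K V} (hπ : π * π = π) {c : K}
    (h : ∀ v w, ω ((1 + π) v) ((1 + π) w) = c * ω v w) (v w : V) :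
    (c - 4) * ω (π v) (π w) = 0 ∧ (c - 2) * ω (π v) (w - π w) = 0 ∧
    (c - 2) * ω (v - π v) (π w) = 0 ∧ (c - 1) * ω (v - π v) (w - π w) = 0 := by
  have hp : ∀ v, π (π v) = π v := fun v => LinearMap.congr_fun hπ v
  have h1 := h (π v) (π w)
  have h2 := h (π v) (w - π w)
  have h3 := h (v - π v) (π w)
  have h4 := h (v - π v) (w - π w)
  simp only [LinearMap.add_apply, Module.End.one_apply, map_add, map_sub, hp,
    LinearMap.sub_apply] at h1 h2 h3 h4 ⊢
  refine ⟨?_, ?_, ?_, ?_⟩
  · linear_combination -h1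
  · linear_combination -h2
  · linear_combination -h3
  · linear_combination -h4

end one

variable {K : Type*} [Field K] {ι : Type*} [Fintype ι] [DecidableEq ι] {W : ι → Type*}
  [∀ j, AddCommGroup (W j)] [∀ j, Module K (W j)] [∀ j, FiniteDimensional K (W j)]
  {σ : Type*} [Fintype σ]

/-- The hypotheses of the group theorem, in abstract form. -/
structure GrpData (ω : ∀ j, LinearMap.BilinForm K (W j))
    (b : Basis σ K (∀ j, Module.End K (W j))) (G : Set (∀ j, Module.End K (W j))) : Prop where
  nd : ∀ j, (ω j).Nondegenerate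
  alt : ∀ j, (ω j).IsAlt
  one : 1 ∈ G
  mul : ∀ g ∈ G, ∀ h ∈ G, g * h ∈ G
  inv : ∀ g ∈ G, ∃ h ∈ G, g * h = 1 ∧ h * g = 1
  closed : ∀ g h, g * h = 1 →
    (∀ p : MvPolynomial σ K, (∀ x ∈ G, ev b x p = 0) → ev b g p = 0) → g ∈ G
  sim : ∀ g ∈ G, ∃ c : K, ∀ j v w, ω j (g j v) (g j w) = c * ω j v w
  gen : ∀ M : Subalgebra K (∀ j, Module.End K (W j)),
    (∀ π, π * π = π → (∀ t : K, t ≠ 0 → 1 + (t - 1) • π ∈ G) → π ∈ M) → ∀ g ∈ G, g ∈ M
  irr : ∀ j (W' : Submodule K (W j)), (∀ g ∈ G, ∀ w ∈ W', g j w ∈ W') → W' = ⊥ ∨ W' = ⊤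
  ne : ∀ i j, i ≠ j → ¬ ∃ e : W i ≃ₗ[K] W j, ∀ g ∈ G, ∀ v, e (g i v) = g j (e v)
  quad : ∀ j, ∃ u ∈ G, (u j - 1) * (u j - 1) = 0 ∧
    (Odd (rk (u j - 1)) ∨ rk (u j - 1) = 2)

namespace GrpData
variable {ω : ∀ j, LinearMap.BilinForm K (W j)} {b : Basis σ K (∀ j, Module.End K (W j))}
  {G : Set (∀ j, Module.End K (W j))} (D : GrpData ω b G)

/-- The cocharacters with weights zero and one whose involution is infinitesimally
symplectic. -/
def Lag (ω : ∀ j, LinearMap.BilinForm K (W j)) (G : Set (∀ j, Module.End K (W j))) :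
    Set (∀ j, Module.End K (W j)) :=
  {π | π * π = π ∧ (∀ t : K, t ≠ 0 → 1 + (t - 1) • π ∈ G) ∧
    ∀ j, IsSk (ω j) ((2 : K) • π j - 1)}

/-- The set of involutions. -/
def Inv (ω : ∀ j, LinearMap.BilinForm K (W j)) (G : Set (∀ j, Module.End K (W j))) :
    Set (∀ j, Module.End K (W j)) :=
  {s | ∃ π ∈ Lag ω G, s = (2 : K) • π - 1}

include D

lemma nontriv (j : ι) : Nontrivial (W j) := by
  by_contra hcon
  rw [not_nontrivial_iff_subsingleton] at hcon
  obtain ⟨u, _, _, hr⟩ := D.quad j
  have : rk (u j - 1) = 0 := by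
    rw [rk_eq_zero]; ext v; exact Subsingleton.elim _ _
  rw [this] at hr
  rcases hr with h | h
  · exact (Nat.not_odd_zero) h
  · omega

lemma exists_ne_form (j : ι) : ∃ v w, ω j v w ≠ 0 := by
  have := D.nontriv j
  obtain ⟨v, hv⟩ := exists_ne (0 : W j)
  by_contra hcon
  push Not at hcon
  exact hv ((D.nd j).1 v (hcon v))

/-- Trichotomy for cocharacters. -/
lemma trich [CharZero K] {π : ∀ j, Module.End K (W j)} (hπ : π * π = π)
    (ht : ∀ t : K, t ≠ 0 → 1 + (t - 1) • π ∈ G) : π ∈ Lag ω G ∨ π = 0 ∨ π = 1 := by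
  obtain ⟨c, hc⟩ := D.sim _ (ht 2 two_ne_zero)
  have hc' : ∀ j v w, ω j ((1 + π j) v) ((1 + π j) w) = c * ω j v w := by
    intro j v w
    have := hc j v w
    have e : (1 + ((2 : K) - 1) • π) j = 1 + π j := by
      rw [Pi.add_apply, Pi.smul_apply, Pi.one_apply]
      norm_num
    rwa [e] at this
  have hπj : ∀ j, π j * π j = π j := fun j => congrFun hπ j
  have h4 := fun j v w => four (hπj j) (hc' j) v w
  have split : ∀ j v w, ω j v w = ω j (π j v) (π j w) + ω j (π j v) (w - π j w)
      + ω j (v - π j v) (π j w) + ω j (v - π j v) (w - π j w) := by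
    intro j v w
    simp only [map_sub, LinearMap.sub_apply]
    ring
  by_cases c2 : c = 2
  · left
    refine ⟨hπ, ht, fun j v w => ?_⟩
    obtain ⟨a1, -, -, a4⟩ := h4 j v w
    have b1 : ω j (π j v) (π j w) = 0 := by
      rw [c2] at a1; exact (mul_eq_zero.mp a1).resolve_left (by norm_num)
    have b4 : ω j (v - π j v) (w - π j w) = 0 := by
      rw [c2] at a4; exact (mul_eq_zero.mp a4).resolve_left (by norm_num)
    simp only [map_sub, LinearMap.sub_apply, LinearMap.smul_apply, map_smul,
      Module.End.one_apply, smul_eq_mul] at b1 b4 ⊢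
    linear_combination 2 * b1 - 2 * b4
  · right
    have b2 : ∀ j v w, ω j (π j v) (w - π j w) = 0 := fun j v w =>
      (mul_eq_zero.mp (h4 j v w).2.1).resolve_left (sub_ne_zero.mpr c2)
    have b3 : ∀ j v w, ω j (v - π j v) (π j w) = 0 := fun j v w =>
      (mul_eq_zero.mp (h4 j v w).2.2.1).resolve_left (sub_ne_zero.mpr c2)
    by_cases c4 : c = 4
    · right
      funext j
      ext v
      have b4 : ∀ w, ω j (v - π j v) (w - π j w) = 0 := by
        intro w
        have := (h4 j v w).2.2.2
        rw [c4] at this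
        exact (mul_eq_zero.mp this).resolve_left (by norm_num)
      have : v - π j v = 0 := by
        apply (D.nd j).1
        intro w
        have e : w = π j w + (w - π j w) := by abel
        rw [e, map_add, b3, b4, add_zero]
      rw [sub_eq_zero] at this
      exact this.symm
    · left
      funext j
      ext v
      have b1 : ∀ v w, ω j (π j v) (π j w) = 0 := fun v w =>
        (mul_eq_zero.mp (h4 j v w).1).resolve_left (sub_ne_zero.mpr c4)
      have : π j v = 0 := by
        apply (D.nd j).1
        intro w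
        have e : w = π j w + (w - π j w) := by abel
        rw [e, map_add, b1, b2, add_zero]
      exact this

/-- A subalgebra containing the Lagrangian cocharacters contains `G`. -/
lemma gen' [CharZero K] (M : Subalgebra K (∀ j, Module.End K (W j)))
    (hM : ∀ π ∈ Lag ω G, π ∈ M) : ∀ g ∈ G, g ∈ M := by
  apply D.gen
  intro π hπ ht
  rcases D.trich hπ ht with h | h | h
  · exact hM π h
  · rw [h]; exact M.zero_mem
  · rw [h]; exact M.one_mem

lemma mult_ne_zero {g : ∀ j, Module.End K (W j)} (j : ι) {h : ∀ j, Module.End K (W j)}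
    (hgh : g * h = 1) {c : K} (hc : ∀ j v w, ω j (g j v) (g j w) = c * ω j v w) : c ≠ 0 := by
  rintro rfl
  obtain ⟨v, w, hvw⟩ := D.exists_ne_form j
  have h1 : ∀ x, g j (h j x) = x := fun x => LinearMap.congr_fun (congrFun hgh j) x
  have := hc j (h j v) (h j w)
  rw [h1, h1, zero_mul] at this
  exact hvw this

/-- `G` permutes the Lagrangian cocharacters. -/
lemma lag_conj {g h : ∀ j, Module.End K (W j)} (hg : g ∈ G) (hh : h ∈ G) (hgh : g * h = 1)
    (hhg : h * g = 1) {π : ∀ j, Module.End K (W j)} (hπ : π ∈ Lag ω G) :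
    g * π * h ∈ Lag ω G := by
  obtain ⟨h1, h2, h3⟩ := hπ
  refine ⟨?_, ?_, ?_⟩
  · calc g * π * h * (g * π * h) = g * π * (h * g) * π * h := by noncomm_ring
      _ = g * (π * π) * h := by rw [hhg]; noncomm_ring
      _ = _ := by rw [h1]
  · intro t ht
    have : 1 + (t - 1) • (g * π * h) = g * (1 + (t - 1) • π) * h := by
      rw [mul_add, add_mul, mul_one, hgh, mul_smul_comm, smul_mul_assoc]
    rw [this]
    exact D.mul _ (D.mul _ hg _ (h2 t ht)) _ hh
  · intro j
    obtain ⟨c, hc⟩ := D.sim g hg
    have hc0 := D.mult_ne_zero j hgh hc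
    have := (h3 j).conj (g := g j) (g' := h j) (hc j) (congrFun hgh j) hc0
    have e : g j * ((2 : K) • π j - 1) * h j = (2 : K) • (g * π * h) j - 1 := by
      have e1 : g j * h j = 1 := congrFun hgh j
      rw [mul_sub, sub_mul, mul_one, e1, mul_smul_comm, smul_mul_assoc]
      rfl
    rwa [e] at this

/-- `G` normalises the Lie algebra. -/
lemma lie_conj {g h : ∀ j, Module.End K (W j)} (hg : g ∈ G) (hh : h ∈ G) (hgh : g * h = 1)
    (hhg : h * g = 1) {x : ∀ j, Module.End K (W j)} (hx : x ∈ lieGen K (Inv ω G)) :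
    g * x * h ∈ lieGen K (Inv ω G) := by
  let M : Submodule K (∀ j, Module.End K (W j)) :=
    { carrier := {x | g * x * h ∈ lieGen K (Inv ω G)}
      add_mem' := by
        intro x y hx hy
        rw [Set.mem_ofPred_eq] at *
        rw [mul_add, add_mul]; exact Submodule.add_mem _ hx hy
      zero_mem' := by simp
      smul_mem' := by
        intro c x hx
        rw [Set.mem_ofPred_eq] at *
        rw [mul_smul_comm, smul_mul_assoc]; exact Submodule.smul_mem _ _ hx }
  have : lieGen K (Inv ω G) ≤ M := by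
    apply lieGen_le
    · intro x hx y hy
      have h1 := lieGen_comm (show g * x * h ∈ lieGen K (Inv ω G) from hx)
        (show g * y * h ∈ lieGen K (Inv ω G) from hy)
      have e : g * x * h * (g * y * h) - g * y * h * (g * x * h) = g * (x * y - y * x) * h := by
        calc g * x * h * (g * y * h) - g * y * h * (g * x * h)
            = g * x * (h * g) * y * h - g * y * (h * g) * x * h := by noncomm_ring
          _ = _ := by rw [hhg]; noncomm_ring
      rw [e] at h1
      exact h1
    · rintro s ⟨π, hπ, rfl⟩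
      apply subset_lieGen
      refine ⟨g * π * h, D.lag_conj hg hh hgh hhg hπ, ?_⟩
      rw [mul_sub, sub_mul, mul_one, hgh, mul_smul_comm, smul_mul_assoc]
  exact this hx

lemma lie_sk {x : ∀ j, Module.End K (W j)} (hx : x ∈ lieGen K (Inv ω G)) (j : ι) :
    IsSk (ω j) (x j) := by
  let M : Submodule K (∀ j, Module.End K (W j)) :=
    { carrier := {x | IsSk (ω j) (x j)}
      add_mem' := by
        intro x y hx hy v w
        have h1 := hx v w
        have h2 := hy v w
        rw [Pi.add_apply, LinearMap.add_apply, LinearMap.add_apply, map_add, map_add,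
          LinearMap.add_apply, h1, h2]
        ring
      zero_mem' := by intro v w; simp
      smul_mem' := by
        intro c x hx v w
        have h1 := hx v w
        rw [Pi.smul_apply, LinearMap.smul_apply, LinearMap.smul_apply, map_smul, map_smul,
          LinearMap.smul_apply, h1, smul_eq_mul, smul_eq_mul]
        ring }
  have : lieGen K (Inv ω G) ≤ M := by
    apply lieGen_le
    · intro x hx y hy v w
      have h1 : IsSk (ω j) (x j) := hx
      have h2 : IsSk (ω j) (y j) := hy
      have e : (x * y - y * x) j = x j * y j - y j * x j := rfl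
      rw [e]
      simp only [LinearMap.sub_apply, Module.End.mul_apply, map_sub]
      rw [h1, h2, h2, h1]
      ring
    · rintro s ⟨π, hπ, rfl⟩
      exact hπ.2.2 j
  exact this hx

/-- The Lie algebra acts on each factor through an irreducible involution generated Lie
algebra. -/
lemma ctx [CharZero K] (j : ι) :
    Ctx (ω j) (lieGen K ((Pi.evalAlgHom K (fun j => Module.End K (W j)) j) '' (Inv ω G)))
      ((Pi.evalAlgHom K (fun j => Module.End K (W j)) j) '' (Inv ω G)) where
  irr := by
    refine ⟨fun x hx y hy => lieGen_comm hx hy, ?_, ?_⟩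
    · intro x hx
      rw [← lieGen_map] at hx
      obtain ⟨x', hx', rfl⟩ := hx
      exact D.lie_sk hx' j
    · intro W' hW'
      apply D.irr j
      let M : Subalgebra K (∀ j, Module.End K (W j)) :=
        { carrier := {x | ∀ w ∈ W', x j w ∈ W'}
          mul_mem' := by
            intro x y hx hy w hw
            exact hx _ (hy w hw)
          one_mem' := by intro w hw; exact hw
          add_mem' := by
            intro x y hx hy w hw
            exact W'.add_mem (hx w hw) (hy w hw)
          zero_mem' := by intro w hw; exact W'.zero_mem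
          algebraMap_mem' := by
            intro c w hw
            exact W'.smul_mem c hw }
      have := D.gen' M (by
        intro π hπ w hw
        have hs : (Pi.evalAlgHom K (fun j => Module.End K (W j)) j) ((2 : K) • π - 1) ∈
            lieGen K ((Pi.evalAlgHom K (fun j => Module.End K (W j)) j) '' (Inv ω G)) :=
          subset_lieGen _ ⟨_, ⟨π, hπ, rfl⟩, rfl⟩
        have h1 := hW' _ hs w hw
        have h2 : ((Pi.evalAlgHom K (fun j => Module.End K (W j)) j) ((2 : K) • π - 1)) w =
          (2 : K) • π j w - w := rfl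
        rw [h2] at h1
        have h3 := W'.smul_mem (2 : K)⁻¹ (W'.add_mem h1 hw)
        rwa [sub_add_cancel, smul_smul, inv_mul_cancel₀ two_ne_zero, one_smul] at h3)
      intro g hg
      exact this g hg
  nd := D.nd j
  inv := by
    rintro _ ⟨s, hs, rfl⟩
    refine ⟨subset_lieGen _ ⟨s, hs, rfl⟩, ?_⟩
    obtain ⟨π, hπ, rfl⟩ := hs
    have h1 : π j * π j = π j := congrFun hπ.1 j
    have h2 : (Pi.evalAlgHom K (fun j => Module.End K (W j)) j) ((2 : K) • π - 1) =
      (2 : K) • π j - 1 := rfl
    rw [h2]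
    simp only [sub_mul, mul_sub, smul_mul_assoc, mul_smul_comm, h1, mul_one, one_mul]
    module
  gen := fun M h1 h2 => lieGen_le h1 h2

/-- Every projection of the Lie algebra is the full symplectic Lie algebra. -/
lemma proj_full [IsAlgClosed K] [CharZero K] (j : ι) {z : Module.End K (W j)}
    (hz : IsSk (ω j) z) : ∃ x ∈ lieGen K (Inv ω G), x j = z := by
  obtain ⟨u, hu, hN, hr⟩ := D.quad j
  obtain ⟨h, hh, huh, hhu⟩ := D.inv u hu
  set N := u j - 1 with hNdef
  have huj : u j = 1 + N := by rw [hNdef]; abel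
  have hhj : h j = 1 - N := by
    have e1 : h j * u j = 1 := congrFun hhu j
    have e2 : u j * (1 - N) = 1 := by
      have e3 : (1 + N) * (1 - N) = 1 - N * N := by noncomm_ring
      rw [huj, e3, hN, sub_zero]
    calc h j = h j * (u j * (1 - N)) := by rw [e2, mul_one]
      _ = (h j * u j) * (1 - N) := by rw [mul_assoc]
      _ = _ := by rw [e1, one_mul]
  obtain ⟨c, hc⟩ := D.sim u hu
  obtain ⟨c', hc'⟩ := D.sim h hh
  have hcc : c * c' = 1 := by
    obtain ⟨v, w, hvw⟩ := D.exists_ne_form j
    have h1 : ∀ x, u j (h j x) = x := fun x => LinearMap.congr_fun (congrFun huh j) x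
    have e1 := hc j (h j v) (h j w)
    rw [h1, h1, hc'] at e1
    have e2 : (c * c' - 1) * ω j v w = 0 := by linear_combination -e1
    have e3 := (mul_eq_zero.mp e2).resolve_right hvw
    linear_combination e3
  have hsk : IsSk (ω j) N := by
    apply quad_skew hN (c := c) (c' := c') _ _ hcc (D.nd j)
    · intro v w; rw [← huj]; exact hc j v w
    · intro v w; rw [← hhj]; exact hc' j v w
  have hctx := D.ctx j
  set Lj := lieGen K ((Pi.evalAlgHom K (fun j => Module.End K (W j)) j) '' (Inv ω G)) with hLj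
  have hmap : ∀ x, x ∈ Lj ↔ ∃ y ∈ lieGen K (Inv ω G), y j = x := by
    intro x
    rw [hLj, ← lieGen_map]
    rfl
  have hnormj : ∀ x ∈ Lj, N * x - x * N ∈ Lj := by
    intro x hx
    obtain ⟨y, hy, rfl⟩ := (hmap x).mp hx
    have h1 : (1 + N) * y j * (1 - N) ∈ Lj := by
      rw [hmap]
      refine ⟨u * y * h, D.lie_conj hu hh huh hhu hy, ?_⟩
      rw [Pi.mul_apply, Pi.mul_apply, huj, hhj]
    have h2 : (1 - N) * y j * (1 + N) ∈ Lj := by
      rw [hmap]
      refine ⟨h * y * u, D.lie_conj hh hu hhu huh hy, ?_⟩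
      rw [Pi.mul_apply, Pi.mul_apply, huj, hhj]
    have h3 := Lj.smul_mem (2 : K)⁻¹ (Lj.sub_mem h1 h2)
    have e : (1 + N) * y j * (1 - N) - (1 - N) * y j * (1 + N) =
        (2 : K) • (N * y j - y j * N) := by
      have : (1 + N) * y j * (1 - N) - (1 - N) * y j * (1 + N) =
        (N * y j - y j * N) + (N * y j - y j * N) := by noncomm_ring
      rw [this, two_smul]
    rw [e, smul_smul, inv_mul_cancel₀ two_ne_zero, one_smul] at h3
    exact h3
  have hNL : N ∈ Lj := hctx.irr.mem_of_normalize hctx.nd hsk hnormj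
  have hzL : z ∈ Lj := hctx.eq_sp (D.alt j) hNL hN hr hz
  exact (hmap z).mp hzL

end GrpData

end MTP
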