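import Pool.Agent.Helper21.MT.Diag

/-!
Existence of the hyperbolic pair, the off diagonal operators, and the word argument: the least
odd rank is one.
-/

open Module

namespace MTP

variable {K : Type*} [Field K] {V : Type*} [AddCommGroup V] [Module K V] [FiniteDimensional K V]
variable {ω : LinearMap.BilinForm K V} {L : Submodule K (Module.End K V)}
  {S : Set (Module.End K V)} {r : ℕ} {e f p q : Module.End K V}

/-- Construction of the pair from two complementary projections. -/
lemma Ctx.amb_of [IsAlgClosed K] [CharZero K] (hC : Ctx ω L S) (hr : MinOdd L r)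
    (hne : (EE L r).Nonempty) (hpq : p * q = 0) (hqp : q * p = 0) (hpp : p * p = p)
    (hqq : q * q = q) (hsum : p + q = 1) (cp : ∀ z ∈ L, p * z * q ∈ L)
    (cq : ∀ z ∈ L, q * z * p ∈ L)
    (nc : ∀ z ∈ L, Odd (rk z) → p * z * q = 0 → q * z * p = 0 → False)
    (hp : ∀ x ∈ EE L r, p * x * q ≠ 0 → p * x * q ∈ EE L r)
    (hq : ∀ x ∈ EE L r, q * x * p ≠ 0 → q * x * p ∈ EE L r)
    {x : Module.End K V} (hx : x ∈ EE L r) (hx0 : p * x * q ≠ 0) :
    ∃ e f p q, Amb ω L r e f p q ∧ e ∈ EE L r ∧ f ∈ EE L r := by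
  have he := hp x hx hx0
  obtain ⟨y, hy, hyt⟩ := hC.exists_pair (Submodule.subset_span he) hx0
  have htr : LinearMap.trace K V (p * x * q * (q * y * p)) =
      LinearMap.trace K V (p * x * q * y) := by
    calc LinearMap.trace K V (p * x * q * (q * y * p))
        = LinearMap.trace K V ((p * x * (q * q) * y) * p) := by
          congr 1
      _ = LinearMap.trace K V (p * (p * x * (q * q) * y)) := LinearMap.trace_mul_comm _ _ _
      _ = LinearMap.trace K V ((p * p) * x * (q * q) * y) := by
          congr 1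
      _ = _ := by rw [hpp, hqq]
  rw [← htr] at hyt
  have hf0 : q * y * p ≠ 0 := by
    intro h
    rw [h, mul_zero, map_zero] at hyt
    exact hyt rfl
  have hf := hq y hy hf0
  have hr0 : (r : K) ≠ 0 := by rw [Nat.cast_ne_zero]; exact hr.1.pos.ne'
  have h1 := hC.irr.extremal hC.nd hr.1 hr.2 he.1 he.2.1 he.2.2 hf.1
  have h2 := hC.irr.extremal hC.nd hr.1 hr.2 hf.1 hf.2.1 hf.2.2 he.1
  rw [LinearMap.trace_mul_comm K (q * y * p)] at h2
  set c : K := LinearMap.trace K V (p * x * q * (q * y * p)) / (r : K) with hc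
  have hc0 : c ≠ 0 := div_ne_zero hyt hr0
  refine ⟨p * x * q, c⁻¹ • (q * y * p), p, q, ⟨hC.nd, ?_, hC.irr.sk, hC.irr.br, he.1,
    L.smul_mem _ hf.1, hr.1, ?_, cp, cq, nc⟩, he, EE_smul (inv_ne_zero hc0) hf⟩
  · refine ⟨he.2.1, (EE_smul (inv_ne_zero hc0) hf).2.1, ?_, ?_, ?_, ?_, ?_, ?_, hpq, hqp, hpp,
      hqq, hsum⟩
    · rw [mul_smul_comm, smul_mul_assoc, h1, smul_smul, inv_mul_cancel₀ hc0, one_smul]
    · rw [smul_mul_assoc, smul_mul_assoc, mul_smul_comm, h2, smul_smul (c⁻¹) c,
        inv_mul_cancel₀ hc0, one_smul]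
    · rw [← mul_assoc, ← mul_assoc, hpp]
    · rw [mul_assoc (p * x), hqq]
    · rw [mul_smul_comm, ← mul_assoc, ← mul_assoc, hqq]
    · rw [smul_mul_assoc, mul_assoc (q * y), hpp]
  · intro z hz hz0
    apply hC.le_rk hr _ hz0
    rw [hC.span_eq hr hne]
    exact hz

/-- Existence of the pair. -/
lemma Ctx.exists_amb [IsAlgClosed K] [CharZero K] (hC : Ctx ω L S) (hr : MinOdd L r)
    (hne : (EE L r).Nonempty) :
    ∃ e f p q, Amb ω L r e f p q ∧ e ∈ EE L r ∧ f ∈ EE L r := by
  obtain ⟨x, hx⟩ := hne
  have hx0 : x ≠ 0 := by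
    rw [← rk_pos, hx.2.2]; exact hr.1.pos
  have hS : S.Nonempty := by
    by_contra hS
    rw [Set.not_nonempty_iff_eq_empty] at hS
    have h := hC.gen ⊥ (by
      intro a ha b hb
      rw [Submodule.mem_bot] at ha hb
      rw [ha, hb]; simp) (by rw [hS]; simp)
    exact hx0 ((Submodule.mem_bot K).mp (h hx.1))
  obtain ⟨s, hs⟩ := hS
  obtain ⟨hsL, hss⟩ := hC.inv s hs
  have hcomp : ∀ z ∈ L, pp s * z * qq s ∈ L ∧ qq s * z * pp s ∈ L ∧
      pp s * z * pp s + qq s * z * qq s ∈ L :=
    fun z hz => comps_mem hss (fun x hx => hC.irr.br s hsL x hx) hz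
  by_cases h : pp s * x * qq s = 0
  · have h' : qq s * x * pp s ≠ 0 := by
      intro h'
      exact hC.not_comm hs hx.1 (by rw [hx.2.2]; exact hr.1) h h'
    exact hC.amb_of hr ⟨x, hx⟩ (qq_mul_pp hss) (pp_mul_qq hss) (qq_mul_qq hss) (pp_mul_pp hss)
      (by rw [add_comm]; exact pp_add_qq) (fun z hz => (hcomp z hz).2.1)
      (fun z hz => (hcomp z hz).1) (fun z hz ho h1 h2 => hC.not_comm hs hz ho h2 h1)
      (fun y hy hy0 => hC.comp_mem' hr hs hy hy0) (fun y hy hy0 => hC.comp_mem hr hs hy hy0)
      hx h'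
  · exact hC.amb_of hr ⟨x, hx⟩ (pp_mul_qq hss) (qq_mul_pp hss) (pp_mul_pp hss) (qq_mul_qq hss)
      pp_add_qq (fun z hz => (hcomp z hz).1)
      (fun z hz => (hcomp z hz).2.1) (fun z hz ho h1 h2 => hC.not_comm hs hz ho h1 h2)
      (fun y hy hy0 => hC.comp_mem hr hs hy hy0) (fun y hy hy0 => hC.comp_mem' hr hs hy hy0)
      hx h

/-- The extra input on top of `Amb`. -/
structure Amb2 (ω : LinearMap.BilinForm K V) (L : Submodule K (Module.End K V)) (r : ℕ)
    (e f p q : Module.End K V) : Prop extends Amb ω L r e f p q where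
  ext : ∀ x ∈ EE L r, ∀ y ∈ L, ∃ c : K, x * y * x = c • x
  span : Submodule.span K (EE L r) = L
  eE : e ∈ EE L r
  fE : f ∈ EE L r

lemma Ctx.exists_amb2 [IsAlgClosed K] [CharZero K] (hC : Ctx ω L S) (hr : MinOdd L r)
    (hne : (EE L r).Nonempty) : ∃ e f p q, Amb2 ω L r e f p q := by
  obtain ⟨e, f, p, q, A, he, hf⟩ := hC.exists_amb hr hne
  have hext : ∀ x ∈ EE L r, ∀ y ∈ L, ∃ c : K, x * y * x = c • x := by
    intro x hx y hy
    exact ⟨_, hC.irr.extremal hC.nd hr.1 hr.2 hx.1 hx.2.1 hx.2.2 hy⟩
  exact ⟨e, f, p, q, ⟨A, hext, hC.span_eq hr hne, he, hf⟩⟩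

namespace Amb2
variable (A : Amb2 ω L r e f p q)
include A

lemma swap : Amb2 ω L r f e q p :=
  ⟨A.toAmb.swap, A.ext, A.span, A.fE, A.eE⟩

lemma dx_of_zero [CharZero K] {x : Module.End K V} (hx : x ∈ EE L r) (h : e * x * e = 0) :
    e * f * x * e + e * x * f * e = 0 := by
  have H := A.hyp
  obtain ⟨h1, h2⟩ := A.diag_zero hx.1 hx.2.2 h
  have e1 : e * f * x * e = (e * f) * x * (e * f) * e := by
    calc e * f * x * e = e * f * x * (e * f * e) := by rw [H.efe]
      _ = _ := by noncomm_ring
  have e2 : e * x * f * e = e * ((f * e) * x * (f * e)) := by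
    calc e * x * f * e = (e * f * e) * x * f * e := by rw [H.efe]
      _ = _ := by noncomm_ring
  rw [e1, e2, h1, h2]; simp

lemma dx_of_zero' [CharZero K] {x : Module.End K V} (hx : x ∈ EE L r) (h : f * x * f = 0) :
    e * f * x * e + e * x * f * e = 0 := by
  have H := A.hyp
  obtain ⟨h1, h2⟩ := A.swap.diag_zero hx.1 hx.2.2 h
  have e1 : e * f * x * e = (e * f) * x * (e * f) * e := by
    calc e * f * x * e = e * f * x * (e * f * e) := by rw [H.efe]
      _ = _ := by noncomm_ring
  have e2 : e * x * f * e = e * ((f * e) * x * (f * e)) := by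
    calc e * x * f * e = (e * f * e) * x * f * e := by rw [H.efe]
      _ = _ := by noncomm_ring
  rw [e1, e2, h1, h2]; simp

omit [FiniteDimensional K V] in
/-- Conjugation by `1 + l f`. -/
lemma conj_mem (l : K) {z : Module.End K V} (hz : z ∈ L) :
    (1 + l • f) * z * (1 - l • f) ∈ L := by
  obtain ⟨c, hc⟩ := A.ext f A.fE z hz
  have e1 : (1 + l • f) * z * (1 - l • f) = z + l • (f * z - z * f) - (l * l) • (f * z * f) := by
    simp only [smul_mul_assoc, mul_smul_comm, mul_sub, add_mul, mul_one, one_mul]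
    match_scalars <;> ring
  rw [e1, hc]
  exact L.sub_mem (L.add_mem hz (L.smul_mem _ (A.br _ A.hf _ hz)))
    (L.smul_mem _ (L.smul_mem _ A.hf))

/-- The operators `D_x` vanish for the square zero elements of rank `r`. -/
lemma dx_zero [IsAlgClosed K] [CharZero K] {x : Module.End K V} (hx : x ∈ EE L r) :
    e * f * x * e + e * x * f * e = 0 := by
  have H := A.hyp
  obtain ⟨a, ha⟩ := A.ext e A.eE x hx.1
  obtain ⟨t, ht⟩ := A.ext e A.eE (f * x - x * f) (A.br _ A.hf _ hx.1)
  obtain ⟨c, hc⟩ := A.ext f A.fE x hx.1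
  by_cases hc0 : c = 0
  · apply A.dx_of_zero' hx
    rw [hc, hc0, zero_smul]
  -- a root of the quadratic polynomial
  obtain ⟨l, hl⟩ : ∃ l : K, a + l * t - l * l * c = 0 := by
    obtain ⟨l, hl⟩ := IsAlgClosed.exists_root
      (Polynomial.C (-c) * Polynomial.X ^ 2 + Polynomial.C t * Polynomial.X + Polynomial.C a)
      (by rw [Polynomial.degree_quadratic (neg_ne_zero.mpr hc0)]; norm_num)
    refine ⟨l, ?_⟩
    simp only [Polynomial.IsRoot.def, Polynomial.eval_add, Polynomial.eval_mul,
      Polynomial.eval_C, Polynomial.eval_pow, Polynomial.eval_X] at hl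
    linear_combination hl
  have hff : f * f = 0 := H.ff
  have g1 : (1 - l • f) * (1 + l • f) = 1 := by
    simp only [smul_mul_assoc, mul_smul_comm, sub_mul, mul_add, mul_one, one_mul, hff]
    simp
  have g2 : (1 + l • f) * (1 - l • f) = 1 := by
    simp only [smul_mul_assoc, mul_smul_comm, mul_sub, add_mul, mul_one, one_mul, hff]
    simp
  have hx' : (1 + l • f) * x * (1 - l • f) ∈ EE L r :=
    EE_conj g1 g2 (fun z hz => A.conj_mem l hz) hx
  have e1 : (1 + l • f) * x * (1 - l • f) = x + l • (f * x - x * f) - (l * l) • (f * x * f) := by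
    simp only [smul_mul_assoc, mul_smul_comm, mul_sub, add_mul, mul_one, one_mul]
    match_scalars <;> ring
  have h0 : e * ((1 + l • f) * x * (1 - l • f)) * e = 0 := by
    rw [e1, hc]
    have : e * (x + l • (f * x - x * f) - (l * l) • c • f) * e
      = e * x * e + l • (e * (f * x - x * f) * e) - (l * l) • c • (e * f * e) := by
      simp only [smul_mul_assoc, mul_smul_comm, mul_sub, mul_add, add_mul, sub_mul]
    rw [this, ha, ht, H.efe]
    have : a • e + l • t • e - (l * l) • c • e = (a + l * t - l * l * c) • e := by module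
    rw [this, hl, zero_smul]
  have hD := A.dx_of_zero hx' h0
  rw [← hD, e1]
  have e2 : e * f * (x + l • (f * x - x * f) - (l * l) • (f * x * f)) * e
      = e * f * x * e + l • (e * (f * f) * x * e - e * f * x * f * e)
        - (l * l) • (e * (f * f) * x * f * e) := by
    simp only [smul_mul_assoc, mul_smul_comm, mul_sub, mul_add, add_mul, sub_mul, mul_assoc]
  have e3 : e * (x + l • (f * x - x * f) - (l * l) • (f * x * f)) * f * e
      = e * x * f * e + l • (e * f * x * f * e - e * x * (f * f) * e)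
        - (l * l) • (e * f * x * (f * f) * e) := by
    simp only [smul_mul_assoc, mul_smul_comm, mul_sub, mul_add, add_mul, sub_mul, mul_assoc]
  rw [e2, e3, hff]
  simp only [mul_zero, zero_mul, smul_zero, zero_sub, sub_zero]
  module

/-- The operators `D_x` vanish on `L`. -/
lemma dx_zero' [IsAlgClosed K] [CharZero K] {x : Module.End K V} (hx : x ∈ L) :
    e * f * x * e + e * x * f * e = 0 := by
  rw [← A.span] at hx
  induction hx using Submodule.span_induction with
  | zero => simp
  | add a b _ _ ha hb =>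
    have : e * f * (a + b) * e + e * (a + b) * f * e =
      (e * f * a * e + e * a * f * e) + (e * f * b * e + e * b * f * e) := by noncomm_ring
    rw [this, ha, hb, add_zero]
  | smul c a _ ha =>
    have : e * f * (c • a) * e + e * (c • a) * f * e =
      c • (e * f * a * e + e * a * f * e) := by
      simp only [smul_mul_assoc, mul_smul_comm, smul_add]
    rw [this, ha, smul_zero]
  | mem y hy => exact A.dx_zero hy

/-- The corner of an element of `L` is a scalar. -/
lemma corner [IsAlgClosed K] [CharZero K] {x : Module.End K V} (hx : x ∈ L) :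
    ∃ c : K, (e * f) * x * (e * f) = c • (e * f) := by
  have H := A.hyp
  obtain ⟨t, ht⟩ := A.ext e A.eE (f * x - x * f) (A.br _ A.hf _ hx)
  have hD := A.dx_zero' hx
  refine ⟨2⁻¹ * t, ?_⟩
  have h2 : (2 : K) • (e * f * x * e) = t • e := by
    rw [← ht]
    have : e * (f * x - x * f) * e = e * f * x * e - e * x * f * e := by noncomm_ring
    rw [this]
    have h3 : e * x * f * e = -(e * f * x * e) := by
      rw [eq_neg_iff_add_eq_zero, add_comm]; exact hD
    rw [h3]; module
  have h4 : e * f * x * e = (2⁻¹ * t) • e := by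
    calc e * f * x * e = (2 : K)⁻¹ • (2 : K) • (e * f * x * e) := by
          rw [smul_smul, inv_mul_cancel₀ (two_ne), one_smul]
      _ = _ := by rw [h2, smul_smul]
  calc (e * f) * x * (e * f) = (e * f * x * e) * f := by noncomm_ring
    _ = _ := by rw [h4, smul_mul_assoc]

/-- The weight decomposition in `L`: the part of `z` that matters. -/
lemma weights [IsAlgClosed K] [CharZero K] {z : Module.End K V} (hz : z ∈ L) :
    ∃ y ∈ L, (e * f) * y = 0 ∧ ∃ c : K, z * (e * f) = y * (e * f) + c • (e * f) := by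
  have H := A.hyp
  obtain ⟨k, hk⟩ := A.corner hz
  obtain ⟨a, ha⟩ := A.ext e A.eE z hz
  -- remove the weight `-2` part
  have hlow : (f * e) * z * (e * f) = a • f := by
    calc (f * e) * z * (e * f) = f * (e * z * e) * f := by noncomm_ring
      _ = a • (f * e * f) := by rw [ha, mul_smul_comm, smul_mul_assoc]
      _ = _ := by rw [H.fef]
  have hff : f = (f * e) * f * (e * f) := by
    calc f = f * e * f := H.fef.symm
      _ = f * e * (f * e * f) := by rw [H.fef, H.fef]
      _ = _ := by noncomm_ring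
  have hz' : z - a • f ∈ L := L.sub_mem hz (L.smul_mem _ A.hf)
  have hlow' : (f * e) * (z - a • f) * (e * f) = 0 := by
    rw [mul_sub, sub_mul, hlow, mul_smul_comm, smul_mul_assoc, ← hff, sub_self]
  have hneg := H.neg_mem A.hD hz' hlow'
  refine ⟨a • f + ((1 - e * f - f * e) * (z - a • f) * (e * f)
    + (f * e) * (z - a • f) * (1 - e * f - f * e)), L.add_mem (L.smul_mem _ A.hf) hneg, ?_, k, ?_⟩
  · have h1 : (e * f) * f = 0 := by rw [mul_assoc, H.ff, mul_zero]
    have h2 := H.i10
    have h3 := H.i12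
    generalize (1 - e * f - f * e) = c at *
    generalize hw : z - a • f = w at *
    calc (e * f) * (a • f + (c * w * (e * f) + (f * e) * w * c))
        = a • ((e * f) * f) + (((e * f) * c) * w * (e * f) + ((e * f) * (f * e)) * w * c) := by
          simp only [mul_add, mul_smul_comm, mul_assoc]
      _ = 0 := by rw [h1, h2, h3]; simp
  · have h1 := H.i1
    have h01 := H.i01
    have hfE : f * (e * f) = f := by rw [← mul_assoc, H.fef]
    have hone : (e * f) + (1 - e * f - f * e) + (f * e) = 1 := by abel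
    have hEf : (e * f) * f = 0 := by rw [mul_assoc, H.ff, mul_zero]
    have h4 : (e * f) * (z - a • f) * (e * f) = k • (e * f) := by
      rw [mul_sub, sub_mul, hk, mul_smul_comm, smul_mul_assoc, hEf]; simp
    have key : (z - a • f) * (e * f) = (1 - e * f - f * e) * (z - a • f) * (e * f)
        + k • (e * f) := by
      calc (z - a • f) * (e * f) = ((e * f) + (1 - e * f - f * e) + (f * e)) * (z - a • f)
            * (e * f) := by rw [hone, one_mul]
        _ = (e * f) * (z - a • f) * (e * f) + (1 - e * f - f * e) * (z - a • f) * (e * f)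
            + (f * e) * (z - a • f) * (e * f) := by
            generalize (1 - e * f - f * e) = c
            simp only [add_mul]
        _ = _ := by rw [h4, hlow']; abel
    have e5 : z * (e * f) = (z - a • f) * (e * f) + a • f := by
      rw [sub_mul, smul_mul_assoc, hfE]; abel
    rw [e5, key]
    generalize hcc : (1 - e * f - f * e) = c at *
    generalize hw : z - a • f = w at *
    have e6 : (a • f + (c * w * (e * f) + (f * e) * w * c)) * (e * f)
        = a • (f * (e * f)) + (c * w * ((e * f) * (e * f)) + (f * e) * w * (c * (e * f))) := by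
      simp only [add_mul, smul_mul_assoc, mul_assoc]
    rw [e6, hfE, h1, h01, mul_zero, add_zero]
    abel

end Amb2

omit [FiniteDimensional K V] in
/-- Leibniz rule: commutators with elements of `L` preserve the products of length `n`. -/
lemma pow_comm_mem (hbr : ∀ x ∈ L, ∀ y ∈ L, x * y - y * x ∈ L) (n : ℕ) {w y : Module.End K V}
    (hw : w ∈ L ^ n) (hy : y ∈ L) : w * y - y * w ∈ L ^ n := by
  induction n generalizing w with
  | zero =>
    rw [pow_zero] at hw ⊢
    rw [Submodule.mem_one] at hw
    obtain ⟨c, rfl⟩ := hw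
    rw [Algebra.commutes, sub_self]
    exact Submodule.zero_mem _
  | succ n ih =>
    rw [pow_succ] at hw ⊢
    induction hw using Submodule.mul_induction_on' with
    | mem_mul_mem a ha z hz =>
      have : a * z * y - y * (a * z) = a * (z * y - y * z) + (a * y - y * a) * z := by
        noncomm_ring
      rw [this]
      exact Submodule.add_mem _ (Submodule.mul_mem_mul ha (hbr z hz y hy))
        (Submodule.mul_mem_mul (ih ha) hz)
    | add a _ b _ ha hb =>
      have : (a + b) * y - y * (a + b) = (a * y - y * a) + (b * y - y * b) := by noncomm_ring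
      rw [this]; exact Submodule.add_mem _ ha hb

/-- All words have scalar corner. -/
lemma Amb2.word [IsAlgClosed K] [CharZero K] (A : Amb2 ω L r e f p q) (n : ℕ)
    {w : Module.End K V} (hw : w ∈ L ^ n) : ∃ c : K, (e * f) * w * (e * f) = c • (e * f) := by
  have H := A.hyp
  induction n generalizing w with
  | zero =>
    rw [pow_zero, Submodule.mem_one] at hw
    obtain ⟨c, rfl⟩ := hw
    refine ⟨c, ?_⟩
    rw [Algebra.algebraMap_eq_smul_one, mul_smul_comm, smul_mul_assoc, mul_one, H.i1]
  | succ n ih =>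
    rw [pow_succ] at hw
    induction hw using Submodule.mul_induction_on' with
    | mem_mul_mem a ha z hz =>
      obtain ⟨y, hy, hEy, k, hk⟩ := A.weights hz
      obtain ⟨c1, hc1⟩ := ih (pow_comm_mem A.br n ha hy)
      obtain ⟨c2, hc2⟩ := ih ha
      refine ⟨c1 + k * c2, ?_⟩
      calc (e * f) * (a * z) * (e * f) = (e * f) * a * (z * (e * f)) := by noncomm_ring
        _ = (e * f) * (a * y - y * a) * (e * f) + ((e * f) * y) * a * (e * f)
            + k • ((e * f) * a * (e * f)) := by
            rw [hk, mul_add, mul_smul_comm]; noncomm_ring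
        _ = _ := by
            rw [hc1, hEy, hc2]
            simp only [zero_mul, add_zero]
            module
    | add a _ b _ ha hb =>
      obtain ⟨c1, hc1⟩ := ha
      obtain ⟨c2, hc2⟩ := hb
      exact ⟨c1 + c2, by rw [mul_add, add_mul, hc1, hc2, add_smul]⟩

/-- **The least odd rank is one.** -/
theorem Ctx.minOdd_eq_one [IsAlgClosed K] [CharZero K] (hC : Ctx ω L S) (hr : MinOdd L r)
    (hne : (EE L r).Nonempty) : r = 1 := by
  obtain ⟨e, f, p, q, A⟩ := hC.exists_amb2 hr hne
  have H := A.hyp
  have hE0 : e * f ≠ 0 := by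
    intro h
    have := H.efe
    rw [h, zero_mul] at this
    have h2 := A.eE.2.2
    rw [← this, rk_eq_zero.mpr rfl] at h2
    exact hr.1.pos.ne h2
  obtain ⟨v, hv⟩ : ∃ v, (e * f) v ≠ 0 := by
    by_contra hcon
    push Not at hcon
    exact hE0 (LinearMap.ext hcon)
  let W : Submodule K V :=
    { carrier := {v' | ∀ n, ∀ w ∈ L ^ n, ∃ c : K, (e * f) (w v') = c • (e * f) v}
      add_mem' := by
        intro a b ha hb n w hw
        obtain ⟨c1, hc1⟩ := ha n w hw
        obtain ⟨c2, hc2⟩ := hb n w hw
        exact ⟨c1 + c2, by rw [map_add, map_add, hc1, hc2, add_smul]⟩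
      zero_mem' := by
        intro n w _
        exact ⟨0, by simp⟩
      smul_mem' := by
        intro c a ha n w hw
        obtain ⟨c1, hc1⟩ := ha n w hw
        exact ⟨c * c1, by rw [map_smul, map_smul, hc1, smul_smul]⟩ }
  have hW : W = ⊤ := by
    rcases hC.irr.irr W (by
      intro z hz v' hv' n w hw
      have := hv' (n + 1) (w * z) (by rw [pow_succ]; exact Submodule.mul_mem_mul hw hz)
      simpa using this) with h | h
    · exfalso
      have hmem : (e * f) v ∈ W := by
        intro n w hw
        obtain ⟨c, hc⟩ := A.word n hw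
        refine ⟨c, ?_⟩
        have := LinearMap.congr_fun hc v
        simpa using this
      rw [h, Submodule.mem_bot] at hmem
      exact hv hmem
    · exact h
  have hrange : LinearMap.range (e * f) ≤ Submodule.span K {(e * f) v} := by
    rintro _ ⟨v', rfl⟩
    have h1 : v' ∈ W := by rw [hW]; trivial
    obtain ⟨c, hc⟩ := h1 0 1 (by rw [pow_zero]; exact Submodule.one_le.mp le_rfl)
    rw [Module.End.one_apply] at hc
    rw [hc]
    exact Submodule.smul_mem _ _ (Submodule.mem_span_singleton_self _)
  have h1 : rk (e * f) ≤ 1 := by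
    refine (Submodule.finrank_mono hrange).trans ?_
    exact finrank_span_singleton (K := K) hv |>.le
  have h2 : rk e ≤ rk (e * f) := by
    nth_rewrite 1 [← H.efe]
    exact rk_mul_le_left _ _
  rw [A.eE.2.2] at h2
  have := hr.1.pos
  omega

end MTP
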