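import Pool.Agent.Helper21.MT.Full

/-!
Hyperbolic pairs of square zero elements of least odd rank.
-/

open Module

namespace MTP

variable {K : Type*} [Field K] {V : Type*} [AddCommGroup V] [Module K V]

/-- A hyperbolic pair `e`, `f` adapted to complementary projections `p`, `q`. -/
structure Hyp (e f p q : Module.End K V) : Prop where
  ee : e * e = 0
  ff : f * f = 0
  efe : e * f * e = e
  fef : f * e * f = f
  pe : p * e = e
  eq : e * q = e
  qf : q * f = f
  fp : f * p = f
  pq : p * q = 0
  qp : q * p = 0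
  ppp : p * p = p
  qqq : q * q = q
  sum : p + q = 1

namespace Hyp
variable {e f p q : Module.End K V} (H : Hyp e f p q)
include H

lemma swap : Hyp f e q p :=
  ⟨H.ff, H.ee, H.fef, H.efe, H.qf, H.fp, H.pe, H.eq, H.qp, H.pq, H.qqq, H.ppp,
    by rw [add_comm]; exact H.sum⟩

lemma qe : q * e = 0 := by rw [← H.pe, ← mul_assoc, H.qp, zero_mul]
lemma ep : e * p = 0 := by rw [← H.eq, mul_assoc, H.qp, mul_zero]
lemma pf : p * f = 0 := H.swap.qe
lemma fq : f * q = 0 := H.swap.ep

/-- idempotents -/
lemma i1 : (e * f) * (e * f) = e * f := by rw [← mul_assoc, H.efe]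
lemma i2 : (f * e) * (f * e) = f * e := H.swap.i1
lemma i12 : (e * f) * (f * e) = 0 := by
  rw [mul_assoc, ← mul_assoc f, H.ff, zero_mul, mul_zero]
lemma i21 : (f * e) * (e * f) = 0 := H.swap.i12

lemma i10 : (e * f) * (1 - e * f - f * e) = 0 := by
  rw [mul_sub, mul_sub, H.i1, H.i12, mul_one]; abel
lemma i01 : (1 - e * f - f * e) * (e * f) = 0 := by
  rw [sub_mul, sub_mul, H.i1, H.i21, one_mul]; abel
lemma i20 : (f * e) * (1 - e * f - f * e) = 0 := by
  rw [mul_sub, mul_sub, H.i2, H.i21, mul_one]; abel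
lemma i02 : (1 - e * f - f * e) * (f * e) = 0 := by
  rw [sub_mul, sub_mul, H.i2, H.i12, one_mul]; abel
lemma i0 : (1 - e * f - f * e) * (1 - e * f - f * e) = 1 - e * f - f * e := by
  nth_rewrite 1 [sub_mul, sub_mul]
  rw [H.i10, H.i20, one_mul]; abel

end Hyp

lemma extract_neg [CharZero K] (D : Module.End K V →ₗ[K] Module.End K V)
    {M : Submodule K (Module.End K V)} (hD : ∀ x ∈ M, D x ∈ M)
    {x a0 a1 a2 a3 : Module.End K V} (hx : x ∈ M) (h : x = a0 + a1 + a2 + a3)
    (h0 : D a0 = -a0) (h1 : D a1 = 0) (h2 : D a2 = a2) (h3 : D a3 = (2 : K) • a3) : a0 ∈ M := by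
  have k1 := hD x hx
  have k2 := hD _ k1
  have k3 := hD _ k2
  have e1 : D x = -a0 + a2 + (2 : K) • a3 := by
    rw [h]; simp only [map_add, h0, h1, h2, h3]; abel
  have e2 : D (D x) = a0 + a2 + (4 : K) • a3 := by
    rw [e1]; simp only [map_add, map_neg, map_smul, h0, h2, h3]; module
  have e3 : D (D (D x)) = -a0 + a2 + (8 : K) • a3 := by
    rw [e2]; simp only [map_add, map_smul, h0, h2, h3]; module
  have : a0 = (-6 : K)⁻¹ • (D (D (D x)) - (3 : K) • D (D x) + (2 : K) • D x) := by
    rw [e3, e2, e1]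
    match_scalars <;> norm_num
  rw [this]
  exact M.smul_mem _ (M.add_mem (M.sub_mem k3 (M.smul_mem _ k2)) (M.smul_mem _ k1))

lemma extract_zero [CharZero K] (D : Module.End K V →ₗ[K] Module.End K V)
    {M : Submodule K (Module.End K V)} (hD : ∀ x ∈ M, D x ∈ M)
    {x a1 a2 a3 : Module.End K V} (hx : x ∈ M) (h : x = a1 + a2 + a3)
    (h1 : D a1 = 0) (h2 : D a2 = a2) (h3 : D a3 = (2 : K) • a3) : a1 ∈ M := by
  have k1 := hD x hx
  have k2 := hD _ k1
  have e1 : D x = a2 + (2 : K) • a3 := by
    rw [h]; simp only [map_add, h1, h2, h3]; abel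
  have e2 : D (D x) = a2 + (4 : K) • a3 := by
    rw [e1]; simp only [map_add, map_smul, h2, h3]; module
  have : a1 = (2 : K)⁻¹ • (D (D x) - (3 : K) • D x + (2 : K) • x) := by
    rw [e2, e1, h]
    match_scalars <;> norm_num
  rw [this]
  exact M.smul_mem _ (M.add_mem (M.sub_mem k2 (M.smul_mem _ k1)) (M.smul_mem _ hx))

/-- The commutator with `h = e f - f e`. -/
noncomputable def DD (e f : Module.End K V) : Module.End K V →ₗ[K] Module.End K V where
  toFun x := (e * f - f * e) * x - x * (e * f - f * e)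
  map_add' x y := by noncomm_ring
  map_smul' c x := by simp [mul_smul_comm, smul_mul_assoc, smul_sub]

lemma DD_block {e f P Q x : Module.End K V} {a b : K} (hP : (e * f - f * e) * P = a • P)
    (hQ : Q * (e * f - f * e) = b • Q) : DD e f (P * x * Q) = (a - b) • (P * x * Q) := by
  change (e * f - f * e) * (P * x * Q) - (P * x * Q) * (e * f - f * e) = _
  rw [← mul_assoc, ← mul_assoc, hP, mul_assoc (P * x) Q, hQ]
  simp only [smul_mul_assoc, mul_smul_comm]
  module

namespace Hyp
variable {e f p q : Module.End K V} (H : Hyp e f p q)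
include H

lemma h1 : (e * f - f * e) * (e * f) = (1 : K) • (e * f) := by
  rw [sub_mul, H.i1, H.i21, sub_zero, one_smul]
lemma h2 : (e * f - f * e) * (f * e) = (-1 : K) • (f * e) := by
  rw [sub_mul, H.i12, H.i2, zero_sub, neg_one_smul]
lemma h0 : (e * f - f * e) * (1 - e * f - f * e) = (0 : K) • (1 - e * f - f * e) := by
  rw [sub_mul, H.i10, H.i20, sub_zero, zero_smul]
lemma h1' : (e * f) * (e * f - f * e) = (1 : K) • (e * f) := by
  rw [mul_sub, H.i1, H.i12, sub_zero, one_smul]
lemma h2' : (f * e) * (e * f - f * e) = (-1 : K) • (f * e) := by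
  rw [mul_sub, H.i21, H.i2, zero_sub, neg_one_smul]
lemma h0' : (1 - e * f - f * e) * (e * f - f * e) = (0 : K) • (1 - e * f - f * e) := by
  rw [mul_sub, H.i01, H.i02, sub_zero, zero_smul]

/-- If the lowest block vanishes, then the weight `-1` part lies in `M`. -/
lemma neg_mem [CharZero K] {M : Submodule K (Module.End K V)} (hD : ∀ x ∈ M, DD e f x ∈ M)
    {x : Module.End K V} (hx : x ∈ M) (h : (f * e) * x * (e * f) = 0) :
    (1 - e * f - f * e) * x * (e * f) + (f * e) * x * (1 - e * f - f * e) ∈ M := by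
  apply extract_neg (DD e f) hD hx (a1 := (e * f) * x * (e * f)
      + (1 - e * f - f * e) * x * (1 - e * f - f * e) + (f * e) * x * (f * e))
    (a2 := (e * f) * x * (1 - e * f - f * e) + (1 - e * f - f * e) * x * (f * e))
    (a3 := (e * f) * x * (f * e))
  · have : x = ((e * f) + (f * e) + (1 - e * f - f * e)) * x *
        ((e * f) + (f * e) + (1 - e * f - f * e)) := by
      have : (e * f) + (f * e) + (1 - e * f - f * e) = 1 := by abel
      rw [this]; simp
    nth_rewrite 1 [this]
    have e2 : ((e * f) + (f * e) + (1 - e * f - f * e)) * x *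
        ((e * f) + (f * e) + (1 - e * f - f * e)) =
      (1 - e * f - f * e) * x * (e * f) + (f * e) * x * (1 - e * f - f * e)
      + ((e * f) * x * (e * f)
      + (1 - e * f - f * e) * x * (1 - e * f - f * e) + (f * e) * x * (f * e))
      + ((e * f) * x * (1 - e * f - f * e) + (1 - e * f - f * e) * x * (f * e))
      + (e * f) * x * (f * e) + (f * e) * x * (e * f) := by
      generalize (1 - e * f - f * e) = c
      simp only [add_mul, mul_add]
      abel
    rw [e2, h, add_zero]
  · rw [map_add, DD_block H.h0 H.h1', DD_block H.h2 H.h0']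
    module
  · rw [map_add, map_add, DD_block H.h1 H.h1', DD_block H.h0 H.h0', DD_block H.h2 H.h2']
    module
  · rw [map_add, DD_block H.h1 H.h0', DD_block H.h0 H.h2']
    module
  · rw [DD_block H.h1 H.h2']
    module

/-- If `x` is block upper triangular, then its diagonal part lies in `M`. -/
lemma zero_mem [CharZero K] {M : Submodule K (Module.End K V)} (hD : ∀ x ∈ M, DD e f x ∈ M)
    {x : Module.End K V} (hx : x ∈ M) (h : (f * e) * x * (e * f) = 0)
    (h' : (1 - e * f - f * e) * x * (e * f) = 0) (h'' : (f * e) * x * (1 - e * f - f * e) = 0) :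
    (e * f) * x * (e * f) + (1 - e * f - f * e) * x * (1 - e * f - f * e)
      + (f * e) * x * (f * e) ∈ M := by
  apply extract_zero (DD e f) hD hx
    (a2 := (e * f) * x * (1 - e * f - f * e) + (1 - e * f - f * e) * x * (f * e))
    (a3 := (e * f) * x * (f * e))
  · have : x = ((e * f) + (f * e) + (1 - e * f - f * e)) * x *
        ((e * f) + (f * e) + (1 - e * f - f * e)) := by
      have : (e * f) + (f * e) + (1 - e * f - f * e) = 1 := by abel
      rw [this]; simp
    nth_rewrite 1 [this]
    have e2 : ((e * f) + (f * e) + (1 - e * f - f * e)) * x *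
        ((e * f) + (f * e) + (1 - e * f - f * e)) =
      ((e * f) * x * (e * f)
      + (1 - e * f - f * e) * x * (1 - e * f - f * e) + (f * e) * x * (f * e))
      + ((e * f) * x * (1 - e * f - f * e) + (1 - e * f - f * e) * x * (f * e))
      + (e * f) * x * (f * e) + (f * e) * x * (e * f) + ((1 - e * f - f * e) * x * (e * f)
      + (f * e) * x * (1 - e * f - f * e)) := by
      generalize (1 - e * f - f * e) = c
      simp only [add_mul, mul_add]
      abel
    rw [e2, h, h', h'', add_zero, add_zero, add_zero]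
  · rw [map_add, map_add, DD_block H.h1 H.h1', DD_block H.h0 H.h0', DD_block H.h2 H.h2']
    module
  · rw [map_add, DD_block H.h1 H.h0', DD_block H.h0 H.h2']
    module
  · rw [DD_block H.h1 H.h2']
    module

end Hyp

end MTP
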