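import Pool.Agent.Helper21.MT.Gen

/-!
The tensor product of the standard representations of `GL_2` and of the group of orthogonal
similitudes in dimension `2 b`.
-/

open Module
open scoped Kronecker

namespace MTPairs

section lag
variable {K : Type*} [Field K] {m : Type*} [Fintype m] [DecidableEq m]

/-- Idempotents whose involution is skew for `B`. -/
def LagSet (B : Matrix m m K) : Set (Matrix m m K) :=
  {π | π * π = π ∧ π.transpose * B + B * π = B}

lemma lag_add {B π x : Matrix m m K} (h : π ∈ LagSet B) (h1 : π * x = x) (h2 : x * π = 0)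
    (h3 : x * x = 0) (h4 : x.transpose * B + B * x = 0) : π + x ∈ LagSet B := by
  obtain ⟨h5, h6⟩ := h
  constructor
  · rw [add_mul, mul_add, mul_add, h5, h1, h2, h3]; abel
  · rw [Matrix.transpose_add, add_mul, mul_add]
    calc π.transpose * B + x.transpose * B + (B * π + B * x)
        = (π.transpose * B + B * π) + (x.transpose * B + B * x) := by abel
      _ = B := by rw [h6, h4, add_zero]

/-- The matrix `M` preserves the subspace `U`. -/
def Pres (U : Submodule K (m → K)) (M : Matrix m m K) : Prop := ∀ v ∈ U, M.mulVec v ∈ U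

lemma Pres.mul {U : Submodule K (m → K)} {M N : Matrix m m K} (h1 : Pres U M) (h2 : Pres U N) :
    Pres U (M * N) := by
  intro v hv
  rw [← Matrix.mulVec_mulVec]
  exact h1 _ (h2 v hv)

lemma Pres.sub {U : Submodule K (m → K)} {M N : Matrix m m K} (h1 : Pres U M) (h2 : Pres U N) :
    Pres U (M - N) := by
  intro v hv
  rw [Matrix.sub_mulVec]
  exact U.sub_mem (h1 v hv) (h2 v hv)

/-- A subspace preserved by all matrix units is trivial. -/
lemma trivial_of_single {U : Submodule K (m → K)}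
    (h : ∀ p q : m, Pres U (Matrix.single p q (1 : K))) : U = ⊥ ∨ U = ⊤ := by
  by_cases hU : U = ⊥
  · left; exact hU
  right
  obtain ⟨v, hv, hv0⟩ := Submodule.exists_mem_ne_zero_of_ne_bot hU
  obtain ⟨q, hq⟩ : ∃ q, v q ≠ 0 := by
    by_contra hcon
    push Not at hcon
    exact hv0 (funext hcon)
  have hbasis : ∀ p, (Pi.single p (1 : K) : m → K) ∈ U := by
    intro p
    have h1 := h p q v hv
    rw [Matrix.single_mulVec] at h1
    have h2 := U.smul_mem (v q)⁻¹ h1
    convert h2 using 1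
    ext i
    by_cases hi : i = p
    · subst hi
      simp [Function.update, hq]
    · simp [Function.update, hi]
  rw [eq_top_iff]
  intro w _
  have : w = ∑ i, w i • (Pi.single i (1 : K) : m → K) := by
    ext j
    simp [Finset.sum_apply, Pi.single_apply]
  rw [this]
  exact U.sum_mem fun i _ => U.smul_mem _ (hbasis i)

end lag

section quad
variable {K : Type*} [Field K] {b : ℕ}

/-- The involution of the index set. -/
def tau (p : Fin 2 × Fin b) : Fin 2 × Fin b := (p.1 + 1, p.2)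

lemma tau_tau (p : Fin 2 × Fin b) : tau (tau p) = p := by
  rcases p with ⟨s, k⟩
  simp only [tau]
  congr 1
  fin_cases s <;> rfl

lemma tau_ne (p : Fin 2 × Fin b) : tau p ≠ p := by
  rcases p with ⟨s, k⟩
  intro h
  have := congrArg Prod.fst h
  simp only [tau] at this
  fin_cases s <;> simp at this

/-- The Gram matrix of a split quadratic form in `2 b` variables. -/
def Qm (K : Type*) [Field K] (b : ℕ) : Matrix (Fin 2 × Fin b) (Fin 2 × Fin b) K :=
  fun p q => if q = tau p then 1 else 0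

lemma Qm_mul (M : Matrix (Fin 2 × Fin b) (Fin 2 × Fin b) K) (p q : Fin 2 × Fin b) :
    (Qm K b * M) p q = M (tau p) q := by
  rw [Matrix.mul_apply]
  simp [Qm]

lemma mul_Qm (M : Matrix (Fin 2 × Fin b) (Fin 2 × Fin b) K) (p q : Fin 2 × Fin b) :
    (M * Qm K b) p q = M p (tau q) := by
  rw [Matrix.mul_apply]
  have : ∀ r, (Qm K b) r q = if r = tau q then 1 else 0 := by
    intro r
    simp only [Qm]
    congr 1
    rw [eq_iff_iff]
    constructor
    · rintro rfl; rw [tau_tau]
    · rintro rfl; rw [tau_tau]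
  simp [this]

lemma Qm_transpose : (Qm K b).transpose = Qm K b := by
  ext p q
  rw [Matrix.transpose_apply]
  simp only [Qm]
  congr 1
  rw [eq_iff_iff]
  constructor
  · rintro rfl; rw [tau_tau]
  · rintro rfl; rw [tau_tau]

lemma Qm_sq : Qm K b * Qm K b = 1 := by
  ext p q
  rw [Qm_mul]
  simp only [Qm, tau_tau, Matrix.one_apply]
  congr 1
  rw [eq_iff_iff, eq_comm]

lemma skew_of_entries {M N : Matrix (Fin 2 × Fin b) (Fin 2 × Fin b) K}
    (h : ∀ a c, M a c + M (tau c) (tau a) = N a c) :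
    M.transpose * Qm K b + Qm K b * M = Qm K b * N := by
  ext p q
  rw [Matrix.add_apply, mul_Qm, Qm_mul, Qm_mul, Matrix.transpose_apply, ← h (tau p) q, tau_tau,
    add_comm]

/-- The diagonal idempotents. -/
def Dd (K : Type*) [Field K] {b : ℕ} (d : Fin b → Fin 2) :
    Matrix (Fin 2 × Fin b) (Fin 2 × Fin b) K :=
  Matrix.diagonal (fun p => if p.1 = d p.2 then 1 else 0)

lemma Dd_mem (d : Fin b → Fin 2) : Dd K d ∈ LagSet (Qm K b) := by
  constructor
  · rw [Dd, Matrix.diagonal_mul_diagonal]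
    congr 1
    ext p
    split_ifs <;> simp
  · have := skew_of_entries (M := Dd K d) (N := 1) (by
      intro a c
      by_cases hac : a = c
      · subst hac
        simp only [Dd, Matrix.diagonal_apply_eq, Matrix.one_apply_eq, tau]
        rcases a with ⟨s, k⟩
        simp only
        generalize d k = x
        fin_cases s <;> fin_cases x <;> simp
      · have h2 : tau c ≠ tau a := by
          intro h
          apply hac
          rw [← tau_tau a, ← h, tau_tau]
        rw [Dd, Matrix.diagonal_apply_ne _ hac, Matrix.diagonal_apply_ne _ h2,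
          Matrix.one_apply_ne hac, add_zero])
    rwa [mul_one] at this

/-- The root elements. -/
def Rt (K : Type*) [Field K] {b : ℕ} (p q : Fin 2 × Fin b) :
    Matrix (Fin 2 × Fin b) (Fin 2 × Fin b) K :=
  Matrix.single p q 1 - Matrix.single (tau q) (tau p) 1

lemma Dd_single {d : Fin b → Fin 2} {p q : Fin 2 × Fin b} (h : p.1 = d p.2) :
    Dd K d * Matrix.single p q (1 : K) = Matrix.single p q 1 := by
  ext i j
  rw [Dd, Matrix.diagonal_mul]
  by_cases hi : p = i
  · subst hi; simp [h]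
  · rw [Matrix.single_apply_of_row_ne hi]; simp

lemma Dd_single_zero {d : Fin b → Fin 2} {p q : Fin 2 × Fin b} (h : p.1 ≠ d p.2) :
    Dd K d * Matrix.single p q (1 : K) = 0 := by
  ext i j
  rw [Dd, Matrix.diagonal_mul]
  by_cases hi : p = i
  · subst hi; simp [h]
  · rw [Matrix.single_apply_of_row_ne hi]; simp

lemma single_Dd_zero {d : Fin b → Fin 2} {p q : Fin 2 × Fin b} (h : q.1 ≠ d q.2) :
    Matrix.single p q (1 : K) * Dd K d = 0 := by
  ext i j
  rw [Dd, Matrix.mul_diagonal]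
  by_cases hj : q = j
  · subst hj; simp [h]
  · simp [hj]

lemma fin2_ne (s : Fin 2) : s + 1 ≠ s := by fin_cases s <;> simp

/-- Lagrangian idempotents that are not diagonal. -/
lemma Dd_add_Rt_mem {d : Fin b → Fin 2} {p q : Fin 2 × Fin b} (hpq : p.2 ≠ q.2)
    (h1 : d p.2 = p.1) (h2 : d q.2 = q.1 + 1) : Dd K d + Rt K p q ∈ LagSet (Qm K b) := by
  have hne : p ≠ q := fun h => hpq (congrArg Prod.snd h)
  have hne2 : tau p ≠ tau q := by
    intro h; apply hne; rw [← tau_tau p, h, tau_tau]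
  apply lag_add (Dd_mem d)
  · rw [Rt, mul_sub, Dd_single h1.symm, Dd_single]
    simp only [tau]; exact h2.symm
  · rw [Rt, sub_mul, single_Dd_zero, single_Dd_zero, sub_zero]
    · simp only [tau]; rw [h1]; exact fin2_ne _
    · rw [h2]; exact (fin2_ne _).symm
  · have a1 : Matrix.single p q (1 : K) * Matrix.single p q 1 = 0 :=
      Matrix.single_mul_single_of_ne _ _ _ _ hne.symm _
    have a2 : Matrix.single p q (1 : K) * Matrix.single (tau q) (tau p) 1 = 0 :=
      Matrix.single_mul_single_of_ne _ _ _ _ (tau_ne q).symm _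
    have a3 : Matrix.single (tau q) (tau p) (1 : K) * Matrix.single p q 1 = 0 :=
      Matrix.single_mul_single_of_ne _ _ _ _ (tau_ne p) _
    have a4 : Matrix.single (tau q) (tau p) (1 : K) * Matrix.single (tau q) (tau p) 1 = 0 :=
      Matrix.single_mul_single_of_ne _ _ _ _ hne2 _
    rw [Rt, sub_mul, mul_sub, mul_sub, a1, a2, a3, a4]; simp
  · have := skew_of_entries (M := Rt K p q) (N := 0) (by
      intro a c
      have e1 : ∀ x y : Fin 2 × Fin b, (x = tau y) ↔ (y = tau x) := by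
        intro x y
        constructor
        · rintro rfl; rw [tau_tau]
        · rintro rfl; rw [tau_tau]
      simp only [Rt, Matrix.sub_apply, Matrix.single_apply, Matrix.zero_apply]
      have e2 : (p = tau c ∧ q = tau a) ↔ (tau q = a ∧ tau p = c) := by
        constructor
        · rintro ⟨rfl, rfl⟩; exact ⟨tau_tau a, tau_tau c⟩
        · rintro ⟨rfl, rfl⟩; exact ⟨(tau_tau p).symm, (tau_tau q).symm⟩
      have e3 : (tau q = tau c ∧ tau p = tau a) ↔ (p = a ∧ q = c) := by
        constructor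
        · rintro ⟨h1, h2⟩
          exact ⟨by rw [← tau_tau p, h2, tau_tau], by rw [← tau_tau q, h1, tau_tau]⟩
        · rintro ⟨rfl, rfl⟩; exact ⟨rfl, rfl⟩
      rw [if_congr e2 rfl rfl, if_congr e3 rfl rfl]
      ring)
    rwa [mul_zero] at this

/-- The Gram matrix of the standard symplectic plane. -/
def Em (K : Type*) [Field K] : Matrix (Fin 2) (Fin 2) K := !![0, 1; -1, 0]

lemma Em_sq : Em K * Em K = -1 := by
  ext i j
  fin_cases i <;> fin_cases j <;> simp [Em, Matrix.mul_apply, Fin.sum_univ_two]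

lemma Em_transpose : (Em K).transpose = - Em K := by
  ext i j
  fin_cases i <;> fin_cases j <;> simp [Em]

/-- The symplectic form on the tensor product. -/
def Jm (K : Type*) [Field K] (b : ℕ) :
    Matrix (Fin 2 × (Fin 2 × Fin b)) (Fin 2 × (Fin 2 × Fin b)) K := Em K ⊗ₖ Qm K b

lemma Jm_transpose : (Jm K b).transpose = - Jm K b := by
  rw [Jm, ← Matrix.kroneckerMap_transpose, Em_transpose, Qm_transpose]
  ext i j
  simp

lemma Jm_det : (Jm K b).det ≠ 0 := by
  have h : Jm K b * (-Jm K b) = 1 := by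
    rw [mul_neg, Jm, ← Matrix.mul_kronecker_mul, Em_sq, Qm_sq]
    ext i j
    rcases i with ⟨i, i'⟩
    rcases j with ⟨j, j'⟩
    simp only [Matrix.neg_apply, Matrix.kroneckerMap_apply, Matrix.one_apply, Prod.mk.injEq]
    by_cases h1 : i = j <;> by_cases h2 : i' = j' <;> simp [h1, h2]
  intro h0
  have := congrArg Matrix.det h
  rw [Matrix.det_mul, h0, zero_mul, Matrix.det_one] at this
  exact zero_ne_one this

/-- The idempotents generating the example. -/
def Gens (K : Type*) [Field K] (b : ℕ) :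
    Set (Matrix (Fin 2 × (Fin 2 × Fin b)) (Fin 2 × (Fin 2 × Fin b)) K) :=
  {π | (∃ P ∈ LagSet (Em K), π = P ⊗ₖ (1 : Matrix (Fin 2 × Fin b) (Fin 2 × Fin b) K)) ∨
    (∃ P ∈ LagSet (Qm K b), π = (1 : Matrix (Fin 2) (Fin 2) K) ⊗ₖ P)}

lemma Gens_idem : ∀ π ∈ Gens K b, π * π = π := by
  rintro π (⟨P, hP, rfl⟩ | ⟨P, hP, rfl⟩)
  · rw [← Matrix.mul_kronecker_mul, hP.1, one_mul]
  · rw [← Matrix.mul_kronecker_mul, hP.1, one_mul]

lemma Gens_lag : ∀ π ∈ Gens K b, π.transpose * Jm K b + Jm K b * π = Jm K b := by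
  rintro π (⟨P, hP, rfl⟩ | ⟨P, hP, rfl⟩)
  · rw [← Matrix.kroneckerMap_transpose, Matrix.transpose_one, Jm, ← Matrix.mul_kronecker_mul,
      ← Matrix.mul_kronecker_mul, one_mul, mul_one, ← Matrix.add_kronecker, hP.2]
  · rw [← Matrix.kroneckerMap_transpose, Matrix.transpose_one, Jm, ← Matrix.mul_kronecker_mul,
      ← Matrix.mul_kronecker_mul, one_mul, mul_one, ← Matrix.kronecker_add, hP.2]

/-- The idempotents of the plane. -/
lemma P1_mem : (!![1, 0; 0, 0] : Matrix (Fin 2) (Fin 2) K) ∈ LagSet (Em K) := by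
  constructor <;> ext i j <;> fin_cases i <;> fin_cases j <;>
    simp [Em, Matrix.mul_apply, Fin.sum_univ_two, Matrix.transpose_apply]

lemma P2_mem : (!![1, 1; 0, 0] : Matrix (Fin 2) (Fin 2) K) ∈ LagSet (Em K) := by
  constructor <;> ext i j <;> fin_cases i <;> fin_cases j <;>
    simp [Em, Matrix.mul_apply, Fin.sum_univ_two, Matrix.transpose_apply]

lemma P3_mem : (!![1, 0; 1, 0] : Matrix (Fin 2) (Fin 2) K) ∈ LagSet (Em K) := by
  constructor <;> ext i j <;> fin_cases i <;> fin_cases j <;>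
    simp [Em, Matrix.mul_apply, Fin.sum_univ_two, Matrix.transpose_apply]

/-- Irreducibility of the example. -/
lemma Gens_irr (hb : 2 ≤ b) {U : Submodule K (Fin 2 × (Fin 2 × Fin b) → K)}
    (hU : ∀ π ∈ Gens K b, Pres U π) : U = ⊥ ∨ U = ⊤ := by
  -- the left factor
  have h1 : Pres U ((!![1, 0; 0, 0] : Matrix (Fin 2) (Fin 2) K) ⊗ₖ
      (1 : Matrix (Fin 2 × Fin b) (Fin 2 × Fin b) K)) := hU _ (Or.inl ⟨_, P1_mem, rfl⟩)
  have h2 : Pres U ((!![1, 1; 0, 0] : Matrix (Fin 2) (Fin 2) K) ⊗ₖ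
      (1 : Matrix (Fin 2 × Fin b) (Fin 2 × Fin b) K)) := hU _ (Or.inl ⟨_, P2_mem, rfl⟩)
  have h3 : Pres U ((!![1, 0; 1, 0] : Matrix (Fin 2) (Fin 2) K) ⊗ₖ
      (1 : Matrix (Fin 2 × Fin b) (Fin 2 × Fin b) K)) := hU _ (Or.inl ⟨_, P3_mem, rfl⟩)
  have hone : Pres U 1 := by intro v hv; rwa [Matrix.one_mulVec]
  have hleft : ∀ i j : Fin 2, Pres U (Matrix.single i j (1 : K) ⊗ₖ
      (1 : Matrix (Fin 2 × Fin b) (Fin 2 × Fin b) K)) := by
    intro i j
    have key : ∀ {A B : Matrix (Fin 2) (Fin 2) K}, A = B →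
        Pres U (A ⊗ₖ (1 : Matrix (Fin 2 × Fin b) (Fin 2 × Fin b) K)) →
        Pres U (B ⊗ₖ (1 : Matrix (Fin 2 × Fin b) (Fin 2 × Fin b) K)) := by
      rintro A B rfl h; exact h
    have ksub : ∀ {A B : Matrix (Fin 2) (Fin 2) K},
        Pres U (A ⊗ₖ (1 : Matrix (Fin 2 × Fin b) (Fin 2 × Fin b) K)) →
        Pres U (B ⊗ₖ (1 : Matrix (Fin 2 × Fin b) (Fin 2 × Fin b) K)) →
        Pres U ((A - B) ⊗ₖ (1 : Matrix (Fin 2 × Fin b) (Fin 2 × Fin b) K)) := by
      intro A B hA hB
      have e : (A - B) ⊗ₖ (1 : Matrix (Fin 2 × Fin b) (Fin 2 × Fin b) K) =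
          A ⊗ₖ (1 : Matrix (Fin 2 × Fin b) (Fin 2 × Fin b) K) -
          B ⊗ₖ (1 : Matrix (Fin 2 × Fin b) (Fin 2 × Fin b) K) := by
        ext i j; simp [sub_mul]
      rw [e]; exact hA.sub hB
    have h0 : Pres U ((1 : Matrix (Fin 2) (Fin 2) K) ⊗ₖ
        (1 : Matrix (Fin 2 × Fin b) (Fin 2 × Fin b) K)) := by
      rw [Matrix.one_kronecker_one]; exact hone
    fin_cases i <;> fin_cases j
    · refine key ?_ h1
      ext i j; fin_cases i <;> fin_cases j <;> simp
    · refine key ?_ (ksub h2 h1)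
      ext i j; fin_cases i <;> fin_cases j <;> simp
    · refine key ?_ (ksub h3 h1)
      ext i j; fin_cases i <;> fin_cases j <;> simp
    · refine key ?_ (ksub h0 h1)
      ext i j; fin_cases i <;> fin_cases j <;> simp
  -- the right factor
  have hD : ∀ d : Fin b → Fin 2, Pres U ((1 : Matrix (Fin 2) (Fin 2) K) ⊗ₖ Dd K d) :=
    fun d => hU _ (Or.inr ⟨_, Dd_mem d, rfl⟩)
  have hright1 : ∀ p q : Fin 2 × Fin b, p.2 ≠ q.2 →
      Pres U ((1 : Matrix (Fin 2) (Fin 2) K) ⊗ₖ Matrix.single p q (1 : K)) := by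
    intro p q hpq
    let d : Fin b → Fin 2 := Function.update (Function.update (fun _ => 0) p.2 p.1) q.2 (q.1 + 1)
    have d1 : d p.2 = p.1 := by simp [d, hpq]
    have d2 : d q.2 = q.1 + 1 := by simp [d]
    let d' : Fin b → Fin 2 := Function.update (Function.update (fun _ => 0) p.2 p.1) q.2 q.1
    have d1' : d' p.2 = p.1 := by simp [d', hpq]
    have d2' : d' q.2 = q.1 := by simp [d']
    have hx : Pres U ((1 : Matrix (Fin 2) (Fin 2) K) ⊗ₖ Rt K p q) := by
      have h := (hU _ (Or.inr ⟨_, Dd_add_Rt_mem hpq d1 d2, rfl⟩)).sub (hD d)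
      have e : (1 : Matrix (Fin 2) (Fin 2) K) ⊗ₖ (Dd K d + Rt K p q) -
          (1 : Matrix (Fin 2) (Fin 2) K) ⊗ₖ Dd K d =
          (1 : Matrix (Fin 2) (Fin 2) K) ⊗ₖ Rt K p q := by
        rw [Matrix.kronecker_add]; abel
      rwa [e] at h
    have h := (hD d').mul hx
    rw [← Matrix.mul_kronecker_mul, one_mul, Rt, mul_sub, Dd_single d1'.symm, Dd_single_zero,
      sub_zero] at h
    · exact h
    · simp only [tau]; rw [d2']; exact fin2_ne _
  have hright : ∀ p q : Fin 2 × Fin b,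
      Pres U ((1 : Matrix (Fin 2) (Fin 2) K) ⊗ₖ Matrix.single p q (1 : K)) := by
    intro p q
    by_cases hpq : p.2 = q.2
    · obtain ⟨l, hl⟩ : ∃ l : Fin b, l ≠ q.2 := by
        have : Nontrivial (Fin b) := Fin.nontrivial_iff_two_le.mpr hb
        exact exists_ne q.2
      have a1 := hright1 p ((0 : Fin 2), l) (by rw [hpq]; exact hl.symm)
      have a2 := hright1 ((0 : Fin 2), l) q hl
      have h := a1.mul a2
      rw [← Matrix.mul_kronecker_mul, one_mul, Matrix.single_mul_single_same, one_mul] at h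
      exact h
    · exact hright1 p q hpq
  apply trivial_of_single
  rintro ⟨i, p⟩ ⟨j, q⟩
  have h := (hleft i j).mul (hright p q)
  rw [← Matrix.mul_kronecker_mul, one_mul, mul_one] at h
  have e : Matrix.single i j (1 : K) ⊗ₖ Matrix.single p q (1 : K) =
      Matrix.single (i, p) (j, q) 1 := by
    rw [Matrix.kroneckerMap_single_single]
    · simp
    · simp
    · simp
  rwa [e] at h

/-- The group of decomposable invertible matrices. -/
def Dec (K : Type*) [Field K] (b : ℕ) :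
    Subgroup (Matrix.GeneralLinearGroup (Fin 2 × (Fin 2 × Fin b)) K) where
  carrier := {g | ∃ (A : Matrix (Fin 2) (Fin 2) K)
    (C : Matrix (Fin 2 × Fin b) (Fin 2 × Fin b) K),
    (g : Matrix (Fin 2 × (Fin 2 × Fin b)) (Fin 2 × (Fin 2 × Fin b)) K) = A ⊗ₖ C}
  one_mem' := ⟨1, 1, by rw [Matrix.one_kronecker_one]; rfl⟩
  mul_mem' := by
    rintro g h ⟨A, C, hg⟩ ⟨A', C', hh⟩
    exact ⟨A * A', C * C', by rw [Units.val_mul, hg, hh, Matrix.mul_kronecker_mul]⟩
  inv_mem' := by
    rintro g ⟨A, C, hg⟩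
    refine ⟨A⁻¹, C⁻¹, ?_⟩
    rw [Matrix.coe_units_inv, hg, Matrix.inv_kronecker]

lemma Dec_closed (hb : 0 < b) : ZariskiClosed (Dec K b) := by
  refine ⟨{p | ∃ (i j i' j' : Fin 2) (k l k' l' : Fin 2 × Fin b), p =
    MvPolynomial.X ((i, k), (j, l)) * MvPolynomial.X ((i', k'), (j', l')) -
    MvPolynomial.X ((i, k'), (j, l')) * MvPolynomial.X ((i', k), (j', l))}, fun g => ?_⟩
  constructor
  · rintro ⟨A, C, hg⟩ p ⟨i, j, i', j', k, l, k', l', rfl⟩
    simp only [map_sub, map_mul, MvPolynomial.eval_X, hg, Matrix.kroneckerMap_apply]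
    ring
  · intro h
    have h' : ∀ (i j i' j' : Fin 2) (k l k' l' : Fin 2 × Fin b),
        (g : Matrix _ _ K) (i, k) (j, l) * (g : Matrix _ _ K) (i', k') (j', l') =
        (g : Matrix _ _ K) (i, k') (j, l') * (g : Matrix _ _ K) (i', k) (j', l) := by
      intro i j i' j' k l k' l'
      have := h _ ⟨i, j, i', j', k, l, k', l', rfl⟩
      simp only [map_sub, map_mul, MvPolynomial.eval_X] at this
      exact sub_eq_zero.mp this
    obtain ⟨⟨i0, k0⟩, ⟨j0, l0⟩, h0⟩ : ∃ p q, (g : Matrix _ _ K) p q ≠ 0 := by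
      by_contra hcon
      push Not at hcon
      have hz : (g : Matrix (Fin 2 × (Fin 2 × Fin b)) (Fin 2 × (Fin 2 × Fin b)) K) = 0 := by
        ext p q; exact hcon p q
      have hd : (g : Matrix (Fin 2 × (Fin 2 × Fin b)) (Fin 2 × (Fin 2 × Fin b)) K).det ≠ 0 :=
        ((Matrix.isUnit_iff_isUnit_det _).mp g.isUnit).ne_zero
      have : Nonempty (Fin 2 × (Fin 2 × Fin b)) := ⟨(0, (0, ⟨0, hb⟩))⟩
      rw [hz, Matrix.det_zero] at hd
      exact hd rfl
    refine ⟨fun i j => (g : Matrix _ _ K) (i, k0) (j, l0),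
      fun k l => ((g : Matrix _ _ K) (i0, k0) (j0, l0))⁻¹ * (g : Matrix _ _ K) (i0, k) (j0, l), ?_⟩
    ext ⟨i, k⟩ ⟨j, l⟩
    change (g : Matrix _ _ K) (i, k) (j, l) = (g : Matrix _ _ K) (i, k0) (j, l0) *
      (((g : Matrix _ _ K) (i0, k0) (j0, l0))⁻¹ * (g : Matrix _ _ K) (i0, k) (j0, l))
    have := h' i j i0 j0 k l k0 l0
    field_simp
    linear_combination this

lemma sub_kron {l n : Type*} (A B : Matrix l l K) (C : Matrix n n K) :
    (A - B) ⊗ₖ C = A ⊗ₖ C - B ⊗ₖ C := by
  ext i j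
  simp [sub_mul]

lemma kron_sub {l n : Type*} (A : Matrix l l K) (B C : Matrix n n K) :
    A ⊗ₖ (B - C) = A ⊗ₖ B - A ⊗ₖ C := by
  ext i j
  simp [mul_sub]

lemma Gens_dec : ∀ π ∈ Gens K b, IsCochar (Dec K b) π := by
  intro π hπ
  refine ⟨Gens_idem π hπ, fun t ht => ?_⟩
  refine ⟨⟨t • π + (1 - π), t⁻¹ • π + (1 - π), torus_mul (Gens_idem π hπ) ht, ?_⟩, ?_, rfl⟩
  · have := torus_mul (Gens_idem π hπ) (inv_ne_zero ht)
    rwa [inv_inv] at this
  · rcases hπ with ⟨P, hP, rfl⟩ | ⟨P, hP, rfl⟩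
    · refine ⟨t • P + (1 - P), 1, ?_⟩
      change t • (P ⊗ₖ (1 : Matrix (Fin 2 × Fin b) (Fin 2 × Fin b) K)) +
        (1 - P ⊗ₖ (1 : Matrix (Fin 2 × Fin b) (Fin 2 × Fin b) K)) = _
      rw [Matrix.add_kronecker, Matrix.smul_kronecker, sub_kron, Matrix.one_kronecker_one]
    · refine ⟨1, t • P + (1 - P), ?_⟩
      change t • ((1 : Matrix (Fin 2) (Fin 2) K) ⊗ₖ P) +
        (1 - (1 : Matrix (Fin 2) (Fin 2) K) ⊗ₖ P) = _
      rw [Matrix.kronecker_add, Matrix.kronecker_smul, kron_sub, Matrix.one_kronecker_one]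

/-- A symplectic transvection that is not decomposable. -/
lemma exists_not_dec (hb : 0 < b) :
    ∃ g : Matrix.GeneralLinearGroup (Fin 2 × (Fin 2 × Fin b)) K,
      (g : Matrix _ _ K).transpose * Jm K b * (g : Matrix _ _ K) = (1 : K) • Jm K b ∧
        g ∉ Dec K b := by
  set p : Fin 2 × (Fin 2 × Fin b) := (0, (0, ⟨0, hb⟩)) with hp
  set p' : Fin 2 × (Fin 2 × Fin b) := (1, (1, ⟨0, hb⟩)) with hp'
  have hne : p' ≠ p := by
    intro h
    have := congrArg Prod.fst h
    simp [hp, hp'] at this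
  have hsq : Matrix.single p p' (1 : K) * Matrix.single p p' 1 = 0 :=
    Matrix.single_mul_single_of_ne _ _ _ _ hne _
  let g : Matrix.GeneralLinearGroup (Fin 2 × (Fin 2 × Fin b)) K :=
    ⟨1 + Matrix.single p p' 1, 1 - Matrix.single p p' 1,
      by
        have e : (1 + Matrix.single p p' (1 : K)) * (1 - Matrix.single p p' 1) =
          1 - Matrix.single p p' (1 : K) * Matrix.single p p' 1 := by noncomm_ring
        rw [e, hsq, sub_zero],
      by
        have e : (1 - Matrix.single p p' (1 : K)) * (1 + Matrix.single p p' 1) =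
          1 - Matrix.single p p' (1 : K) * Matrix.single p p' 1 := by noncomm_ring
        rw [e, hsq, sub_zero]⟩
  refine ⟨g, ?_, ?_⟩
  · change (1 + Matrix.single p p' (1 : K)).transpose * Jm K b * (1 + Matrix.single p p' 1) = _
    rw [Matrix.transpose_add, Matrix.transpose_one, Matrix.transpose_single, one_smul]
    have hJ1 : ∀ y, Jm K b p y = if p' = y then 1 else 0 := by
      rintro ⟨s, s', k⟩
      rw [Jm, hp, hp', Matrix.kroneckerMap_apply]
      simp only [Qm, tau, Prod.mk.injEq]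
      by_cases hk : k = ⟨0, hb⟩
      · subst hk
        fin_cases s <;> fin_cases s' <;> simp [Em]
      · have hk' : ¬ (⟨0, hb⟩ : Fin b) = k := fun h => hk h.symm
        simp [hk, hk']
    have hJ2 : ∀ x, Jm K b x p = if p' = x then -1 else 0 := by
      rintro ⟨s, s', k⟩
      rw [Jm, hp, hp', Matrix.kroneckerMap_apply]
      simp only [Qm, tau, Prod.mk.injEq]
      by_cases hk : k = ⟨0, hb⟩
      · subst hk
        fin_cases s <;> fin_cases s' <;> simp [Em]
      · have hk' : ¬ (⟨0, hb⟩ : Fin b) = k := fun h => hk h.symm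
        simp [hk, hk']
    have e1 : Matrix.single p' p (1 : K) * Jm K b = Matrix.single p' p' 1 := by
      ext x y
      rw [Matrix.single_apply]
      by_cases hx : p' = x
      · subst hx
        rw [Matrix.single_mul_apply_same, one_mul, hJ1]
        simp
      · rw [Matrix.single_mul_apply_of_ne _ _ _ _ _ (Ne.symm hx)]
        simp [hx]
    have e2 : Jm K b * Matrix.single p p' (1 : K) = - Matrix.single p' p' 1 := by
      ext x y
      rw [Matrix.neg_apply, Matrix.single_apply]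
      by_cases hy : p' = y
      · subst hy
        rw [Matrix.mul_single_apply_same, mul_one, hJ2]
        by_cases hx : p' = x <;> simp [hx]
      · rw [Matrix.mul_single_apply_of_ne _ _ _ _ _ (Ne.symm hy)]
        simp [hy]
    have e3 : Matrix.single p' p' (1 : K) * Matrix.single p p' 1 = 0 :=
      Matrix.single_mul_single_of_ne _ _ _ _ hne _
    rw [add_mul, one_mul, e1, mul_add, mul_one, add_mul, e2, e3]
    abel
  · rintro ⟨A, C, hg⟩
    have hg' : ∀ x y, (1 + Matrix.single p p' (1 : K)) x y = (A ⊗ₖ C) x y := by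
      intro x y; rw [← hg]
    have h1 := hg' (0, (0, ⟨0, hb⟩)) (1, (1, ⟨0, hb⟩))
    have h2 := hg' (0, (0, ⟨0, hb⟩)) (0, (0, ⟨0, hb⟩))
    have h3 := hg' (0, (0, ⟨0, hb⟩)) (1, (0, ⟨0, hb⟩))
    simp only [Matrix.kroneckerMap_apply, Matrix.add_apply, Matrix.one_apply,
      Matrix.single_apply, hp, hp', Prod.mk.injEq] at h1 h2 h3
    norm_num at h1 h2 h3
    rcases h3 with h3 | h3
    · rw [h3, zero_mul] at h1; exact one_ne_zero h1
    · rw [h3, mul_zero] at h2; exact one_ne_zero h2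

end quad

end MTPairs
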