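import Pool.Agent.Helper21.MT.Rank

/-!
Nondegeneracy of the trace form on ideals of an irreducible Lie algebra of trace zero operators.
-/

open Module

namespace MTP

variable {K : Type*} [Field K] {V : Type*} [AddCommGroup V] [Module K V] [FiniteDimensional K V]

attribute [local instance 100] LieRing.ofAssociativeRing

/-- An ideal of an irreducible Lie algebra of trace zero operators on which the trace form
vanishes is zero. -/
theorem ideal_eq_bot [IsAlgClosed K] [CharZero K] (L : LieSubalgebra K (Module.End K V))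
    (hirr : ∀ W : Submodule K V, (∀ z ∈ L, ∀ w ∈ W, z w ∈ W) → W = ⊥ ∨ W = ⊤)
    (htr : ∀ z ∈ L, LinearMap.trace K V z = 0) (R : LieIdeal K L)
    (h0 : ∀ y ∈ R, ∀ y' ∈ R, LinearMap.trace K V ((y : Module.End K V) * (y' : Module.End K V)) = 0) :
    R = ⊥ := by
  rcases subsingleton_or_nontrivial V with hV | hV
  · have : Subsingleton L := by
      constructor
      intro a b
      apply Subtype.ext
      ext v
      exact Subsingleton.elim _ _
    rw [eq_bot_iff]
    intro y _
    rw [Subsingleton.elim y 0]
    exact zero_mem _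
  -- the trace form of `R` on `V` vanishes
  have hT : LieModule.traceForm K R V = 0 := by
    ext ⟨y, hy⟩ ⟨y', hy'⟩
    rw [LieModule.traceForm_apply_apply]
    exact h0 y hy y' hy'
  have hnil := LieModule.isNilpotent_derivedSeries_of_traceForm_eq_zero hT
  have hmax : Nontrivial (LieModule.maxTrivSubmodule K (LieAlgebra.derivedSeries K R 1) V) :=
    LieModule.nontrivial_max_triv_of_isNilpotent K _ V
  obtain ⟨⟨v, hv⟩, hv0⟩ := exists_ne
    (0 : LieModule.maxTrivSubmodule K (LieAlgebra.derivedSeries K R 1) V)
  have hv0' : v ≠ 0 := fun h => hv0 (Subtype.ext h)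
  rw [LieModule.mem_maxTrivSubmodule] at hv
  have hbr : ∀ a b : R, ⁅a, b⁆ ∈ LieAlgebra.derivedSeries K R 1 := by
    intro a b
    have : LieAlgebra.derivedSeries K R 1 = ⁅(⊤ : LieIdeal K R), (⊤ : LieIdeal K R)⁆ := by
      simp [LieAlgebra.derivedSeries_def]
    rw [this]
    exact LieSubmodule.lie_mem_lie (LieSubmodule.mem_top _) (LieSubmodule.mem_top _)
  -- the space killed by all brackets
  let W : Submodule K V :=
    { carrier := {w | ∀ a b : L, a ∈ R → b ∈ R →
        ((a : Module.End K V) * (b : Module.End K V) - (b : Module.End K V) * (a : Module.End K V)) w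
          = 0}
      add_mem' := by
        intro w w' hw hw' a b ha hb
        rw [map_add, hw a b ha hb, hw' a b ha hb, add_zero]
      zero_mem' := by intro a b _ _; simp
      smul_mem' := by
        intro c w hw a b ha hb
        rw [map_smul, hw a b ha hb, smul_zero] }
  have hW : ∀ z ∈ L, ∀ w ∈ W, z w ∈ W := by
    intro z hz w hw a b ha hb
    have ha' : ⁅(⟨z, hz⟩ : L), a⁆ ∈ R := LieSubmodule.lie_mem R ha
    have hb' : ⁅(⟨z, hz⟩ : L), b⁆ ∈ R := LieSubmodule.lie_mem R hb
    have e0 := hw a b ha hb
    have e1 := hw _ _ ha' hb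
    have e2 := hw _ _ ha hb'
    simp only [LieSubalgebra.coe_bracket, LieRing.of_associative_ring_bracket,
      LinearMap.sub_apply, Module.End.mul_apply, map_sub] at e0 e1 e2 ⊢
    have e0' : z ((a : Module.End K V) ((b : Module.End K V) w)) =
      z ((b : Module.End K V) ((a : Module.End K V) w)) := by
      rw [← sub_eq_zero, ← map_sub, e0, map_zero]
    have := congrArg₂ (· + ·) e1 e2
    simp only [add_zero] at this
    rw [← neg_eq_zero]
    rw [← this]
    rw [e0']
    abel
  have hWtop : W = ⊤ := by
    rcases hirr W hW with h | h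
    · exfalso
      apply hv0'
      have : v ∈ W := by
        intro a b ha hb
        have := hv ⟨⁅(⟨a, ha⟩ : R), (⟨b, hb⟩ : R)⁆, hbr _ _⟩
        exact this
      rw [h] at this
      exact (Submodule.mem_bot K).mp this
    · exact h
  have hab : IsLieAbelian R := by
    constructor
    rintro ⟨a, ha⟩ ⟨b, hb⟩
    apply Subtype.ext
    apply Subtype.ext
    ext w
    have hw : w ∈ W := by rw [hWtop]; trivial
    exact hw a b ha hb
  obtain ⟨χ, hχ⟩ := LieModule.exists_nontrivial_weightSpace_of_isSolvable K R V
  have hW2 := hirr (LieModule.weightSpaceOfIsLieTower K V χ : LieSubmodule K L V).toSubmodule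
    (fun z hz w hw => LieSubmodule.lie_mem (LieModule.weightSpaceOfIsLieTower K V χ)
      (x := (⟨z, hz⟩ : L)) hw)
  have hW3 : ∀ w : V, w ∈ LieModule.weightSpace V χ := by
    rcases hW2 with h | h
    · exfalso
      obtain ⟨⟨w, hw⟩, hw0⟩ := exists_ne (0 : LieModule.weightSpace V χ)
      apply hw0
      have : w ∈ (LieModule.weightSpaceOfIsLieTower K V χ : LieSubmodule K L V).toSubmodule := hw
      rw [h] at this
      exact Subtype.ext ((Submodule.mem_bot K).mp this)
    · intro w
      have : w ∈ (LieModule.weightSpaceOfIsLieTower K V χ : LieSubmodule K L V).toSubmodule := by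
        rw [h]; trivial
      exact this
  rw [eq_bot_iff]
  intro y hy
  rw [LieSubmodule.mem_bot]
  have hy1 : (y : Module.End K V) = χ ⟨y, hy⟩ • (1 : Module.End K V) := by
    ext w
    have := hW3 w
    rw [LieModule.mem_weightSpace] at this
    exact this ⟨y, hy⟩
  have hy2 := htr y y.2
  rw [hy1, map_smul, LinearMap.trace_one] at hy2
  have hdim : (finrank K V : K) ≠ 0 := by
    rw [Nat.cast_ne_zero]
    exact Module.finrank_pos.ne'
  have hy3 : χ ⟨y, hy⟩ = 0 := by
    rcases mul_eq_zero.mp hy2 with h | h
    · exact h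
    · exact absurd h hdim
  apply Subtype.ext
  rw [hy1, hy3, zero_smul]
  rfl

end MTP
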